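import Mathlib
import Pool.Agent.H6.CommonZero

/-!
# Curves of given degrees with few boundary points through a given point

The algebraic heart of the toric version: `x_i(t)` is a polynomial of degree at most `b i`,
the equations `G j` have weighted degree at most `e j`, the boundary polynomial `F` has weighted
degree at most `d`, and `∑ e j + d ≤ ∑ b i`.
-/

set_option autoImplicit false

namespace Pool.Agent.H6.Toric

open MvPolynomial

variable {K : Type*} [Field K] {ι : Type*}

/-- The substitution of polynomials commutes with evaluation. -/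
lemma eval_aeval (y : ι → Polynomial K) (G : MvPolynomial ι K) (t : K) :
    (aeval y G).eval t = eval (fun i => (y i).eval t) G := by
  have h : ((Polynomial.evalRingHom t).comp
      (aeval y : MvPolynomial ι K →ₐ[K] Polynomial K).toRingHom) =
      (eval (fun i => (y i).eval t) : MvPolynomial ι K →+* K) := by
    apply MvPolynomial.ringHom_ext
    · intro r; simp
    · intro i
      simp
  exact DFunLike.congr_fun h G

lemma natDegree_aeval_le [Fintype ι] (b : ι → ℕ) (y : ι → Polynomial K)
    (hy : ∀ i, (y i).natDegree ≤ b i) (G : MvPolynomial ι K) {e : ℕ}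
    (hG : ∀ m ∈ G.support, ∑ i, b i * m i ≤ e) : (aeval y G).natDegree ≤ e := by
  rw [MvPolynomial.aeval_def, MvPolynomial.eval₂_eq']
  apply Polynomial.natDegree_sum_le_of_forall_le
  intro m hm
  refine Polynomial.natDegree_mul_le.trans ?_
  have h1 : ((algebraMap K (Polynomial K)) (coeff m G)).natDegree = 0 := by
    rw [Polynomial.algebraMap_apply]
    simp
  rw [h1, zero_add]
  refine (Polynomial.natDegree_prod_le _ _).trans ?_
  refine le_trans (Finset.sum_le_sum fun i _ => ?_) (hG m hm)
  refine Polynomial.natDegree_pow_le.trans ?_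
  rw [mul_comm (b i)]
  exact Nat.mul_le_mul_left _ (hy i)

/-- The substitution with indeterminate coefficients. -/
lemma map_aeval {τ : Type*} (Y : ι → Polynomial (MvPolynomial τ K)) (G : MvPolynomial ι K)
    (s : τ → K) :
    (aeval Y G).map (eval s) = aeval (fun i => (Y i).map (eval s)) G := by
  have h : ((Polynomial.mapRingHom (eval s)).comp
      (aeval Y : MvPolynomial ι K →ₐ[K] Polynomial (MvPolynomial τ K)).toRingHom) =
      (aeval (fun i => (Y i).map (eval s)) :
        MvPolynomial ι K →ₐ[K] Polynomial K).toRingHom := by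
    apply MvPolynomial.ringHom_ext
    · intro r
      simp [Polynomial.algebraMap_apply, MvPolynomial.algebraMap_eq]
    · intro i; simp
  exact DFunLike.congr_fun h G

lemma natDegree_boundary_le (z α β : K) {d : ℕ} (hd : 1 ≤ d) :
    (Polynomial.C z * (1 - Polynomial.C α * Polynomial.X) ^ (d - 1) *
      (1 - Polynomial.C β * Polynomial.X)).natDegree ≤ d := by
  refine Polynomial.natDegree_mul_le.trans ?_
  have h1 : ∀ z : K, (1 - Polynomial.C z * Polynomial.X : Polynomial K).natDegree ≤ 1 := by
    intro z
    refine (Polynomial.natDegree_sub_le _ _).trans ?_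
    simp only [Polynomial.natDegree_one, zero_le, sup_of_le_right]
    refine (Polynomial.natDegree_C_mul_le _ _).trans ?_
    exact Polynomial.natDegree_X_le
  have h2 : (Polynomial.C z *
      (1 - Polynomial.C α * Polynomial.X) ^ (d - 1)).natDegree ≤ d - 1 := by
    refine (Polynomial.natDegree_C_mul_le _ _).trans ?_
    refine Polynomial.natDegree_pow_le.trans ?_
    calc (d - 1) * (1 - Polynomial.C α * Polynomial.X : Polynomial K).natDegree
        ≤ (d - 1) * 1 := Nat.mul_le_mul_left _ (h1 α)
      _ = d - 1 := by ring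
  have := h1 β
  omega

/-- **Key statement.**  Let `x` be a zero of the polynomials `G j`, of weighted degrees at most
`e j`, and let `F x ≠ 0`, `F` of weighted degree at most `d`, `2 ≤ d`, with
`∑ e j + d ≤ ∑ b i`, where `b i` is the weight of the variable `i`.  Then there are polynomials
`y i` with constant terms `x i`, of degrees at most `b i`, not all constant, such that
`G j (y) = 0` and `F (y) = F (x) (1 - α T) ^ (d - 1) (1 - β T)`; moreover the linear term of
`y ℓ` is zero for a given `ℓ`. -/
theorem exists_curve [IsAlgClosed K] [Fintype ι] {c : ℕ} (b : ι → ℕ) (e : Fin c → ℕ) (d : ℕ)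
    (hd : 2 ≤ d) (G : Fin c → MvPolynomial ι K) (F : MvPolynomial ι K)
    (hG : ∀ j, ∀ m ∈ (G j).support, ∑ i, b i * m i ≤ e j)
    (hF : ∀ m ∈ F.support, ∑ i, b i * m i ≤ d)
    (hdeg : ∑ j, e j + d ≤ ∑ i, b i) (x : ι → K) (hx : ∀ j, eval x (G j) = 0)
    (hFx : eval x F ≠ 0) (ℓ : ι) :
    ∃ (y : ι → Polynomial K) (α β : K), (∀ i, (y i).natDegree ≤ b i) ∧
      (∀ i, (y i).coeff 0 = x i) ∧ (y ℓ).coeff 1 = 0 ∧ (∀ j, aeval y (G j) = 0) ∧
      aeval y F = Polynomial.C (eval x F) * (1 - Polynomial.C α * Polynomial.X) ^ (d - 1) *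
        (1 - Polynomial.C β * Polynomial.X) ∧ ∃ i, y i ≠ Polynomial.C (x i) := by
  classical
  -- unknowns
  let τ := (Σ i : ι, Fin (b i)) ⊕ Fin 2
  let A : MvPolynomial τ K := X (Sum.inr 0)
  let B : MvPolynomial τ K := X (Sum.inr 1)
  let Q : Polynomial (MvPolynomial τ K) :=
    Polynomial.C (C (eval x F)) * (1 - Polynomial.C A * Polynomial.X) ^ (d - 1) *
      (1 - Polynomial.C B * Polynomial.X)
  let Y : ι → Polynomial (MvPolynomial τ K) := fun i =>
    Polynomial.C (C (x i)) + ∑ k : Fin (b i),
      Polynomial.C (X (Sum.inl ⟨i, k⟩)) * Polynomial.X ^ ((k : ℕ) + 1)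
  let y' : (τ → K) → ι → Polynomial K := fun s i =>
    Polynomial.C (x i) + ∑ k : Fin (b i),
      Polynomial.C (s (Sum.inl ⟨i, k⟩)) * Polynomial.X ^ ((k : ℕ) + 1)
  have hYy : ∀ s i, (Y i).map (eval s) = y' s i := by
    intro s i
    simp only [Y, y', Polynomial.map_add, Polynomial.map_C, eval_C, Polynomial.map_sum,
      Polynomial.map_mul, eval_X, Polynomial.map_pow, Polynomial.map_X]
  have hydeg : ∀ s i, (y' s i).natDegree ≤ b i := by
    intro s i
    refine (Polynomial.natDegree_add_le _ _).trans ?_
    simp only [Polynomial.natDegree_C, zero_le, sup_of_le_right]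
    apply Polynomial.natDegree_sum_le_of_forall_le
    intro k _
    refine (Polynomial.natDegree_C_mul_X_pow_le _ _).trans ?_
    exact k.2
  have hycoeff : ∀ s i (k : Fin (b i)), (y' s i).coeff ((k : ℕ) + 1) = s (Sum.inl ⟨i, k⟩) := by
    intro s i k
    simp only [y', Polynomial.coeff_add, Polynomial.coeff_C_succ, zero_add,
      Polynomial.finsetSum_coeff, Polynomial.coeff_C_mul_X_pow]
    rw [Finset.sum_eq_single k]
    · simp
    · intro j _ hj
      rw [if_neg]
      intro h
      exact hj (Fin.ext (by omega))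
    · simp
  have hy0 : ∀ s i, (y' s i).coeff 0 = x i := by
    intro s i
    simp only [y', Polynomial.coeff_add, Polynomial.coeff_C_zero, Polynomial.finsetSum_coeff,
      Polynomial.coeff_C_mul_X_pow]
    simp
  let H : ((Σ j : Fin c, Fin (e j)) ⊕ (Fin d ⊕ Unit)) → MvPolynomial τ K := fun s =>
    match s with
    | Sum.inl ⟨j, k⟩ => (aeval Y (G j)).coeff (k + 1)
    | Sum.inr (Sum.inl k) => (aeval Y F - Q).coeff (k + 1)
    | Sum.inr (Sum.inr _) => if h : 0 < b ℓ then X (Sum.inl ⟨ℓ, ⟨0, h⟩⟩) else 0
  have hcoefG : ∀ (j : Fin c) (k : ℕ) (s : τ → K), eval s ((aeval Y (G j)).coeff k) =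
      (aeval (y' s) (G j)).coeff k := by
    intro j k s
    rw [← Polynomial.coeff_map, map_aeval]
    simp only [hYy]
  have hcoefF : ∀ (k : ℕ) (s : τ → K), eval s ((aeval Y F - Q).coeff k) =
      (aeval (y' s) F - Polynomial.C (eval x F) *
        (1 - Polynomial.C (s (Sum.inr 0)) * Polynomial.X) ^ (d - 1) *
      (1 - Polynomial.C (s (Sum.inr 1)) * Polynomial.X)).coeff k := by
    intro k s
    rw [← Polynomial.coeff_map, Polynomial.map_sub, map_aeval]
    simp only [hYy]
    congr 1
    simp [Q, A, B, Polynomial.map_mul, Polynomial.map_pow]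
  have hy00 : y' 0 = fun i => Polynomial.C (x i) := by
    funext i
    simp [y']
  have haeval0 : ∀ P : MvPolynomial ι K, aeval (fun i => Polynomial.C (x i)) P =
      Polynomial.C (eval x P) := by
    intro P
    have h : (aeval (fun i => Polynomial.C (x i)) :
        MvPolynomial ι K →ₐ[K] Polynomial K).toRingHom =
        (Polynomial.C : K →+* Polynomial K).comp (eval x) := by
      apply MvPolynomial.ringHom_ext
      · intro r
        simp [Polynomial.algebraMap_apply]
      · intro i; simp
    exact DFunLike.congr_fun h P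
  have h0 : ∀ s, eval (0 : τ → K) (H s) = 0 := by
    rintro (⟨j, k⟩ | k | u)
    · show eval (0 : τ → K) ((aeval Y (G j)).coeff (k + 1)) = 0
      rw [hcoefG, hy00, haeval0]
      simp
    · show eval (0 : τ → K) ((aeval Y F - Q).coeff (k + 1)) = 0
      rw [hcoefF, hy00, haeval0]
      simp
    · show eval (0 : τ → K) (if h : 0 < b ℓ then X (Sum.inl ⟨ℓ, ⟨0, h⟩⟩) else 0) = 0
      split_ifs <;> simp
  have hcard : Nat.card ((Σ j : Fin c, Fin (e j)) ⊕ (Fin d ⊕ Unit)) < Nat.card τ := by
    simp [τ, Nat.card_eq_fintype_card]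
    omega
  obtain ⟨s, hs0, hs⟩ := exists_ne_zero_common_zero H h0 hcard
  have hGy : ∀ j, aeval (y' s) (G j) = 0 := by
    intro j
    ext k
    rw [Polynomial.coeff_zero]
    rcases Nat.eq_zero_or_pos k with rfl | hk
    · rw [Polynomial.coeff_zero_eq_eval_zero, eval_aeval]
      have h1 : (fun i => (y' s i).eval 0) = x := by
        funext i
        rw [← Polynomial.coeff_zero_eq_eval_zero, hy0]
      rw [h1]
      exact hx j
    · by_cases hke : k ≤ e j
      · have := hs (Sum.inl ⟨j, ⟨k - 1, by omega⟩⟩)
        have h3 : eval s ((aeval Y (G j)).coeff (k - 1 + 1)) = 0 := this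
        rw [hcoefG, Nat.sub_add_cancel hk] at h3
        exact h3
      · apply Polynomial.coeff_eq_zero_of_natDegree_lt
        exact lt_of_le_of_lt (natDegree_aeval_le b (y' s) (hydeg s) (G j) (hG j)) (by omega)
  have hFy : aeval (y' s) F = Polynomial.C (eval x F) *
      (1 - Polynomial.C (s (Sum.inr 0)) * Polynomial.X) ^ (d - 1) *
      (1 - Polynomial.C (s (Sum.inr 1)) * Polynomial.X) := by
    rw [← sub_eq_zero]
    ext k
    rw [Polynomial.coeff_zero]
    rcases Nat.eq_zero_or_pos k with rfl | hk
    · rw [Polynomial.coeff_zero_eq_eval_zero, Polynomial.eval_sub, eval_aeval]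
      have h1 : (fun i => (y' s i).eval 0) = x := by
        funext i
        rw [← Polynomial.coeff_zero_eq_eval_zero, hy0]
      rw [h1]
      simp
    · by_cases hke : k ≤ d
      · have := hs (Sum.inr (Sum.inl ⟨k - 1, by omega⟩))
        have h3 : eval s ((aeval Y F - Q).coeff (k - 1 + 1)) = 0 := this
        rw [hcoefF, Nat.sub_add_cancel hk] at h3
        exact h3
      · apply Polynomial.coeff_eq_zero_of_natDegree_lt
        refine lt_of_le_of_lt (Polynomial.natDegree_sub_le _ _) (max_lt ?_ ?_)
        · exact lt_of_le_of_lt (natDegree_aeval_le b (y' s) (hydeg s) F hF) (by omega)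
        · exact lt_of_le_of_lt (natDegree_boundary_le _ _ _ (by omega)) (by omega)
  refine ⟨y' s, s (Sum.inr 0), s (Sum.inr 1), hydeg s, hy0 s, ?_, hGy, hFy, ?_⟩
  · rcases Nat.eq_zero_or_pos (b ℓ) with hb | hb
    · apply Polynomial.coeff_eq_zero_of_natDegree_lt
      exact lt_of_le_of_lt (hydeg s ℓ) (by omega)
    · have := hs (Sum.inr (Sum.inr ()))
      have h3 : eval s (if h : 0 < b ℓ then X (Sum.inl ⟨ℓ, ⟨0, h⟩⟩) else 0 :
        MvPolynomial τ K) = 0 := this
      rw [dif_pos hb, eval_X] at h3
      have h4 := hycoeff s ℓ ⟨0, hb⟩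
      simp only [zero_add] at h4
      rw [h4]
      exact h3
  · by_contra hcon
    push Not at hcon
    have hy1 : y' s = fun i => Polynomial.C (x i) := funext hcon
    have h1 : ∀ t : K, (1 - s (Sum.inr 0) * t) ^ (d - 1) * (1 - s (Sum.inr 1) * t) = 1 := by
      intro t
      rw [hy1, haeval0] at hFy
      have h2 := congrArg (Polynomial.eval t) hFy
      simp only [Polynomial.eval_C, Polynomial.eval_mul, Polynomial.eval_pow,
        Polynomial.eval_sub, Polynomial.eval_one, Polynomial.eval_X] at h2
      have h3 : eval x F * ((1 - s (Sum.inr 0) * t) ^ (d - 1) * (1 - s (Sum.inr 1) * t)) =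
          eval x F * 1 := by
        rw [mul_one, ← mul_assoc]; exact h2.symm
      exact mul_left_cancel₀ hFx h3
    have ha0 : s (Sum.inr 0) = 0 := by
      by_contra hne
      have := h1 (s (Sum.inr 0))⁻¹
      rw [mul_inv_cancel₀ hne, sub_self, zero_pow (by omega), zero_mul] at this
      exact zero_ne_one this
    have hb0 : s (Sum.inr 1) = 0 := by
      by_contra hne
      have := h1 (s (Sum.inr 1))⁻¹
      rw [mul_inv_cancel₀ hne, sub_self, mul_zero] at this
      exact zero_ne_one this
    apply hs0
    funext u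
    rcases u with ⟨i, k⟩ | j
    · rw [← hycoeff s i k, hcon i]
      simp
    · fin_cases j
      · exact ha0
      · exact hb0

end Pool.Agent.H6.Toric
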