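import Mathlib
import Pool.Agent.H6.Toric.Curve

/-!
# Parametrisation by the multiplicative group
-/

set_option autoImplicit false

open Polynomial

namespace Pool.Agent.H6.Toric

/-- The homogenisation `∑ y_k σ^(b-k) τ^k` of the polynomial `y`, of degree at most `b`, at the
polynomials `σ` and `τ`. -/
noncomputable def hom (b : ℕ) (y σ τ : ℂ[X]) : ℂ[X] :=
  ∑ k ∈ Finset.range (b + 1), C (y.coeff k) * σ ^ (b - k) * τ ^ k

lemma natDegree_hom_le {b : ℕ} (y : ℂ[X]) {σ τ : ℂ[X]} (hσ : σ.natDegree ≤ 1)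
    (hτ : τ.natDegree ≤ 1) : (hom b y σ τ).natDegree ≤ b := by
  unfold hom
  apply natDegree_sum_le_of_forall_le
  intro k hk
  rw [Finset.mem_range] at hk
  refine natDegree_mul_le.trans ?_
  have h1 : (C (y.coeff k) * σ ^ (b - k)).natDegree ≤ b - k := by
    refine (natDegree_C_mul_le _ _).trans (natDegree_pow_le.trans ?_)
    calc (b - k) * σ.natDegree ≤ (b - k) * 1 := Nat.mul_le_mul_left _ hσ
      _ = b - k := by ring
  have h2 : (τ ^ k).natDegree ≤ k := by
    refine natDegree_pow_le.trans ?_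
    calc k * τ.natDegree ≤ k * 1 := Nat.mul_le_mul_left _ hτ
      _ = k := by ring
  omega

lemma eval_hom {b : ℕ} {y σ τ : ℂ[X]} (hy : y.natDegree ≤ b) {z : ℂ} (hσ : σ.eval z ≠ 0) :
    (hom b y σ τ).eval z = (σ.eval z) ^ b * y.eval (τ.eval z / σ.eval z) := by
  unfold hom
  rw [eval_finsetSum, eval_eq_sum_range' (Nat.lt_succ_of_le hy), Finset.mul_sum]
  apply Finset.sum_congr rfl
  intro k hk
  rw [Finset.mem_range] at hk
  simp only [eval_mul, eval_C, eval_pow]
  obtain ⟨l, rfl⟩ := Nat.exists_eq_add_of_le (Nat.lt_succ_iff.mp hk)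
  rw [Nat.add_sub_cancel_left, div_pow, pow_add]
  field_simp

/-- A complex polynomial without nonzero roots is a monomial. -/
lemma eq_C_mul_X_pow {p : ℂ[X]} (hp : ∀ z : ℂ, z ≠ 0 → p.eval z ≠ 0) :
    ∃ k, k ≤ p.natDegree ∧ p = C (p.eval 1) * X ^ k := by
  have hp0 : p ≠ 0 := by
    rintro rfl
    exact hp 1 one_ne_zero (by simp)
  obtain ⟨q, hq, hq0⟩ := exists_eq_pow_rootMultiplicity_mul_and_not_dvd p hp0 0
  rw [C_0, sub_zero] at hq hq0
  have hqd : q.natDegree = 0 := by
    by_contra hne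
    have h1 : q.degree ≠ 0 := by
      intro h
      exact hne (natDegree_eq_of_degree_eq_some h)
    obtain ⟨z, hz⟩ := IsAlgClosed.exists_root q h1
    by_cases hz0 : z = 0
    · subst hz0
      apply hq0
      rw [X_dvd_iff, coeff_zero_eq_eval_zero]
      exact hz
    · apply hp z hz0
      rw [hq, eval_mul, hz.eq_zero, mul_zero]
  obtain ⟨a, ha⟩ := natDegree_eq_zero.mp hqd
  refine ⟨p.rootMultiplicity 0, ?_, ?_⟩
  · conv_rhs => rw [hq]
    have hq1 : q ≠ 0 := by
      rintro rfl
      exact hq0 (dvd_zero _)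
    rw [natDegree_mul (pow_ne_zero _ X_ne_zero) hq1, natDegree_X_pow]
    omega
  · have h1 : p.eval 1 = a := by
      conv_lhs => rw [hq]
      rw [← ha]
      simp
    rw [h1]
    conv_lhs => rw [hq]
    rw [← ha, mul_comm]

/-- Two polynomials that agree outside a finite set are equal. -/
lemma eq_of_eval_eq {p q : ℂ[X]} (s : Finset ℂ) (h : ∀ z, z ∉ s → p.eval z = q.eval z) :
    p = q := by
  apply eq_of_infinite_eval_eq
  refine Set.Infinite.mono (s := (↑s : Set ℂ)ᶜ) ?_ ?_
  · intro z hz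
    exact h z (by simpa using hz)
  · exact s.finite_toSet.infinite_compl

lemma weight_eq {ι : Type*} [Fintype ι] {b : ι → ℕ} {P : MvPolynomial ι ℂ} {e : ℕ}
    (hP : MvPolynomial.IsWeightedHomogeneous b P e) {m : ι →₀ ℕ} (hm : m ∈ P.support) :
    ∑ i, b i * m i = e := by
  have := hP (MvPolynomial.mem_support_iff.mp hm)
  rw [← this, Finsupp.weight_apply, Finsupp.sum_fintype]
  · simp [mul_comm]
  · simp

lemma eval_weighted {ι : Type*} [Fintype ι] {b : ι → ℕ} {P : MvPolynomial ι ℂ} {e : ℕ}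
    (hP : MvPolynomial.IsWeightedHomogeneous b P e) (a : ℂ) (v : ι → ℂ) :
    MvPolynomial.eval (fun i => a ^ b i * v i) P = a ^ e * MvPolynomial.eval v P := by
  rw [MvPolynomial.eval_eq', MvPolynomial.eval_eq', Finset.mul_sum]
  apply Finset.sum_congr rfl
  intro m hm
  have : ∏ i, (a ^ b i * v i) ^ m i = a ^ e * ∏ i, v i ^ m i := by
    simp only [mul_pow, ← pow_mul]
    rw [Finset.prod_mul_distrib, Finset.prod_pow_eq_pow_sum, weight_eq hP hm]
  rw [this]
  ring

/-- `b` is indecomposable at the point `x` of the quotient of `ℂ^ι` by the diagonal group `T`: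
if `c i ≤ b i` are integers such that the one-parameter group `u ↦ (u ^ c i)` agrees with elements
of `T` on the nonzero coordinates of `x`, then `c` is `0` or `b` on these coordinates. -/
def Indecomposable {ι : Type*} (T : Subgroup (ι → ℂˣ)) (b : ι → ℕ) (x : ι → ℂ) : Prop :=
  ∀ c : ι → ℕ, (∀ i, x i ≠ 0 → c i ≤ b i) →
    (∀ u : ℂˣ, ∃ g ∈ T, ∀ i, x i ≠ 0 → (g i : ℂ) = (u : ℂ) ^ c i) →
    (∀ i, x i ≠ 0 → c i = 0) ∨ (∀ i, x i ≠ 0 → c i = b i)

/-- Through a zero `x` of the `G j` with `F x ≠ 0` passes a non-constant `G_m`, avoiding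
`F = 0`. -/
theorem exists_Gm {ι : Type*} [Fintype ι] {c : ℕ} (T : Subgroup (ι → ℂˣ)) (b : ι → ℕ)
    (e : Fin c → ℕ) (d : ℕ) (G : Fin c → MvPolynomial ι ℂ) (F : MvPolynomial ι ℂ)
    (hG : ∀ j, MvPolynomial.IsWeightedHomogeneous b (G j) (e j))
    (hF : MvPolynomial.IsWeightedHomogeneous b F d)
    (hdeg : ∑ j, e j + max d 2 ≤ ∑ i, b i) (x : ι → ℂ)
    (hx : ∀ j, MvPolynomial.eval x (G j) = 0) (hFx : MvPolynomial.eval x F ≠ 0)
    (hind : Indecomposable T b x) :
    ∃ p : ι → ℂ[X], (∀ i, (p i).natDegree ≤ b i) ∧ (∀ i, (p i).eval 1 = x i) ∧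
      (∀ j z, MvPolynomial.eval (fun i => (p i).eval z) (G j) = 0) ∧
      (∀ z, z ≠ 0 → MvPolynomial.eval (fun i => (p i).eval z) F ≠ 0) ∧
      ∃ z, z ≠ 0 ∧ ¬ ∃ g ∈ T, ∀ i, (p i).eval z = (g i : ℂ) * x i := by
  classical
  -- the normalised coordinate
  obtain ⟨ℓ, hℓ⟩ : ∃ ℓ : ι, (∃ i, x i ≠ 0 ∧ b i ≠ 0) → x ℓ ≠ 0 ∧ b ℓ ≠ 0 := by
    by_cases h : ∃ i, x i ≠ 0 ∧ b i ≠ 0
    · obtain ⟨i, hi⟩ := h
      exact ⟨i, fun _ => hi⟩
    · have hne : Nonempty ι := by
        by_contra hemp
        rw [not_nonempty_iff] at hemp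
        have h1 : ∑ i, b i = 0 := by simp
        have h2 : 2 ≤ max d 2 := le_max_right _ _
        omega
      exact ⟨hne.some, fun h1 => absurd h1 h⟩
  set d' := max d 2 with hd'
  have hdd' : d ≤ d' := le_max_left _ _
  have h2d' : 2 ≤ d' := le_max_right _ _
  obtain ⟨y, α, β, hydeg, hy0, hyℓ, hyG, hyF, hyne⟩ := exists_curve b e d' h2d' G F
    (fun j m hm => (weight_eq (hG j) hm).le) (fun m hm => (weight_eq hF hm).le.trans hdd') hdeg
    x hx hFx ℓ
  -- the scaling constant and the linear forms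
  obtain ⟨κ, γ', hκ, hκt, hγ'⟩ : ∃ κ γ' : ℂ, κ ≠ 0 ∧
      (∀ z : ℂ, 1 + (β - α) * κ * (z - 1) = 0 → z = 0) ∧
      (∀ z : ℂ, 1 + β * κ * (z - 1) - γ' * (κ * (z - 1)) = z) := by
    by_cases hab : α = β
    · refine ⟨1, β - 1, one_ne_zero, ?_, ?_⟩
      · intro z hz
        rw [hab] at hz
        simp at hz
      · intro z
        ring
    · have hba : β - α ≠ 0 := sub_ne_zero.mpr (Ne.symm hab)
      refine ⟨(β - α)⁻¹, α, inv_ne_zero hba, ?_, ?_⟩
      · intro z hz
        rw [mul_inv_cancel₀ hba, one_mul] at hz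
        linear_combination hz
      · intro z
        field_simp
        ring
  set σ : ℂ[X] := 1 + C (β * κ) * (X - 1) with hσ
  set τ : ℂ[X] := C κ * (X - 1) with hτ
  have hσe : ∀ z, σ.eval z = 1 + β * κ * (z - 1) := by
    intro z
    simp [hσ]
  have hτe : ∀ z, τ.eval z = κ * (z - 1) := by
    intro z
    simp [hτ]
  have hX1 : (X - 1 : ℂ[X]).natDegree ≤ 1 := by
    refine (natDegree_sub_le _ _).trans ?_
    simp
  have hσd : σ.natDegree ≤ 1 := by
    refine (natDegree_add_le _ _).trans ?_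
    simp only [natDegree_one, zero_le, sup_of_le_right]
    exact (natDegree_C_mul_le _ _).trans hX1
  have hτd : τ.natDegree ≤ 1 := (natDegree_C_mul_le _ _).trans hX1
  have hσ0 : σ ≠ 0 := by
    intro h
    have := hσe 1
    rw [h] at this
    simp at this
  -- outside a finite set `σ` does not vanish
  set R : Finset ℂ := σ.roots.toFinset with hR
  have hRσ : ∀ z, z ∉ R → σ.eval z ≠ 0 := by
    intro z hz h
    apply hz
    rw [hR, Multiset.mem_toFinset, mem_roots hσ0]
    exact h
  set p : ι → ℂ[X] := fun i => hom (b i) (y i) σ τ with hp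
  have hpe : ∀ i z, σ.eval z ≠ 0 →
      (p i).eval z = (σ.eval z) ^ b i * (y i).eval (τ.eval z / σ.eval z) :=
    fun i z hz => eval_hom (hydeg i) hz
  have hpoly : ∀ P : MvPolynomial ι ℂ, ∀ z, MvPolynomial.eval (fun i => (p i).eval z) P =
      (MvPolynomial.aeval p P).eval z := fun P z => (eval_aeval p P z).symm
  have hGp : ∀ j, MvPolynomial.aeval p (G j) = 0 := by
    intro j
    apply eq_of_eval_eq R
    intro z hz
    rw [← hpoly]
    have h1 : (fun i => (p i).eval z) =
        fun i => (σ.eval z) ^ b i * (y i).eval (τ.eval z / σ.eval z) :=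
      funext fun i => hpe i z (hRσ z hz)
    rw [h1, eval_weighted (hG j), ← eval_aeval, hyG]
    simp
  have hFp : MvPolynomial.aeval p F * σ ^ (d' - d) = C (MvPolynomial.eval x F) *
      (σ - C α * τ) ^ (d' - 1) * (σ - C β * τ) := by
    apply eq_of_eval_eq R
    intro z hz
    have hσz := hRσ z hz
    have h1 : (fun i => (p i).eval z) =
        fun i => (σ.eval z) ^ b i * (y i).eval (τ.eval z / σ.eval z) :=
      funext fun i => hpe i z hσz
    rw [eval_mul, ← hpoly, h1, eval_weighted hF, ← eval_aeval, hyF]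
    simp only [eval_mul, eval_C, eval_pow, eval_sub, eval_one, eval_X]
    have h2 : σ.eval z ^ d * σ.eval z ^ (d' - d) = σ.eval z ^ (d' - 1) * σ.eval z := by
      rw [← pow_add, ← pow_succ]
      congr 1
      omega
    have h3 : σ.eval z - α * τ.eval z = σ.eval z * (1 - α * (τ.eval z / σ.eval z)) := by
      field_simp
    have h4 : σ.eval z - β * τ.eval z = σ.eval z * (1 - β * (τ.eval z / σ.eval z)) := by
      field_simp
    rw [h3, h4, mul_pow]
    linear_combination (MvPolynomial.eval x F * (1 - α * (τ.eval z / σ.eval z)) ^ (d' - 1) *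
      (1 - β * (τ.eval z / σ.eval z))) * h2
  have hτ1 : τ.eval 1 = 0 := by rw [hτe]; ring
  have hσ1 : σ.eval 1 = 1 := by rw [hσe]; ring
  have hp1 : ∀ i, (p i).eval 1 = x i := by
    intro i
    rw [hpe i 1 (by rw [hσ1]; exact one_ne_zero), hτ1, hσ1, one_pow, zero_div, one_mul,
      ← coeff_zero_eq_eval_zero, hy0]
  have hpdeg : ∀ i, (p i).natDegree ≤ b i := fun i => natDegree_hom_le _ hσd hτd
  refine ⟨p, hpdeg, hp1, ?_, ?_, ?_⟩
  · intro j z
    rw [hpoly, hGp, eval_zero]
  · intro z hz h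
    have h1 := congrArg (Polynomial.eval z) hFp
    rw [eval_mul, ← hpoly, h, zero_mul] at h1
    simp only [eval_mul, eval_C, eval_pow, eval_sub, hσe, hτe] at h1
    have h2 : 1 + β * κ * (z - 1) - β * (κ * (z - 1)) = 1 := by ring
    have h3 : 1 + β * κ * (z - 1) - α * (κ * (z - 1)) = 1 + (β - α) * κ * (z - 1) := by ring
    rw [h2, h3, mul_one] at h1
    rcases mul_eq_zero.mp h1.symm with h4 | h4
    · exact hFx h4
    · exact hz (hκt z (pow_eq_zero_iff (by omega) |>.mp h4))
  · -- non-constancy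
    by_contra hcon
    push Not at hcon
    -- the coordinates are monomials
    have hmon : ∀ i, ∃ k, (x i ≠ 0 → k ≤ b i) ∧ p i = C (x i) * X ^ k := by
      intro i
      by_cases hxi : x i = 0
      · refine ⟨0, fun h => absurd hxi h, ?_⟩
        rw [hxi, C_0, zero_mul]
        apply eq_of_eval_eq {0}
        intro z hz
        obtain ⟨g, -, hg⟩ := hcon z (by simpa using hz)
        rw [hg i, hxi, mul_zero, eval_zero]
      · obtain ⟨k, hk, hk2⟩ := eq_C_mul_X_pow (p := p i) (by
          intro z hz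
          obtain ⟨g, -, hg⟩ := hcon z hz
          rw [hg i]
          exact mul_ne_zero (g i).ne_zero hxi)
        rw [hp1] at hk2
        exact ⟨k, fun _ => hk.trans (hpdeg i), hk2⟩
    choose k hkb hpk using hmon
    have hcases := hind k hkb (by
      intro u
      obtain ⟨g, hgT, hg⟩ := hcon u u.ne_zero
      refine ⟨g, hgT, fun i hxi => ?_⟩
      have h1 := hg i
      rw [hpk, eval_mul, eval_C, eval_pow, eval_X, mul_comm] at h1
      exact (mul_right_cancel₀ hxi h1).symm)
    -- the curve is `x_i (1 - γ T) ^ b i`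
    obtain ⟨L, γ, hL, hLγ⟩ : ∃ (L : ℂ → ℂ) (γ : ℂ), (∀ i z, (p i).eval z = x i * L z ^ b i) ∧
        ∀ z, σ.eval z - γ * τ.eval z = L z := by
      rcases hcases with h | h
      · refine ⟨fun _ => 1, β, ?_, ?_⟩
        · intro i z
          rw [hpk]
          by_cases hxi : x i = 0
          · simp [hxi]
          · simp [h i hxi]
        · intro z
          rw [hσe, hτe]
          ring
      · refine ⟨fun z => z, γ', ?_, ?_⟩
        · intro i z
          rw [hpk]
          by_cases hxi : x i = 0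
          · simp [hxi]
          · simp [h i hxi]
        · intro z
          rw [hσe, hτe]
          exact hγ' z
    have hyγ : ∀ i, y i = C (x i) * (1 - C γ * X) ^ b i := by
      intro i
      have hinf : Set.Infinite ((fun z => τ.eval z / σ.eval z) '' {z | σ.eval z ≠ 0}) := by
        apply Set.Infinite.image
        · intro z hz w hw hzw
          simp only at hzw
          rw [div_eq_div_iff hz hw, hσe, hσe, hτe, hτe] at hzw
          have h1 : κ * (z - w) = 0 := by linear_combination hzw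
          rcases mul_eq_zero.mp h1 with h2 | h2
          · exact absurd h2 hκ
          · exact sub_eq_zero.mp h2
        · refine Set.Infinite.mono (s := (↑R : Set ℂ)ᶜ) ?_ R.finite_toSet.infinite_compl
          intro z hz
          exact hRσ z (by simpa using hz)
      apply eq_of_infinite_eval_eq
      refine hinf.mono ?_
      rintro _ ⟨z, hz, rfl⟩
      have hz' : σ.eval z ≠ 0 := hz
      show (y i).eval (τ.eval z / σ.eval z) = _
      have h1 := hpe i z hz'
      rw [hL] at h1
      simp only [eval_mul, eval_C, eval_pow, eval_sub, eval_one, eval_X]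
      have h2 : L z = σ.eval z * (1 - γ * (τ.eval z / σ.eval z)) := by
        rw [← hLγ]
        field_simp
      rw [h2, mul_pow] at h1
      have h3 := pow_ne_zero (b i) hz'
      apply mul_left_cancel₀ h3
      linear_combination -h1
    have hγ0 : (∃ i, x i ≠ 0 ∧ b i ≠ 0) → γ = 0 := by
      intro h
      obtain ⟨h1, h2⟩ := hℓ h
      rw [hyγ] at hyℓ
      have h3 : ((C (x ℓ) * (1 - C γ * X) ^ b ℓ : ℂ[X])).coeff 1 = -(x ℓ * b ℓ * γ) := by
        have h4 : ((C (x ℓ) * (1 - C γ * X) ^ b ℓ : ℂ[X])).coeff 1 =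
            (derivative (C (x ℓ) * (1 - C γ * X) ^ b ℓ : ℂ[X])).eval 0 := by
          rw [← coeff_zero_eq_eval_zero, coeff_derivative]
          simp
        rw [h4]
        simp [derivative_pow]
        ring
      rw [h3, neg_eq_zero] at hyℓ
      rcases mul_eq_zero.mp hyℓ with h5 | h5
      · rcases mul_eq_zero.mp h5 with h6 | h6
        · exact absurd h6 h1
        · exact absurd (Nat.cast_eq_zero.mp h6) h2
      · exact h5
    obtain ⟨i, hi⟩ := hyne
    apply hi
    rw [hyγ i]
    by_cases h : ∃ i, x i ≠ 0 ∧ b i ≠ 0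
    · rw [hγ0 h]
      simp
    · push Not at h
      by_cases hxi : x i = 0
      · simp [hxi]
      · simp [h i hxi]

end Pool.Agent.H6.Toric
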