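import Mathlib
import Pool.Agent.H6.Toric.Param

/-!
# The reflection case

Curves on which one coordinate `x_w`, which enters the equations only through `x_w ^ 2`, is the
square root of a polynomial `x_w ^ 2 q ^ 2 (1 - α T) (1 - β T)`, and the boundary polynomial is
`F (x) (1 - γ T) ^ d`.
-/

set_option autoImplicit false

namespace Pool.Agent.H6.Toric

open MvPolynomial

variable {K : Type*} [Field K] {ι : Type*}

lemma natDegree_one_sub_le (z : K) : (1 - Polynomial.C z * Polynomial.X).natDegree ≤ 1 := by
  refine (Polynomial.natDegree_sub_le _ _).trans ?_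
  simp only [Polynomial.natDegree_one, zero_le, sup_of_le_right]
  refine (Polynomial.natDegree_C_mul_le _ _).trans ?_
  exact Polynomial.natDegree_X_le

lemma natDegree_one_sub_pow_le (z : K) (d : ℕ) :
    ((1 - Polynomial.C z * Polynomial.X) ^ d).natDegree ≤ d := by
  refine Polynomial.natDegree_pow_le.trans ?_
  calc d * (1 - Polynomial.C z * Polynomial.X : Polynomial K).natDegree
      ≤ d * 1 := Nat.mul_le_mul_left _ (natDegree_one_sub_le z)
    _ = d := by ring

/-- **Key statement, reflection case.**  The variable `w` stands for `x_w ^ 2`, its weight is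
`2 b w`, `b w ≥ 1`, and the other weights are `b i`. -/
theorem exists_curve_reflection [IsAlgClosed K] [Fintype ι] [DecidableEq ι] {c : ℕ} (w : ι)
    (b : ι → ℕ) (hbw : 1 ≤ b w) (e : Fin c → ℕ) (d : ℕ) (hd : 1 ≤ d)
    (G : Fin c → MvPolynomial ι K) (F : MvPolynomial ι K)
    (hG : ∀ j, ∀ m ∈ (G j).support, ∑ i, (if i = w then 2 * b w else b i) * m i ≤ e j)
    (hF : ∀ m ∈ F.support, ∑ i, (if i = w then 2 * b w else b i) * m i ≤ d)
    (hdeg : ∑ j, e j + d ≤ ∑ i, b i) (x : ι → K)
    (hx : ∀ j, eval (fun i => if i = w then x w ^ 2 else x i) (G j) = 0)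
    (hFx : eval (fun i => if i = w then x w ^ 2 else x i) F ≠ 0) :
    ∃ (y : ι → Polynomial K) (q : Polynomial K) (α β γ : K),
      (∀ i, i ≠ w → (y i).natDegree ≤ b i) ∧ (∀ i, i ≠ w → (y i).coeff 0 = x i) ∧
      q.natDegree ≤ b w - 1 ∧ q.coeff 0 = 1 ∧
      y w = Polynomial.C (x w ^ 2) * q ^ 2 * ((1 - Polynomial.C α * Polynomial.X) *
        (1 - Polynomial.C β * Polynomial.X)) ∧
      (y w).coeff 1 = 0 ∧ (∀ j, aeval y (G j) = 0) ∧
      aeval y F = Polynomial.C (eval (fun i => if i = w then x w ^ 2 else x i) F) *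
        (1 - Polynomial.C γ * Polynomial.X) ^ d ∧
      ((∃ i, i ≠ w ∧ y i ≠ Polynomial.C (x i)) ∨ q ≠ 1 ∨ α ≠ 0 ∨ β ≠ 0) := by
  classical
  -- unknowns
  let b' : ι → ℕ := fun i => if i = w then b w - 1 else b i
  let b2 : ι → ℕ := fun i => if i = w then 2 * b w else b i
  let x2 : ι → K := fun i => if i = w then x w ^ 2 else x i
  let τ := (Σ i : ι, Fin (b' i)) ⊕ Fin 3
  let A : MvPolynomial τ K := X (Sum.inr 0)
  let B : MvPolynomial τ K := X (Sum.inr 1)
  let D : MvPolynomial τ K := X (Sum.inr 2)
  let Q : Polynomial (MvPolynomial τ K) :=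
    Polynomial.C (C (eval x2 F)) * (1 - Polynomial.C D * Polynomial.X) ^ d
  -- the generic polynomial with constant term `z` and the unknown coefficients of index `i`
  let V : ι → K → Polynomial (MvPolynomial τ K) := fun i z =>
    Polynomial.C (C z) + ∑ k : Fin (b' i),
      Polynomial.C (X (Sum.inl ⟨i, k⟩)) * Polynomial.X ^ ((k : ℕ) + 1)
  let v : (τ → K) → ι → K → Polynomial K := fun s i z =>
    Polynomial.C z + ∑ k : Fin (b' i),
      Polynomial.C (s (Sum.inl ⟨i, k⟩)) * Polynomial.X ^ ((k : ℕ) + 1)
  have hVv : ∀ s i z, (V i z).map (eval s) = v s i z := by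
    intro s i z
    simp only [V, v, Polynomial.map_add, Polynomial.map_C, eval_C, Polynomial.map_sum,
      Polynomial.map_mul, eval_X, Polynomial.map_pow, Polynomial.map_X]
  have hvdeg : ∀ s i z, (v s i z).natDegree ≤ b' i := by
    intro s i z
    refine (Polynomial.natDegree_add_le _ _).trans ?_
    simp only [Polynomial.natDegree_C, zero_le, sup_of_le_right]
    apply Polynomial.natDegree_sum_le_of_forall_le
    intro k _
    refine (Polynomial.natDegree_C_mul_X_pow_le _ _).trans ?_
    exact k.2
  have hvcoeff : ∀ s i z (k : Fin (b' i)),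
      (v s i z).coeff ((k : ℕ) + 1) = s (Sum.inl ⟨i, k⟩) := by
    intro s i z k
    simp only [v, Polynomial.coeff_add, Polynomial.coeff_C_succ, zero_add,
      Polynomial.finsetSum_coeff, Polynomial.coeff_C_mul_X_pow]
    rw [Finset.sum_eq_single k]
    · simp
    · intro j _ hj
      rw [if_neg]
      intro h
      exact hj (Fin.ext (by omega))
    · simp
  have hv0 : ∀ s i z, (v s i z).coeff 0 = z := by
    intro s i z
    simp only [v, Polynomial.coeff_add, Polynomial.coeff_C_zero, Polynomial.finsetSum_coeff,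
      Polynomial.coeff_C_mul_X_pow]
    simp
  have hvz : ∀ i z, v 0 i z = Polynomial.C z := by
    intro i z
    simp [v]
  let Y : ι → Polynomial (MvPolynomial τ K) := fun i =>
    if i = w then Polynomial.C (C (x w ^ 2)) * (V w 1) ^ 2 * ((1 - Polynomial.C A * Polynomial.X) *
      (1 - Polynomial.C B * Polynomial.X)) else V i (x i)
  let y' : (τ → K) → ι → Polynomial K := fun s i =>
    if i = w then Polynomial.C (x w ^ 2) * (v s w 1) ^ 2 *
      ((1 - Polynomial.C (s (Sum.inr 0)) * Polynomial.X) *
      (1 - Polynomial.C (s (Sum.inr 1)) * Polynomial.X)) else v s i (x i)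
  have hYy : ∀ s i, (Y i).map (eval s) = y' s i := by
    intro s i
    simp only [Y, y']
    split_ifs with h
    · rw [← hVv]
      simp [A, B, Polynomial.map_mul, Polynomial.map_pow]
    · exact hVv s i _
  have hydeg : ∀ s i, (y' s i).natDegree ≤ b2 i := by
    intro s i
    by_cases h : i = w
    · subst h
      simp only [y', b2, if_true]
      have h1 := hvdeg s i 1
      have h2 : ((v s i 1) ^ 2).natDegree ≤ 2 * (b i - 1) := by
        refine Polynomial.natDegree_pow_le.trans ?_
        refine Nat.mul_le_mul_left _ (h1.trans ?_)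
        simp [b']
      have h3 : (Polynomial.C (x i ^ 2) * (v s i 1) ^ 2).natDegree ≤ 2 * (b i - 1) :=
        (Polynomial.natDegree_C_mul_le _ _).trans h2
      have h4 := natDegree_one_sub_le (s (Sum.inr 0))
      have h5 := natDegree_one_sub_le (s (Sum.inr 1))
      have h6 : ((1 - Polynomial.C (s (Sum.inr 0)) * Polynomial.X) *
        (1 - Polynomial.C (s (Sum.inr 1)) * Polynomial.X)).natDegree ≤ 2 :=
        Polynomial.natDegree_mul_le.trans (by omega)
      refine Polynomial.natDegree_mul_le.trans ?_
      omega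
    · simp only [y', b2, if_neg h]
      refine (hvdeg s i _).trans ?_
      simp [b', h]
  have hy0 : ∀ s i, (y' s i).coeff 0 = x2 i := by
    intro s i
    by_cases h : i = w
    · subst h
      simp only [y', x2, if_true]
      have h1 := hv0 s i 1
      rw [Polynomial.coeff_zero_eq_eval_zero] at h1 ⊢
      simp [h1]
    · simp only [y', x2, if_neg h]
      exact hv0 s i _
  let H : ((Σ j : Fin c, Fin (e j)) ⊕ (Fin d ⊕ Unit)) → MvPolynomial τ K := fun s =>
    match s with
    | Sum.inl ⟨j, k⟩ => (aeval Y (G j)).coeff (k + 1)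
    | Sum.inr (Sum.inl k) => (aeval Y F - Q).coeff (k + 1)
    | Sum.inr (Sum.inr _) => (Y w).coeff 1
  have hcoefG : ∀ (j : Fin c) (k : ℕ) (s : τ → K), eval s ((aeval Y (G j)).coeff k) =
      (aeval (y' s) (G j)).coeff k := by
    intro j k s
    rw [← Polynomial.coeff_map, map_aeval]
    simp only [hYy]
  have hcoefF : ∀ (k : ℕ) (s : τ → K), eval s ((aeval Y F - Q).coeff k) =
      (aeval (y' s) F - Polynomial.C (eval x2 F) *
        (1 - Polynomial.C (s (Sum.inr 2)) * Polynomial.X) ^ d).coeff k := by
    intro k s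
    rw [← Polynomial.coeff_map, Polynomial.map_sub, map_aeval]
    simp only [hYy]
    congr 1
    simp [Q, D, Polynomial.map_mul, Polynomial.map_pow]
  have hcoefY : ∀ (k : ℕ) (s : τ → K), eval s ((Y w).coeff k) = (y' s w).coeff k := by
    intro k s
    rw [← Polynomial.coeff_map, hYy]
  have hy00 : y' 0 = fun i => Polynomial.C (x2 i) := by
    funext i
    by_cases h : i = w
    · subst h
      simp [y', x2, hvz]
    · simp only [y', x2, if_neg h]
      exact hvz i _
  have haeval0 : ∀ P : MvPolynomial ι K, aeval (fun i => Polynomial.C (x2 i)) P =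
      Polynomial.C (eval x2 P) := by
    intro P
    have h : (aeval (fun i => Polynomial.C (x2 i)) :
        MvPolynomial ι K →ₐ[K] Polynomial K).toRingHom =
        (Polynomial.C : K →+* Polynomial K).comp (eval x2) := by
      apply MvPolynomial.ringHom_ext
      · intro r
        simp
      · intro i; simp
    exact DFunLike.congr_fun h P
  have h0 : ∀ s, eval (0 : τ → K) (H s) = 0 := by
    rintro (⟨j, k⟩ | k | u)
    · show eval (0 : τ → K) ((aeval Y (G j)).coeff (k + 1)) = 0
      rw [hcoefG, hy00, haeval0]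
      simp
    · show eval (0 : τ → K) ((aeval Y F - Q).coeff (k + 1)) = 0
      rw [hcoefF, hy00, haeval0]
      simp
    · show eval (0 : τ → K) ((Y w).coeff 1) = 0
      rw [hcoefY, hy00]
      exact Polynomial.coeff_C_succ
  have hsum : ∑ i, b i = ∑ i, b' i + 1 := by
    have h1 : ∀ i, b i = b' i + (if i = w then 1 else 0) := by
      intro i
      by_cases h : i = w
      · subst h
        simp only [b', if_true]
        omega
      · simp [b', h]
    rw [Finset.sum_congr rfl fun i _ => h1 i, Finset.sum_add_distrib]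
    simp
  have hcard : Nat.card ((Σ j : Fin c, Fin (e j)) ⊕ (Fin d ⊕ Unit)) < Nat.card τ := by
    have h1 : Nat.card τ = ∑ i, b' i + 3 := by
      simp [τ, Nat.card_eq_fintype_card]
    have h2 : Nat.card ((Σ j : Fin c, Fin (e j)) ⊕ (Fin d ⊕ Unit)) = ∑ j, e j + (d + 1) := by
      simp [Nat.card_eq_fintype_card]
    omega
  obtain ⟨s, hs0, hs⟩ := exists_ne_zero_common_zero H h0 hcard
  have heval0 : (fun i => (y' s i).eval 0) = x2 := by
    funext i
    rw [← Polynomial.coeff_zero_eq_eval_zero, hy0]
  have hGy : ∀ j, aeval (y' s) (G j) = 0 := by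
    intro j
    ext k
    rw [Polynomial.coeff_zero]
    rcases Nat.eq_zero_or_pos k with rfl | hk
    · rw [Polynomial.coeff_zero_eq_eval_zero, eval_aeval, heval0]
      exact hx j
    · by_cases hke : k ≤ e j
      · have := hs (Sum.inl ⟨j, ⟨k - 1, by omega⟩⟩)
        have h3 : eval s ((aeval Y (G j)).coeff (k - 1 + 1)) = 0 := this
        rw [hcoefG, Nat.sub_add_cancel hk] at h3
        exact h3
      · apply Polynomial.coeff_eq_zero_of_natDegree_lt
        exact lt_of_le_of_lt (natDegree_aeval_le b2 (y' s) (hydeg s) (G j) (hG j)) (by omega)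
  have hFy : aeval (y' s) F = Polynomial.C (eval x2 F) *
      (1 - Polynomial.C (s (Sum.inr 2)) * Polynomial.X) ^ d := by
    rw [← sub_eq_zero]
    ext k
    rw [Polynomial.coeff_zero]
    rcases Nat.eq_zero_or_pos k with rfl | hk
    · rw [Polynomial.coeff_zero_eq_eval_zero, Polynomial.eval_sub, eval_aeval, heval0]
      simp
    · by_cases hke : k ≤ d
      · have := hs (Sum.inr (Sum.inl ⟨k - 1, by omega⟩))
        have h3 : eval s ((aeval Y F - Q).coeff (k - 1 + 1)) = 0 := this
        rw [hcoefF, Nat.sub_add_cancel hk] at h3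
        exact h3
      · apply Polynomial.coeff_eq_zero_of_natDegree_lt
        refine lt_of_le_of_lt (Polynomial.natDegree_sub_le _ _) (max_lt ?_ ?_)
        · exact lt_of_le_of_lt (natDegree_aeval_le b2 (y' s) (hydeg s) F hF) (by omega)
        · refine lt_of_le_of_lt ((Polynomial.natDegree_C_mul_le _ _).trans
            (natDegree_one_sub_pow_le _ _)) (by omega)
  have hyw : y' s w = Polynomial.C (x w ^ 2) * (v s w 1) ^ 2 *
      ((1 - Polynomial.C (s (Sum.inr 0)) * Polynomial.X) *
      (1 - Polynomial.C (s (Sum.inr 1)) * Polynomial.X)) := by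
    simp only [y', if_true]
  have hyi : ∀ i, i ≠ w → y' s i = v s i (x i) := by
    intro i hi
    simp only [y', if_neg hi]
  refine ⟨y' s, v s w 1, s (Sum.inr 0), s (Sum.inr 1), s (Sum.inr 2), ?_, ?_, ?_, hv0 s w 1,
    hyw, ?_, hGy, hFy, ?_⟩
  · intro i hi
    rw [hyi i hi]
    refine (hvdeg s i _).trans ?_
    simp [b', hi]
  · intro i hi
    rw [hyi i hi]
    exact hv0 s i _
  · refine (hvdeg s w _).trans ?_
    simp [b']
  · have := hs (Sum.inr (Sum.inr ()))
    have h3 : eval s ((Y w).coeff 1) = 0 := this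
    rw [hcoefY] at h3
    exact h3
  · by_contra hcon
    push Not at hcon
    obtain ⟨hc1, hc2, hc3, hc4⟩ := hcon
    have hy1 : y' s = fun i => Polynomial.C (x2 i) := by
      funext i
      by_cases h : i = w
      · subst h
        rw [hyw, hc2, hc3, hc4]
        simp [x2]
      · rw [hc1 i h]
        simp [x2, h]
    have hγ : s (Sum.inr 2) = 0 := by
      rw [hy1, haeval0] at hFy
      by_contra hne
      have h2 := congrArg (Polynomial.eval (s (Sum.inr 2))⁻¹) hFy
      simp only [Polynomial.eval_C, Polynomial.eval_mul, Polynomial.eval_pow,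
        Polynomial.eval_sub, Polynomial.eval_one, Polynomial.eval_X] at h2
      rw [mul_inv_cancel₀ hne, sub_self, zero_pow (by omega), mul_zero] at h2
      exact hFx h2
    apply hs0
    funext u
    rcases u with ⟨i, k⟩ | j
    · rw [← hvcoeff s i (if i = w then 1 else x i) k]
      by_cases h : i = w
      · subst h
        rw [if_pos rfl, hc2]
        simp [Polynomial.coeff_one]
      · rw [if_neg h, ← hyi i h, hc1 i h]
        simp
    · fin_cases j
      · exact hc3
      · exact hc4
      · exact hγ

end Pool.Agent.H6.Toric
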