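import Mathlib
import Pool.Agent.H6.Toric.CurveB

/-!
# Parametrisation by the multiplicative group, reflection case
-/

set_option autoImplicit false

open Polynomial

namespace Pool.Agent.H6.Toric

/-- The coordinate `w` is squared. -/
def sq {ι : Type*} [DecidableEq ι] (w : ι) (x : ι → ℂ) : ι → ℂ :=
  fun i => if i = w then x w ^ 2 else x i

/-- A parametrisation of the conic `ρ ^ 2 = (σ - α τ) (σ - β τ)` in which `σ - γ τ` has no zero
outside `0`. -/
lemma exists_conic (α β γ : ℂ) (h : α ≠ β) :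
    ∃ (σ τ ρ : ℂ[X]) (z₀ : ℂ), z₀ ≠ 0 ∧ ρ.eval z₀ = 0 ∧
      (∀ z, ρ.eval z ^ 2 = (σ.eval z - α * τ.eval z) * (σ.eval z - β * τ.eval z)) ∧
      σ.eval 1 = 1 ∧ τ.eval 1 = 0 ∧ ρ.eval 1 = 1 ∧
      ∀ z, z ≠ 0 → σ.eval z - γ * τ.eval z ≠ 0 := by
  have hab : α - β ≠ 0 := sub_ne_zero.mpr h
  have hba : β - α ≠ 0 := sub_ne_zero.mpr h.symm
  have key : ∀ (α β : ℂ), β - α ≠ 0 → ∃ (σ τ ρ : ℂ[X]) (z₀ : ℂ), z₀ ≠ 0 ∧ ρ.eval z₀ = 0 ∧
      (∀ z, ρ.eval z ^ 2 = (σ.eval z - α * τ.eval z) * (σ.eval z - β * τ.eval z)) ∧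
      σ.eval 1 = 1 ∧ τ.eval 1 = 0 ∧ ρ.eval 1 = 1 ∧
      ∀ z, z ≠ 0 → σ.eval z - α * τ.eval z ≠ 0 := by
    intro α β hba
    refine ⟨1 + C (α * (β - α)⁻¹) * (1 - (2 * X - 1) ^ 2), C (β - α)⁻¹ * (1 - (2 * X - 1) ^ 2),
      2 * X - 1, 1 / 2, by norm_num, by simp, ?_, ?_, ?_, ?_, ?_⟩
    · intro z
      simp only [eval_sub, eval_mul, eval_ofNat, eval_X, eval_one, eval_add, eval_C, eval_pow]
      field_simp
      ring
    · simp; norm_num
    · simp; norm_num
    · simp; norm_num
    · intro z _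
      simp only [eval_sub, eval_mul, eval_ofNat, eval_X, eval_one, eval_add, eval_C, eval_pow]
      have : 1 + α * (β - α)⁻¹ * (1 - (2 * z - 1) ^ 2) -
          α * ((β - α)⁻¹ * (1 - (2 * z - 1) ^ 2)) = 1 := by ring
      rw [this]
      exact one_ne_zero
  by_cases hγα : γ = α
  · subst hγα
    exact key γ β hba
  by_cases hγβ : γ = β
  · subst hγβ
    obtain ⟨σ, τ, ρ, z₀, h1, h2, h3, h4, h5, h6, h7⟩ := key γ α hab
    refine ⟨σ, τ, ρ, z₀, h1, h2, ?_, h4, h5, h6, h7⟩
    intro z
    rw [h3, mul_comm]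
  obtain ⟨a, ha⟩ := IsAlgClosed.exists_pow_nat_eq ((γ - β) / (α - β)) (n := 2) (by norm_num)
  obtain ⟨b, hb⟩ := IsAlgClosed.exists_pow_nat_eq ((γ - α) / (α - β)) (n := 2) (by norm_num)
  have ha0 : a ≠ 0 := by
    rintro rfl
    have h1 : (γ - β) / (α - β) = 0 := by rw [← ha]; norm_num
    rcases div_eq_zero_iff.mp h1 with h2 | h2
    · exact hγβ (sub_eq_zero.mp h2)
    · exact hab h2
  have hb0 : b ≠ 0 := by
    rintro rfl
    have h1 : (γ - α) / (α - β) = 0 := by rw [← hb]; norm_num
    rcases div_eq_zero_iff.mp h1 with h2 | h2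
    · exact hγα (sub_eq_zero.mp h2)
    · exact hab h2
  have h1 : (a - b) * (a + b) = 1 := by
    have : (a - b) * (a + b) = a ^ 2 - b ^ 2 := by ring
    rw [this, ha, hb]
    field_simp
    ring
  have hamb : a - b ≠ 0 := left_ne_zero_of_mul_eq_one h1
  have hapb : a + b ≠ 0 := right_ne_zero_of_mul_eq_one h1
  set μ : ℂ[X] := C (2 * a)⁻¹ * (C (a - b) + C (a + b) * X) with hμ
  set ν : ℂ[X] := C (2 * b)⁻¹ * (C (a + b) * X - C (a - b)) with hν
  have hμe : ∀ z, μ.eval z = ((a - b) + (a + b) * z) / (2 * a) := by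
    intro z
    simp only [hμ, eval_mul, eval_C, eval_add, eval_X]
    field_simp
  have hνe : ∀ z, ν.eval z = ((a + b) * z - (a - b)) / (2 * b) := by
    intro z
    simp only [hν, eval_mul, eval_C, eval_sub, eval_X]
    field_simp
  refine ⟨μ ^ 2 + C (α * (β - α)⁻¹) * (μ ^ 2 - ν ^ 2), C (β - α)⁻¹ * (μ ^ 2 - ν ^ 2), μ * ν,
    -(a - b) / (a + b), ?_, ?_, ?_, ?_, ?_, ?_, ?_⟩
  · exact div_ne_zero (neg_ne_zero.mpr hamb) hapb
  · rw [eval_mul, hμe]
    have : (a - b) + (a + b) * (-(a - b) / (a + b)) = 0 := by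
      field_simp
      ring
    rw [this, zero_div, zero_mul]
  · intro z
    simp only [eval_sub, eval_mul, eval_add, eval_C, eval_pow]
    field_simp
    ring
  · simp only [eval_sub, eval_mul, eval_add, eval_C, eval_pow, hμe, hνe]
    field_simp
    ring
  · simp only [eval_sub, eval_mul, eval_C, eval_pow, hμe, hνe]
    field_simp
    ring
  · simp only [eval_mul, hμe, hνe]
    field_simp
    ring
  · intro z hz
    have h2 : γ = β + a ^ 2 * (α - β) := by
      rw [ha]
      field_simp
      ring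
    have h3 : eval z (μ ^ 2 + C (α * (β - α)⁻¹) * (μ ^ 2 - ν ^ 2)) -
        γ * eval z (C (β - α)⁻¹ * (μ ^ 2 - ν ^ 2)) = z := by
      simp only [eval_sub, eval_mul, eval_add, eval_C, eval_pow]
      have h4 : μ.eval z ^ 2 + α * (β - α)⁻¹ * (μ.eval z ^ 2 - ν.eval z ^ 2) -
          γ * ((β - α)⁻¹ * (μ.eval z ^ 2 - ν.eval z ^ 2)) =
          a ^ 2 * μ.eval z ^ 2 + (1 - a ^ 2) * ν.eval z ^ 2 := by
        rw [h2]
        field_simp
        ring
      have h5 : 1 - a ^ 2 = -b ^ 2 := by linear_combination -h1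
      rw [h4, h5, hμe, hνe]
      field_simp
      linear_combination (4 * z) * h1
    rw [h3]
    exact hz

/-- A complex polynomial without roots is constant. -/
lemma eq_C_of_no_root {p : ℂ[X]} (hp : ∀ z : ℂ, p.eval z ≠ 0) : p = C (p.eval 1) := by
  have h1 : p.natDegree = 0 := by
    by_contra hne
    have h2 : p.degree ≠ 0 := fun h => hne (natDegree_eq_of_degree_eq_some h)
    obtain ⟨z, hz⟩ := IsAlgClosed.exists_root p h2
    exact hp z hz
  obtain ⟨a, ha⟩ := natDegree_eq_zero.mp h1
  rw [← ha]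
  simp

/-- The general construction: a curve given by `σ`, `τ` and the square root `ρ` of
`(σ - α τ) (σ - β τ)`. -/
lemma curve_of_conic {ι : Type*} [Fintype ι] [DecidableEq ι] {c : ℕ} {w : ι} {b : ι → ℕ}
    (hbw : 1 ≤ b w) {e : Fin c → ℕ} {d d' : ℕ} (hdd' : d ≤ d')
    {G : Fin c → MvPolynomial ι ℂ} {F : MvPolynomial ι ℂ}
    (hG : ∀ j, MvPolynomial.IsWeightedHomogeneous (fun i => if i = w then 2 * b w else b i)
      (G j) (e j))
    (hF : MvPolynomial.IsWeightedHomogeneous (fun i => if i = w then 2 * b w else b i) F d)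
    {x : ι → ℂ} (hFx : MvPolynomial.eval (sq w x) F ≠ 0)
    {y : ι → ℂ[X]} {q : ℂ[X]} {α β γ : ℂ}
    (hydeg : ∀ i, i ≠ w → (y i).natDegree ≤ b i) (hy0 : ∀ i, i ≠ w → (y i).coeff 0 = x i)
    (hqdeg : q.natDegree ≤ b w - 1) (hq0 : q.coeff 0 = 1)
    (hyw : y w = C (x w ^ 2) * q ^ 2 * ((1 - C α * X) * (1 - C β * X)))
    (hyG : ∀ j, MvPolynomial.aeval y (G j) = 0)
    (hyF : MvPolynomial.aeval y F = C (MvPolynomial.eval (sq w x) F) * (1 - C γ * X) ^ d')
    {σ τ ρ : ℂ[X]}
    (hρ : ∀ z, ρ.eval z ^ 2 = (σ.eval z - α * τ.eval z) * (σ.eval z - β * τ.eval z))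
    (hσ1 : σ.eval 1 = 1) (hτ1 : τ.eval 1 = 0) (hρ1 : ρ.eval 1 = 1) :
    ∃ p : ι → ℂ[X], (∀ i, (p i).eval 1 = x i) ∧
      (∀ i, i ≠ w → p i = hom (b i) (y i) σ τ) ∧
      p w = C (x w) * hom (b w - 1) q σ τ * ρ ∧
      (∀ j z, MvPolynomial.eval (sq w fun i => (p i).eval z) (G j) = 0) ∧
      (∀ z, σ.eval z - γ * τ.eval z ≠ 0 →
        MvPolynomial.eval (sq w fun i => (p i).eval z) F ≠ 0) := by
  classical
  have hσ0 : σ ≠ 0 := by
    intro h
    rw [h] at hσ1
    simp at hσ1
  set R : Finset ℂ := σ.roots.toFinset with hR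
  have hRσ : ∀ z, z ∉ R → σ.eval z ≠ 0 := by
    intro z hz h
    apply hz
    rw [hR, Multiset.mem_toFinset, mem_roots hσ0]
    exact h
  set p : ι → ℂ[X] := fun i => if i = w then C (x w) * hom (b w - 1) q σ τ * ρ
    else hom (b i) (y i) σ τ with hp
  have hpw : p w = C (x w) * hom (b w - 1) q σ τ * ρ := by simp [hp]
  have hpi : ∀ i, i ≠ w → p i = hom (b i) (y i) σ τ := by
    intro i hi
    simp [hp, hi]
  -- the squared coordinates as polynomials
  set P : ι → ℂ[X] := fun i => if i = w then p w ^ 2 else p i with hP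
  have hPe : ∀ z, (sq w fun i => (p i).eval z) = fun i => (P i).eval z := by
    intro z
    funext i
    by_cases h : i = w
    · subst h
      simp [sq, hP]
    · simp [sq, hP, h]
  have hpoly : ∀ Q : MvPolynomial ι ℂ, ∀ z,
      MvPolynomial.eval (sq w fun i => (p i).eval z) Q = (MvPolynomial.aeval P Q).eval z := by
    intro Q z
    rw [hPe, eval_aeval]
  have hPeval : ∀ z, σ.eval z ≠ 0 → (sq w fun i => (p i).eval z) =
      fun i => (σ.eval z) ^ (if i = w then 2 * b w else b i) *
        (y i).eval (τ.eval z / σ.eval z) := by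
    intro z hz
    funext i
    by_cases h : i = w
    · subst h
      simp only [sq, if_true]
      rw [hpw, hyw]
      simp only [eval_mul, eval_C, eval_pow, eval_sub, eval_one, eval_X]
      rw [eval_hom hqdeg hz]
      obtain ⟨k, hk⟩ := Nat.exists_eq_add_of_le hbw
      rw [hk, Nat.add_sub_cancel_left]
      have h1 := hρ z
      have h2 : (x i * (eval z σ ^ k * eval (eval z τ / eval z σ) q) * eval z ρ) ^ 2 =
          x i ^ 2 * (eval z σ ^ k) ^ 2 * eval (eval z τ / eval z σ) q ^ 2 *
            eval z ρ ^ 2 := by ring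
      rw [h2, h1]
      have h3 : eval z σ - α * eval z τ = eval z σ * (1 - α * (eval z τ / eval z σ)) := by
        field_simp
      have h4 : eval z σ - β * eval z τ = eval z σ * (1 - β * (eval z τ / eval z σ)) := by
        field_simp
      rw [h3, h4]
      ring
    · simp only [sq, if_neg h]
      rw [hpi i h, eval_hom (hydeg i h) hz]
  refine ⟨p, ?_, hpi, hpw, ?_, ?_⟩
  · intro i
    by_cases h : i = w
    · subst h
      rw [hpw]
      simp only [eval_mul, eval_C]
      rw [eval_hom hqdeg (by rw [hσ1]; exact one_ne_zero), hσ1, hτ1, hρ1, zero_div,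
        ← coeff_zero_eq_eval_zero, hq0]
      simp
    · rw [hpi i h, eval_hom (hydeg i h) (by rw [hσ1]; exact one_ne_zero), hσ1, hτ1, zero_div,
        ← coeff_zero_eq_eval_zero, hy0 i h]
      simp
  · intro j z
    rw [hpoly]
    have h1 : MvPolynomial.aeval P (G j) = 0 := by
      apply eq_of_eval_eq R
      intro z hz
      rw [← hpoly, hPeval z (hRσ z hz), eval_weighted (hG j), ← eval_aeval, hyG]
      simp
    rw [h1, eval_zero]
  · intro z hz h
    have h1 : MvPolynomial.aeval P F * σ ^ (d' - d) = C (MvPolynomial.eval (sq w x) F) *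
        (σ - C γ * τ) ^ d' := by
      apply eq_of_eval_eq R
      intro z hz
      have hσz := hRσ z hz
      rw [eval_mul, ← hpoly, hPeval z hσz, eval_weighted hF, ← eval_aeval, hyF]
      simp only [eval_mul, eval_C, eval_pow, eval_sub, eval_one, eval_X]
      have h2 : σ.eval z ^ d * σ.eval z ^ (d' - d) = σ.eval z ^ d' := by
        rw [← pow_add]
        congr 1
        omega
      have h3 : σ.eval z - γ * τ.eval z = σ.eval z * (1 - γ * (τ.eval z / σ.eval z)) := by
        field_simp
      rw [h3, mul_pow, ← h2]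
      ring
    have h2 := congrArg (Polynomial.eval z) h1
    rw [eval_mul, ← hpoly, h, zero_mul] at h2
    simp only [eval_mul, eval_C, eval_pow, eval_sub] at h2
    rcases mul_eq_zero.mp h2.symm with h4 | h4
    · exact hFx h4
    · rcases Nat.eq_zero_or_pos d' with h5 | h5
      · rw [h5, pow_zero] at h4
        exact one_ne_zero h4
      · exact hz (pow_eq_zero_iff (by omega) |>.mp h4)

/-- Reflection case: through a zero `x` of the `G j` with `F x ≠ 0` and `x_w ≠ 0` passes a
non-constant `G_m`, avoiding `F = 0`.  Here `G j` and `F` are polynomials in `x_i`, `i ≠ w`, and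
`x_w ^ 2`. -/
theorem exists_Gm_reflection {ι : Type*} [Fintype ι] [DecidableEq ι] {c : ℕ}
    (T : Subgroup (ι → ℂˣ)) (w : ι) (b : ι → ℕ) (hbw : 1 ≤ b w)
    (e : Fin c → ℕ) (d : ℕ) (G : Fin c → MvPolynomial ι ℂ) (F : MvPolynomial ι ℂ)
    (hG : ∀ j, MvPolynomial.IsWeightedHomogeneous (fun i => if i = w then 2 * b w else b i)
      (G j) (e j))
    (hF : MvPolynomial.IsWeightedHomogeneous (fun i => if i = w then 2 * b w else b i) F d)
    (hdeg : ∑ j, e j + max d 1 ≤ ∑ i, b i) (x : ι → ℂ) (hxw : x w ≠ 0)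
    (hx : ∀ j, MvPolynomial.eval (sq w x) (G j) = 0)
    (hFx : MvPolynomial.eval (sq w x) F ≠ 0) :
    ∃ p : ι → ℂ[X], (∀ i, (p i).eval 1 = x i) ∧
      (∀ j z, MvPolynomial.eval (sq w fun i => (p i).eval z) (G j) = 0) ∧
      (∀ z, z ≠ 0 → MvPolynomial.eval (sq w fun i => (p i).eval z) F ≠ 0) ∧
      ∃ z, z ≠ 0 ∧ ¬ ∃ g ∈ T, ∀ i, (p i).eval z = (g i : ℂ) * x i := by
  classical
  set d' := max d 1 with hd'
  have hdd' : d ≤ d' := le_max_left _ _
  have h1d' : 1 ≤ d' := le_max_right _ _
  obtain ⟨y, q, α, β, γ, hydeg, hy0, hqdeg, hq0, hyw, hyw1, hyG, hyF, hyne⟩ :=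
    exists_curve_reflection w b hbw e d' h1d' G F (fun j m hm => (weight_eq (hG j) hm).le)
    (fun m hm => (weight_eq hF hm).le.trans hdd') hdeg x hx hFx
  by_cases hαβ : α = β
  · -- a line: the curve is an affine line
    subst hαβ
    have main : ∀ κ : ℂ, ∃ p : ι → ℂ[X], (∀ i, (p i).eval 1 = x i) ∧
        (∀ i, i ≠ w → p i = hom (b i) (y i) (1 + C (γ * κ) * (X - 1)) (C κ * (X - 1))) ∧
        p w = C (x w) * hom (b w - 1) q (1 + C (γ * κ) * (X - 1)) (C κ * (X - 1)) *
          (1 + C (γ * κ) * (X - 1) - C α * (C κ * (X - 1))) ∧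
        (∀ j z, MvPolynomial.eval (sq w fun i => (p i).eval z) (G j) = 0) ∧
        (∀ z, eval z (1 + C (γ * κ) * (X - 1) : ℂ[X]) - γ * eval z (C κ * (X - 1) : ℂ[X]) ≠ 0 →
          MvPolynomial.eval (sq w fun i => (p i).eval z) F ≠ 0) := by
      intro κ
      refine curve_of_conic hbw hdd' hG hF hFx hydeg hy0 hqdeg hq0 hyw hyG hyF
        (ρ := 1 + C (γ * κ) * (X - 1) - C α * (C κ * (X - 1))) ?_ ?_ ?_ ?_
      · intro z
        simp only [eval_sub, eval_mul, eval_add, eval_C, eval_X, eval_one]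
        ring
      · simp
      · simp
      · simp
    have hnz : ∀ κ z : ℂ,
        eval z (1 + C (γ * κ) * (X - 1) : ℂ[X]) - γ * eval z (C κ * (X - 1) : ℂ[X]) ≠ 0 := by
      intro κ z
      simp only [eval_sub, eval_mul, eval_add, eval_C, eval_X, eval_one]
      have : 1 + γ * κ * (z - 1) - γ * (κ * (z - 1)) = 1 := by ring
      rw [this]
      exact one_ne_zero
    -- a point of the affine line with a different image
    obtain ⟨t₀, ht₀⟩ : ∃ t₀ : ℂ, ¬ ∃ g ∈ T, (∀ i, i ≠ w → (hom (b i) (y i) (1 + C γ * X) X).eval t₀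
        = (g i : ℂ) * x i) ∧ (C (x w) * hom (b w - 1) q (1 + C γ * X) X *
          (1 + C γ * X - C α * X)).eval t₀ = (g w : ℂ) * x w := by
      by_contra hcon
      push Not at hcon
      -- all coordinates are constant
      have hσ0 : (1 + C γ * X : ℂ[X]) ≠ 0 := by
        intro h
        have := congrArg (Polynomial.eval 0) h
        simp at this
      have hinf : Set.Infinite ((fun z : ℂ => z / (1 + γ * z)) '' {z | 1 + γ * z ≠ 0}) := by
        apply Set.Infinite.image
        · intro z hz u hu hzu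
          have hz' : 1 + γ * z ≠ 0 := hz
          have hu' : 1 + γ * u ≠ 0 := hu
          simp only at hzu
          rw [div_eq_div_iff hz' hu'] at hzu
          linear_combination hzu
        · refine Set.Infinite.mono (s := (↑((1 + C γ * X : ℂ[X]).roots.toFinset) : Set ℂ)ᶜ) ?_
            (Finset.finite_toSet _).infinite_compl
          intro z hz h
          apply hz
          rw [Finset.mem_coe, Multiset.mem_toFinset, mem_roots hσ0, IsRoot.def]
          simpa using h
      have hconst : ∀ i, i ≠ w → y i = C (x i) * (1 - C γ * X) ^ b i := by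
        intro i hi
        have h1 : ∀ z : ℂ, (hom (b i) (y i) (1 + C γ * X) X).eval z = x i := by
          by_cases hxi : x i = 0
          · intro z
            obtain ⟨g, -, hg, -⟩ := hcon z
            rw [hg i hi, hxi, mul_zero]
          · have h2 := eq_C_of_no_root (p := hom (b i) (y i) (1 + C γ * X) X) (by
              intro z
              obtain ⟨g, -, hg, -⟩ := hcon z
              rw [hg i hi]
              exact mul_ne_zero (g i).ne_zero hxi)
            intro z
            have h3 : (hom (b i) (y i) (1 + C γ * X) X).eval 0 = x i := by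
              rw [eval_hom (hydeg i hi) (by simp)]
              simp [← coeff_zero_eq_eval_zero, hy0 i hi]
            rw [h2, eval_C]
            rw [h2, eval_C] at h3
            exact h3
        apply eq_of_infinite_eval_eq
        refine hinf.mono ?_
        rintro _ ⟨z, hz, rfl⟩
        have hz' : 1 + γ * z ≠ 0 := hz
        show (y i).eval (z / (1 + γ * z)) = _
        have h4 := h1 z
        rw [eval_hom (hydeg i hi) (by simpa using hz')] at h4
        simp only [eval_add, eval_one, eval_mul, eval_C, eval_X] at h4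
        simp only [eval_mul, eval_C, eval_pow, eval_sub, eval_one, eval_X]
        have h5 : 1 - γ * (z / (1 + γ * z)) = (1 + γ * z)⁻¹ := by
          field_simp
          ring
        rw [h5, inv_pow, ← h4]
        generalize eval (z / (1 + γ * z)) (y i) = E
        generalize 1 + γ * z = s at hz' ⊢
        field_simp
      have hqq : q * (1 - C α * X) = (1 - C γ * X) ^ b w := by
        have h1 : ∀ z : ℂ, (C (x w) * hom (b w - 1) q (1 + C γ * X) X *
            (1 + C γ * X - C α * X)).eval z = x w := by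
          have h2 := eq_C_of_no_root (p := C (x w) * hom (b w - 1) q (1 + C γ * X) X *
            (1 + C γ * X - C α * X)) (by
              intro z
              obtain ⟨g, -, -, hg⟩ := hcon z
              rw [hg]
              exact mul_ne_zero (g w).ne_zero hxw)
          intro z
          have h3 : (C (x w) * hom (b w - 1) q (1 + C γ * X) X *
            (1 + C γ * X - C α * X)).eval 0 = x w := by
            rw [eval_mul, eval_mul, eval_hom hqdeg (by simp)]
            simp [← coeff_zero_eq_eval_zero, hq0]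
          rw [h2, eval_C]
          rw [h2, eval_C] at h3
          exact h3
        apply eq_of_infinite_eval_eq
        refine hinf.mono ?_
        rintro _ ⟨z, hz, rfl⟩
        have hz' : 1 + γ * z ≠ 0 := hz
        show (q * (1 - C α * X)).eval (z / (1 + γ * z)) = _
        have h4 := h1 z
        rw [eval_mul, eval_mul, eval_hom hqdeg (by simpa using hz')] at h4
        simp only [eval_add, eval_sub, eval_one, eval_mul, eval_C, eval_X] at h4
        simp only [eval_mul, eval_C, eval_pow, eval_sub, eval_one, eval_X]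
        have h5 : 1 - γ * (z / (1 + γ * z)) = (1 + γ * z)⁻¹ := by
          field_simp
          ring
        have h6 : 1 - α * (z / (1 + γ * z)) = (1 + γ * z - α * z) / (1 + γ * z) := by
          generalize 1 + γ * z = s at hz' ⊢
          field_simp
        obtain ⟨k, hk⟩ := Nat.exists_eq_add_of_le hbw
        rw [hk, Nat.add_sub_cancel_left] at h4
        rw [h5, h6, hk, inv_pow]
        have h7 : (1 + γ * z) ^ k * eval (z / (1 + γ * z)) q * (1 + γ * z - α * z) = 1 := by
          apply mul_left_cancel₀ hxw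
          linear_combination h4
        rw [add_comm 1 k, pow_succ]
        generalize eval (z / (1 + γ * z)) q = E at h7 ⊢
        generalize 1 + γ * z = s at hz' h7 ⊢
        field_simp
        linear_combination h7
      have hyw' : y w = C (x w ^ 2) * (1 - C γ * X) ^ (2 * b w) := by
        rw [hyw, mul_comm 2, pow_mul, ← hqq]
        ring
      have hγ0 : γ = 0 := by
        rw [hyw'] at hyw1
        have h3 : ((C (x w ^ 2) * (1 - C γ * X) ^ (2 * b w) : ℂ[X])).coeff 1 =
            -(x w ^ 2 * (2 * b w : ℕ) * γ) := by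
          have h4 : ((C (x w ^ 2) * (1 - C γ * X) ^ (2 * b w) : ℂ[X])).coeff 1 =
              (derivative (C (x w ^ 2) * (1 - C γ * X) ^ (2 * b w) : ℂ[X])).eval 0 := by
            rw [← coeff_zero_eq_eval_zero, coeff_derivative]
            simp
          rw [h4]
          simp [derivative_pow]
          ring
        rw [h3, neg_eq_zero] at hyw1
        rcases mul_eq_zero.mp hyw1 with h5 | h5
        · rcases mul_eq_zero.mp h5 with h6 | h6
          · exact absurd (pow_eq_zero_iff (by norm_num) |>.mp h6) hxw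
          · exact absurd (Nat.cast_eq_zero.mp h6) (by omega)
        · exact h5
      subst hγ0
      have hqq' : q * (1 - C α * X) = 1 := by
        rw [hqq]
        simp
      have hα0 : α = 0 := by
        by_contra hne
        have := congrArg (Polynomial.eval α⁻¹) hqq'
        simp only [eval_mul, eval_sub, eval_one, eval_C, eval_X] at this
        rw [mul_inv_cancel₀ hne, sub_self, mul_zero] at this
        exact zero_ne_one this
      subst hα0
      have hq1 : q = 1 := by simpa using hqq'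
      rcases hyne with ⟨i, hi, hyi⟩ | h | h | h
      · apply hyi
        rw [hconst i hi]
        simp
      · exact h hq1
      · exact h rfl
      · exact h rfl
    have ht₀0 : t₀ ≠ 0 := by
      rintro rfl
      apply ht₀
      refine ⟨1, T.one_mem, ?_, ?_⟩
      · intro i hi
        rw [eval_hom (hydeg i hi) (by simp)]
        simp [← coeff_zero_eq_eval_zero, hy0 i hi]
      · rw [eval_mul, eval_mul, eval_hom hqdeg (by simp)]
        simp [← coeff_zero_eq_eval_zero, hq0]
    obtain ⟨p, hp1, hpi, hpw, hpG, hpF⟩ := main t₀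
    refine ⟨p, hp1, hpG, fun z _ => hpF z (hnz t₀ z), 2, two_ne_zero, ?_⟩
    rintro ⟨g, hgT, hg⟩
    apply ht₀
    have hh : ∀ (m : ℕ) (u : ℂ[X]), (hom m u (1 + C (γ * t₀) * (X - 1))
        (C t₀ * (X - 1))).eval 2 = (hom m u (1 + C γ * X) X).eval t₀ := by
      intro m u
      unfold hom
      rw [eval_finsetSum, eval_finsetSum]
      apply Finset.sum_congr rfl
      intro k _
      simp only [eval_mul, eval_C, eval_pow, eval_add, eval_sub, eval_one, eval_X]
      ring
    refine ⟨g, hgT, ?_, ?_⟩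
    · intro i hi
      rw [← hg i, hpi i hi, hh]
    · rw [← hg w, hpw, eval_mul, eval_mul, eval_mul, eval_mul, hh]
      simp only [eval_mul, eval_C, eval_add, eval_sub, eval_one, eval_X]
      ring
  · obtain ⟨σ, τ, ρ, z₀, hz₀, hρz₀, hρ, hσ1, hτ1, hρ1, hnz⟩ := exists_conic α β γ hαβ
    obtain ⟨p, hp1, -, hpw, hpG, hpF⟩ := curve_of_conic hbw hdd' hG hF hFx hydeg hy0 hqdeg hq0
      hyw hyG hyF hρ hσ1 hτ1 hρ1
    refine ⟨p, hp1, hpG, fun z hz => hpF z (hnz z hz), z₀, hz₀, ?_⟩
    rintro ⟨g, -, hg⟩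
    have h1 := hg w
    rw [hpw, eval_mul, hρz₀, mul_zero] at h1
    exact mul_ne_zero (g w).ne_zero hxw h1.symm

/-! ### Even polynomials -/

/-- Halve the exponent of `w`. -/
noncomputable def halve {ι : Type*} [DecidableEq ι] (w : ι) (m : ι →₀ ℕ) : ι →₀ ℕ :=
  m.update w (m w / 2)

/-- The polynomial `Q'` with `Q (x) = Q' (x_i (i ≠ w), x_w ^ 2)`. -/
noncomputable def halved {ι : Type*} [DecidableEq ι] (w : ι) (Q : MvPolynomial ι ℂ) :
    MvPolynomial ι ℂ :=
  ∑ m ∈ Q.support, MvPolynomial.monomial (halve w m) (Q.coeff m)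

lemma eval_halved {ι : Type*} [Fintype ι] [DecidableEq ι] (w : ι) (Q : MvPolynomial ι ℂ)
    (hQ : ∀ m ∈ Q.support, Even (m w)) (x : ι → ℂ) :
    MvPolynomial.eval (sq w x) (halved w Q) = MvPolynomial.eval x Q := by
  unfold halved
  rw [map_sum, MvPolynomial.eval_eq' x Q]
  apply Finset.sum_congr rfl
  intro m hm
  rw [MvPolynomial.eval_monomial, Finsupp.prod_fintype _ _ (by simp)]
  congr 1
  apply Finset.prod_congr rfl
  intro i _
  by_cases h : i = w
  · subst h
    simp only [sq, halve, if_true, Finsupp.coe_update, Function.update_self]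
    rw [← pow_mul, Nat.mul_div_cancel' (hQ m hm).two_dvd]
  · simp only [sq, halve, if_neg h, Finsupp.coe_update, Function.update_of_ne h]

lemma halved_isWeightedHomogeneous {ι : Type*} [Fintype ι] [DecidableEq ι] (w : ι) (b : ι → ℕ)
    (Q : MvPolynomial ι ℂ) (hQ : ∀ m ∈ Q.support, Even (m w)) {e : ℕ}
    (hb : MvPolynomial.IsWeightedHomogeneous b Q e) :
    MvPolynomial.IsWeightedHomogeneous (fun i => if i = w then 2 * b w else b i)
      (halved w Q) e := by
  unfold halved
  apply MvPolynomial.IsWeightedHomogeneous.sum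
  intro m hm
  apply MvPolynomial.isWeightedHomogeneous_monomial
  rw [← weight_eq hb hm, Finsupp.weight_apply, Finsupp.sum_fintype _ _ (by simp)]
  apply Finset.sum_congr rfl
  intro i _
  by_cases h : i = w
  · subst h
    simp only [halve, if_true, Finsupp.coe_update, Function.update_self, smul_eq_mul]
    have := Nat.mul_div_cancel' (hQ m hm).two_dvd
    calc m i / 2 * (2 * b i) = b i * (2 * (m i / 2)) := by ring
      _ = b i * m i := by rw [this]
  · simp only [halve, if_neg h, Finsupp.coe_update, Function.update_of_ne h, smul_eq_mul]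
    ring

end Pool.Agent.H6.Toric
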