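import Mathlib
import Pool.Agent.H6.Toric.Curve

/-!
# A general counting lemma, and the unknown polynomials for reflections
-/

set_option autoImplicit false

namespace Pool.Agent.H6.Toric

open MvPolynomial

variable {K : Type*} [Field K] {ι : Type*}

/-- If the polynomials `Y i` depend on more than `∑ e j + 1` unknowns, are constant for the
value `0` of the unknowns, and `G j (Y)` has degree at most `e j`, then there are nonzero values
of the unknowns for which `G j (Y) = 0` and the linear coefficient of `Y ℓ` is zero. -/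
theorem exists_of_count [IsAlgClosed K] [Fintype ι] {c : ℕ} {τ : Type*} [Finite τ]
    (B e : _) (Y : ι → Polynomial (MvPolynomial τ K)) (x : ι → K)
    (hY0 : ∀ i, (Y i).map (eval (0 : τ → K)) = Polynomial.C (x i))
    (hYc : ∀ (s : τ → K) i, ((Y i).map (eval s)).coeff 0 = x i)
    (hYd : ∀ (s : τ → K) i, ((Y i).map (eval s)).natDegree ≤ (B : ι → ℕ) i)
    (G : Fin c → MvPolynomial ι K) (hG : ∀ j, ∀ m ∈ (G j).support, ∑ i, B i * m i ≤ (e : Fin c → ℕ) j)
    (hx : ∀ j, eval x (G j) = 0) (ℓ : ι) (hcard : ∑ j, e j + 1 < Nat.card τ) :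
    ∃ s : τ → K, s ≠ 0 ∧ (∀ j, aeval (fun i => (Y i).map (eval s)) (G j) = 0) ∧
      ((Y ℓ).map (eval s)).coeff 1 = 0 := by
  classical
  let H : ((Σ j : Fin c, Fin (e j)) ⊕ Unit) → MvPolynomial τ K := fun s =>
    match s with
    | Sum.inl ⟨j, k⟩ => (aeval Y (G j)).coeff (k + 1)
    | Sum.inr _ => (Y ℓ).coeff 1
  have hcoefG : ∀ (j : Fin c) (k : ℕ) (s : τ → K), eval s ((aeval Y (G j)).coeff k) =
      (aeval (fun i => (Y i).map (eval s)) (G j)).coeff k := by
    intro j k s
    rw [← Polynomial.coeff_map, map_aeval]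
  have hcoefY : ∀ (k : ℕ) (s : τ → K), eval s ((Y ℓ).coeff k) = ((Y ℓ).map (eval s)).coeff k := by
    intro k s
    rw [← Polynomial.coeff_map]
  have haeval0 : ∀ P : MvPolynomial ι K, aeval (fun i => Polynomial.C (x i)) P =
      Polynomial.C (eval x P) := by
    intro P
    have h : (aeval (fun i => Polynomial.C (x i)) :
        MvPolynomial ι K →ₐ[K] Polynomial K).toRingHom =
        (Polynomial.C : K →+* Polynomial K).comp (eval x) := by
      apply MvPolynomial.ringHom_ext
      · intro r
        simp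
      · intro i; simp
    exact DFunLike.congr_fun h P
  have hY0' : (fun i => (Y i).map (eval (0 : τ → K))) = fun i => Polynomial.C (x i) := funext hY0
  have h0 : ∀ s, eval (0 : τ → K) (H s) = 0 := by
    rintro (⟨j, k⟩ | u)
    · show eval (0 : τ → K) ((aeval Y (G j)).coeff (k + 1)) = 0
      rw [hcoefG, hY0', haeval0]
      simp
    · show eval (0 : τ → K) ((Y ℓ).coeff 1) = 0
      rw [hcoefY, hY0]
      exact Polynomial.coeff_C_succ
  have hcard' : Nat.card ((Σ j : Fin c, Fin (e j)) ⊕ Unit) < Nat.card τ := by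
    have h1 : Nat.card ((Σ j : Fin c, Fin (e j)) ⊕ Unit) = ∑ j, e j + 1 := by
      simp [Nat.card_eq_fintype_card]
    omega
  obtain ⟨s, hs0, hs⟩ := exists_ne_zero_common_zero H h0 hcard'
  refine ⟨s, hs0, ?_, ?_⟩
  · intro j
    ext k
    rw [Polynomial.coeff_zero]
    rcases Nat.eq_zero_or_pos k with rfl | hk
    · rw [Polynomial.coeff_zero_eq_eval_zero, eval_aeval]
      have h1 : (fun i => ((Y i).map (eval s)).eval 0) = x := by
        funext i
        rw [← Polynomial.coeff_zero_eq_eval_zero, hYc]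
      rw [h1]
      exact hx j
    · by_cases hke : k ≤ e j
      · have := hs (Sum.inl ⟨j, ⟨k - 1, by omega⟩⟩)
        have h3 : eval s ((aeval Y (G j)).coeff (k - 1 + 1)) = 0 := this
        rw [hcoefG, Nat.sub_add_cancel hk] at h3
        exact h3
      · apply Polynomial.coeff_eq_zero_of_natDegree_lt
        exact lt_of_le_of_lt (natDegree_aeval_le B _ (hYd s) (G j) (hG j)) (by omega)
  · have := hs (Sum.inr ())
    have h3 : eval s ((Y ℓ).coeff 1) = 0 := this
    rw [hcoefY] at h3
    exact h3

/-! ### Polynomials with unknown coefficients -/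

/-- The polynomial of degree at most `n` with constant term `z` whose other coefficients are the
unknowns `u k`. -/
noncomputable def unk {τ : Type*} (n : ℕ) (z : K) (u : Fin n → τ) :
    Polynomial (MvPolynomial τ K) :=
  Polynomial.C (C z) + ∑ k : Fin n, Polynomial.C (X (u k)) * Polynomial.X ^ ((k : ℕ) + 1)

/-- Its specialisation. -/
noncomputable def spec {τ : Type*} (n : ℕ) (z : K) (u : Fin n → τ) (s : τ → K) : Polynomial K :=
  Polynomial.C z + ∑ k : Fin n, Polynomial.C (s (u k)) * Polynomial.X ^ ((k : ℕ) + 1)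

lemma map_unk {τ : Type*} (n : ℕ) (z : K) (u : Fin n → τ) (s : τ → K) :
    (unk n z u).map (eval s) = spec n z u s := by
  simp only [unk, spec, Polynomial.map_add, Polynomial.map_C, eval_C, Polynomial.map_sum,
    Polynomial.map_mul, eval_X, Polynomial.map_pow, Polynomial.map_X]

lemma natDegree_spec_le {τ : Type*} (n : ℕ) (z : K) (u : Fin n → τ) (s : τ → K) :
    (spec n z u s).natDegree ≤ n := by
  refine (Polynomial.natDegree_add_le _ _).trans ?_
  simp only [Polynomial.natDegree_C, zero_le, sup_of_le_right]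
  apply Polynomial.natDegree_sum_le_of_forall_le
  intro k _
  refine (Polynomial.natDegree_C_mul_X_pow_le _ _).trans ?_
  exact k.2

lemma coeff_spec {τ : Type*} (n : ℕ) (z : K) (u : Fin n → τ) (s : τ → K) (k : Fin n) :
    (spec n z u s).coeff ((k : ℕ) + 1) = s (u k) := by
  simp only [spec, Polynomial.coeff_add, Polynomial.coeff_C_succ, zero_add,
    Polynomial.finsetSum_coeff, Polynomial.coeff_C_mul_X_pow]
  rw [Finset.sum_eq_single k]
  · simp
  · intro j _ hj
    rw [if_neg]
    intro h
    exact hj (Fin.ext (by omega))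
  · simp

lemma coeff_spec_zero {τ : Type*} (n : ℕ) (z : K) (u : Fin n → τ) (s : τ → K) :
    (spec n z u s).coeff 0 = z := by
  simp only [spec, Polynomial.coeff_add, Polynomial.coeff_C_zero, Polynomial.finsetSum_coeff,
    Polynomial.coeff_C_mul_X_pow]
  simp

lemma spec_zero {τ : Type*} (n : ℕ) (z : K) (u : Fin n → τ) :
    spec n z u (0 : τ → K) = Polynomial.C z := by
  simp [spec]

lemma eq_zero_of_spec_eq_C {τ : Type*} {n : ℕ} {z : K} {u : Fin n → τ} {s : τ → K}
    (h : spec n z u s = Polynomial.C z) (k : Fin n) : s (u k) = 0 := by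
  rw [← coeff_spec n z u s k, h]
  exact Polynomial.coeff_C_succ

/-- If a product of polynomials with constant terms `1` is `1`, they are `1`. -/
lemma eq_one_of_mul_eq_one {p q : Polynomial K} (hp : p.coeff 0 = 1) (h : p * q = 1) :
    p = 1 := by
  have h1 : IsUnit p := IsUnit.of_mul_eq_one _ h
  obtain ⟨a, -, ha⟩ := Polynomial.isUnit_iff.mp h1
  rw [← ha] at hp ⊢
  rw [Polynomial.coeff_C_zero] at hp
  rw [hp, Polynomial.C_1]

end Pool.Agent.H6.Toric
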