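import Mathlib
import Pool.Agent.H6.Toric.ParamB

/-!
# Curves of indecomposable class with constant image are trivial
-/

set_option autoImplicit false

open Polynomial

namespace Pool.Agent.H6.Toric

variable {ι : Type*} [Fintype ι]

/-- The class `b` is indecomposable at `x` for the quotient by the group `T` and by the
reflections of orders `ρ i`: a vector `c` with `0 ≤ c i ≤ ρ i * b i`, orthogonal to all characters
`m`, supported on the nonzero coordinates of `x`, of the torus with coordinates `x i ^ ρ i`, that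
are trivial on `T`, is `0` or `ρ b` on these coordinates. -/
def IndecomposableR (T : Subgroup (ι → ℂˣ)) (ρ b : ι → ℕ) (x : ι → ℂ) : Prop :=
  ∀ c : ι → ℕ, (∀ i, x i ≠ 0 → c i ≤ ρ i * b i) →
    (∀ m : ι → ℤ, (∀ i, x i = 0 → m i = 0) → (∀ g ∈ T, ∏ i, g i ^ ((ρ i : ℤ) * m i) = 1) →
      ∑ i, m i * (c i : ℤ) = 0) →
    (∀ i, x i ≠ 0 → c i = 0) ∨ (∀ i, x i ≠ 0 → c i = ρ i * b i)

lemma rootMultiplicity_prod_pow {κ : Type*} (s : Finset κ) (f : κ → ℂ[X]) (n : κ → ℕ)
    (hf : ∀ i ∈ s, f i ≠ 0) (a : ℂ) :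
    (∏ i ∈ s, f i ^ n i).rootMultiplicity a = ∑ i ∈ s, n i * (f i).rootMultiplicity a := by
  have hpow : ∀ (p : ℂ[X]) (k : ℕ), p ≠ 0 →
      (p ^ k).rootMultiplicity a = k * p.rootMultiplicity a := by
    intro p k hp
    induction k with
    | zero => simp
    | succ k ih =>
      rw [pow_succ, rootMultiplicity_mul (mul_ne_zero (pow_ne_zero _ hp) hp), ih]
      ring
  classical
  induction s using Finset.induction_on with
  | empty => simp
  | insert i s hi ih =>
    have h1 : f i ^ n i ≠ 0 := pow_ne_zero _ (hf i (Finset.mem_insert_self i s))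
    have h2 : ∏ j ∈ s, f j ^ n j ≠ 0 :=
      Finset.prod_ne_zero_iff.mpr fun j hj => pow_ne_zero _ (hf j (Finset.mem_insert_of_mem hj))
    rw [Finset.prod_insert hi, Finset.sum_insert hi, rootMultiplicity_mul (mul_ne_zero h1 h2),
      hpow _ _ (hf i (Finset.mem_insert_self i s)),
      ih fun j hj => hf j (Finset.mem_insert_of_mem hj)]

/-- If a curve `y` of class `b` through `x` has infinitely many points in the orbit of `x`, it is
the trivial curve `x_i (1 - γ X) ^ b_i` (all in the coordinates `x i ^ ρ i`). -/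
theorem trivial_of_infinite (T : Subgroup (ι → ℂˣ)) (ρ b : ι → ℕ) (hρ : ∀ i, 1 ≤ ρ i)
    (x : ι → ℂ) (hind : IndecomposableR T ρ b x) (y : ι → ℂ[X])
    (hdeg : ∀ i, (y i).natDegree ≤ ρ i * b i) (hy0 : ∀ i, (y i).coeff 0 = x i ^ ρ i)
    (hinf : {t : ℂ | ∃ g ∈ T, ∀ i, (y i).eval t = ((g i : ℂ) * x i) ^ ρ i}.Infinite) :
    ∃ γ : ℂ, ∀ i, y i = C (x i ^ ρ i) * (1 - C γ * X) ^ (ρ i * b i) := by
  classical
  have hz : ∀ i, x i = 0 → y i = 0 := by
    intro i hi
    apply eq_of_infinite_eval_eq
    refine hinf.mono ?_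
    rintro t ⟨g, -, hg⟩
    show (y i).eval t = (0 : ℂ[X]).eval t
    rw [hg i, hi, mul_zero, zero_pow (by have := hρ i; omega), eval_zero]
  set u : ι → ℂ[X] := fun i => if x i = 0 then 1 else C (x i ^ ρ i)⁻¹ * y i with hu
  have hxρ : ∀ i, x i ≠ 0 → x i ^ ρ i ≠ 0 := fun i hi => pow_ne_zero _ hi
  have hyu : ∀ i, x i ≠ 0 → y i = C (x i ^ ρ i) * u i := by
    intro i hi
    simp only [hu, if_neg hi]
    rw [← mul_assoc, ← C_mul, mul_inv_cancel₀ (hxρ i hi), C_1, one_mul]
  have hu0 : ∀ i, (u i).eval 0 = 1 := by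
    intro i
    by_cases hi : x i = 0
    · simp [hu, hi]
    · simp only [hu, if_neg hi, eval_mul, eval_C]
      rw [← coeff_zero_eq_eval_zero, hy0, inv_mul_cancel₀ (hxρ i hi)]
  have hune : ∀ i, u i ≠ 0 := by
    intro i h
    have := hu0 i
    rw [h, eval_zero] at this
    exact zero_ne_one this
  have hudeg : ∀ i, x i ≠ 0 → (u i).natDegree ≤ ρ i * b i := by
    intro i hi
    simp only [hu, if_neg hi]
    exact (natDegree_C_mul_le _ _).trans (hdeg i)
  -- the relations
  have hrel : ∀ m : ι → ℤ, (∀ i, x i = 0 → m i = 0) →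
      (∀ g ∈ T, ∏ i, g i ^ ((ρ i : ℤ) * m i) = 1) → ∀ a : ℂ,
      ∑ i, m i * ((u i).rootMultiplicity a : ℤ) = 0 := by
    intro m hm0 hmT a
    have hpoly : ∏ i, u i ^ (m i).toNat = ∏ i, u i ^ (-m i).toNat := by
      apply eq_of_infinite_eval_eq
      refine hinf.mono ?_
      rintro t ⟨g, hgT, hg⟩
      show (∏ i, u i ^ (m i).toNat).eval t = (∏ i, u i ^ (-m i).toNat).eval t
      rw [eval_prod, eval_prod]
      simp only [eval_pow]
      have hug : ∀ i, x i ≠ 0 → (u i).eval t = (g i : ℂ) ^ ρ i := by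
        intro i hi
        simp only [hu, if_neg hi, eval_mul, eval_C]
        rw [hg i, mul_pow]
        field_simp [hxρ i hi]
      have h1 : ∏ i, ((g i : ℂ) ^ ρ i) ^ (m i).toNat = ∏ i, ((g i : ℂ) ^ ρ i) ^ (-m i).toNat := by
        have h2 := hmT g hgT
        have h3 : ∀ i, g i ^ ((ρ i : ℤ) * m i) = ((g i) ^ ρ i) ^ (m i).toNat *
            (((g i) ^ ρ i) ^ (-m i).toNat)⁻¹ := by
          intro i
          rw [zpow_mul, zpow_natCast]
          rw [← zpow_natCast ((g i) ^ ρ i) (m i).toNat, ← zpow_natCast ((g i) ^ ρ i) (-m i).toNat,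
            ← zpow_neg, ← zpow_add]
          congr 1
          omega
        simp only [h3] at h2
        rw [Finset.prod_mul_distrib, Finset.prod_inv_distrib, mul_inv_eq_one] at h2
        have h4 := congrArg (Units.val) h2
        simpa using h4
      have h5 : ∀ n : ι → ℕ, (∀ i, x i = 0 → n i = 0) →
          ∏ i, ((u i).eval t) ^ n i = ∏ i, ((g i : ℂ) ^ ρ i) ^ n i := by
        intro n hn
        apply Finset.prod_congr rfl
        intro i _
        by_cases hi : x i = 0
        · rw [hn i hi, pow_zero, pow_zero]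
        · rw [hug i hi]
      rw [h5 _ (fun i hi => by simp [hm0 i hi]), h5 _ (fun i hi => by simp [hm0 i hi]), h1]
    have h1 := congrArg (rootMultiplicity a) hpoly
    rw [rootMultiplicity_prod_pow _ _ _ (fun i _ => hune i),
      rootMultiplicity_prod_pow _ _ _ (fun i _ => hune i)] at h1
    have h2 : (∑ i, ((m i).toNat : ℤ) * ((u i).rootMultiplicity a : ℤ)) =
        ∑ i, ((-m i).toNat : ℤ) * ((u i).rootMultiplicity a : ℤ) := by exact_mod_cast h1
    have h3 : ∑ i, m i * ((u i).rootMultiplicity a : ℤ) =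
        ∑ i, ((m i).toNat : ℤ) * ((u i).rootMultiplicity a : ℤ) -
          ∑ i, ((-m i).toNat : ℤ) * ((u i).rootMultiplicity a : ℤ) := by
      rw [← Finset.sum_sub_distrib]
      apply Finset.sum_congr rfl
      intro i _
      rw [← sub_mul]
      congr 1
      omega
    rw [h3, h2, sub_self]
  have hdich : ∀ a : ℂ, (∀ i, x i ≠ 0 → (u i).rootMultiplicity a = 0) ∨
      (∀ i, x i ≠ 0 → (u i).rootMultiplicity a = ρ i * b i) := by
    intro a
    refine hind (fun i => (u i).rootMultiplicity a) ?_ (fun m hm hmT => hrel m hm hmT a)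
    intro i hi
    have h1 := natDegree_le_of_dvd (pow_rootMultiplicity_dvd (u i) a) (hune i)
    rw [natDegree_pow, natDegree_X_sub_C, mul_one] at h1
    exact h1.trans (hudeg i hi)
  by_cases hall : ∀ a : ℂ, ∀ i, x i ≠ 0 → (u i).rootMultiplicity a = 0
  · -- no roots: everything is constant
    refine ⟨0, fun i => ?_⟩
    by_cases hi : x i = 0
    · rw [hz i hi, hi, zero_pow (by have := hρ i; omega), C_0, zero_mul]
    · have h1 : u i = C ((u i).eval 1) := by
        apply eq_C_of_no_root
        intro z hz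
        have h2 := hall z i hi
        rw [rootMultiplicity_eq_zero_iff] at h2
        exact hune i (h2 hz)
      have h2 : u i = 1 := by
        have h3 := hu0 i
        rw [h1, eval_C] at h3
        rw [h1, h3, C_1]
      rw [hyu i hi, h2]
      simp
  · push Not at hall
    obtain ⟨a, i₀, hi₀, ha⟩ := hall
    have hfull : ∀ i, x i ≠ 0 → (u i).rootMultiplicity a = ρ i * b i := by
      rcases hdich a with h | h
      · exact absurd (h i₀ hi₀) ha
      · exact h
    have ha0 : a ≠ 0 := by
      rintro rfl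
      apply ha
      rw [rootMultiplicity_eq_zero_iff]
      intro h
      have h1 := hu0 i₀
      rw [h.eq_zero] at h1
      exact absurd h1 zero_ne_one
    refine ⟨a⁻¹, fun i => ?_⟩
    by_cases hi : x i = 0
    · rw [hz i hi, hi, zero_pow (by have := hρ i; omega), C_0, zero_mul]
    · obtain ⟨q, hq⟩ := pow_rootMultiplicity_dvd (u i) a
      rw [hfull i hi] at hq
      have hq0 : q ≠ 0 := by
        rintro rfl
        rw [mul_zero] at hq
        exact hune i hq
      have hqd : q.natDegree = 0 := by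
        have h1 := hudeg i hi
        rw [hq, natDegree_mul (pow_ne_zero _ (X_sub_C_ne_zero a)) hq0, natDegree_pow,
          natDegree_X_sub_C, mul_one] at h1
        omega
      obtain ⟨k, hk⟩ := natDegree_eq_zero.mp hqd
      have h2 := hu0 i
      rw [hq, ← hk, eval_mul, eval_pow, eval_sub, eval_X, eval_C, eval_C, zero_sub] at h2
      rw [hyu i hi, hq, ← hk]
      congr 1
      have h3 : (1 - C a⁻¹ * X : ℂ[X]) = C (-a)⁻¹ * (X - C a) := by
        rw [mul_sub, ← C_mul]
        have : (-a)⁻¹ * a = -1 := by field_simp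
        rw [this, inv_neg, C_neg, C_neg, C_1]
        ring
      rw [h3, mul_pow, ← C_pow, mul_comm (C _) ((X - C a) ^ (ρ i * b i))]
      congr 2
      rw [inv_pow]
      exact eq_inv_of_mul_eq_one_right h2

end Pool.Agent.H6.Toric
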