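import Mathlib
import Pool.Agent.H6.Toric.Count
import Pool.Agent.H6.Toric.NonConst

/-!
# Curves of genus at most one: the data
-/

set_option autoImplicit false

open Polynomial

namespace Pool.Agent.H6.Toric

variable {ι : Type*}

/-- The coordinates `P i`, for `i = w` replaced by `Q v`. -/
def coords [DecidableEq ι] (w : ι) (P : ι → ℂ[X]) (Q : ℂ[X]) (t v : ℂ) : ι → ℂ :=
  fun i => if i = w then Q.eval t * v else (P i).eval t

/-- A curve `(t, v) ↦ (P i (t), Q (t) v)`, `v ^ (p + 1) = g (t)`, in the variety `G j = 0`, of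
degrees `B i`, through the point `x` (for `t = t₀`, `v = v₀`), not contained in the `T`-orbit
of `x`. -/
structure CurveData [DecidableEq ι] {c : ℕ} (κ p : ℕ) (w : ι) (T : Subgroup (ι → ℂˣ)) (B : ι → ℕ)
    (G : Fin c → MvPolynomial ι ℂ) (x : ι → ℂ) (P : ι → ℂ[X]) (Q g : ℂ[X]) (t₀ v₀ : ℂ) :
    Prop where
  degP : ∀ i, i ≠ w → (P i).natDegree ≤ B i
  degQ : Q.natDegree ≤ B w - κ
  leB : κ ≤ B w
  degg : g.natDegree ≤ κ + 2
  start : coords w P Q t₀ v₀ = x
  v0 : v₀ ≠ 0
  onCurve : v₀ ^ (p + 1) = g.eval t₀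
  zero : ∀ j t v, v ^ (p + 1) = g.eval t → MvPolynomial.eval (coords w P Q t v) (G j) = 0
  nonconst : {t : ℂ | ∃ v, v ^ (p + 1) = g.eval t ∧
    ∃ a ∈ T, ∀ i, coords w P Q t v i = (a i : ℂ) * x i}.Finite

/-! ### Division of the exponents -/

/-- Divide the exponents by `ρ`. -/
noncomputable def contract [Fintype ι] (ρ : ι → ℕ) (Q : MvPolynomial ι ℂ) : MvPolynomial ι ℂ :=
  ∑ m ∈ Q.support, MvPolynomial.monomial
    (Finsupp.equivFunOnFinite.symm fun i => m i / ρ i) (Q.coeff m)

lemma eval_contract [Fintype ι] (ρ : ι → ℕ) (Q : MvPolynomial ι ℂ)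
    (hQ : ∀ m ∈ Q.support, ∀ i, ρ i ∣ m i) (x z : ι → ℂ) (hz : ∀ i, z i = x i ^ ρ i) :
    MvPolynomial.eval z (contract ρ Q) = MvPolynomial.eval x Q := by
  unfold contract
  rw [map_sum, MvPolynomial.eval_eq' x Q]
  apply Finset.sum_congr rfl
  intro m hm
  rw [MvPolynomial.eval_monomial, Finsupp.prod_fintype _ _ (by simp)]
  congr 1
  apply Finset.prod_congr rfl
  intro i _
  simp only [Finsupp.equivFunOnFinite_symm_apply_apply]
  rw [hz, ← pow_mul, Nat.mul_div_cancel' (hQ m hm i)]

lemma contract_isWeightedHomogeneous [Fintype ι] (ρ b : ι → ℕ) (Q : MvPolynomial ι ℂ)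
    (hQ : ∀ m ∈ Q.support, ∀ i, ρ i ∣ m i) {e : ℕ}
    (hb : MvPolynomial.IsWeightedHomogeneous b Q e) :
    MvPolynomial.IsWeightedHomogeneous (fun i => ρ i * b i) (contract ρ Q) e := by
  classical
  unfold contract
  apply MvPolynomial.IsWeightedHomogeneous.sum
  intro m hm
  apply MvPolynomial.isWeightedHomogeneous_monomial
  rw [← weight_eq hb hm, Finsupp.weight_apply, Finsupp.sum_fintype _ _ (by simp)]
  apply Finset.sum_congr rfl
  intro i _
  simp only [Finsupp.equivFunOnFinite_symm_apply_apply, smul_eq_mul]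
  have := Nat.mul_div_cancel' (hQ m hm i)
  calc m i / ρ i * (ρ i * b i) = b i * (ρ i * (m i / ρ i)) := by ring
    _ = b i * m i := by rw [this]

lemma contract_weight_le [Fintype ι] (ρ b : ι → ℕ) (Q : MvPolynomial ι ℂ)
    (hQ : ∀ m ∈ Q.support, ∀ i, ρ i ∣ m i) {e : ℕ}
    (hb : MvPolynomial.IsWeightedHomogeneous b Q e) :
    ∀ m ∈ (contract ρ Q).support, ∑ i, (ρ i * b i) * m i ≤ e :=
  fun _ hm => (weight_eq (contract_isWeightedHomogeneous ρ b Q hQ hb) hm).le

/-! ### One reflection -/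

/-- The exponents for one reflection of order `r`. -/
def oneRefl [DecidableEq ι] (w : ι) (r : ℕ) : ι → ℕ := fun i => if i = w then r else 1

/-- The data for one reflection of order `p + 1`, `κ p = 2`, with `b w ≥ κ`. -/
theorem exists_data_cyclic [Fintype ι] [DecidableEq ι] {c : ℕ} (T : Subgroup (ι → ℂˣ)) (w : ι)
    (κ p : ℕ) (hκ : κ * p = 2) (b : ι → ℕ) (hbw : κ ≤ b w) (e : Fin c → ℕ)
    (G : Fin c → MvPolynomial ι ℂ)
    (hdvd : ∀ j, ∀ m ∈ (G j).support, (p + 1) ∣ m w)
    (hG : ∀ j, MvPolynomial.IsWeightedHomogeneous b (G j) (e j))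
    (hdeg : ∑ j, e j ≤ ∑ i, b i) (x : ι → ℂ) (hxw : x w ≠ 0)
    (hx : ∀ j, MvPolynomial.eval x (G j) = 0)
    (hind : IndecomposableR T (oneRefl w (p + 1)) b x) :
    ∃ (P : ι → ℂ[X]) (Q g : ℂ[X]), CurveData κ p w T b G x P Q g 0 1 := by
  classical
  have hκ0 : κ ≠ 0 := by rintro rfl; simp at hκ
  have hrκ : (p + 1) * κ = κ + 2 := by
    have : (p + 1) * κ = κ * p + κ := by ring
    omega
  set ρ := oneRefl w (p + 1) with hρ
  have hρw : ρ w = p + 1 := by simp [hρ, oneRefl]
  have hρi : ∀ i, i ≠ w → ρ i = 1 := fun i hi => by simp [hρ, oneRefl, hi]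
  have hρ1 : ∀ i, 1 ≤ ρ i := by
    intro i
    by_cases h : i = w
    · subst h
      rw [hρw]
      omega
    · rw [hρi i h]
  have hdvd' : ∀ j, ∀ m ∈ (G j).support, ∀ i, ρ i ∣ m i := by
    intro j m hm i
    by_cases h : i = w
    · subst h
      rw [hρw]
      exact hdvd j m hm
    · rw [hρi i h]
      exact one_dvd _
  -- unknowns
  let b' : ι → ℕ := fun i => if i = w then b w - κ else b i
  let τ := (Σ i : ι, Fin (b' i)) ⊕ Fin (κ + 2)
  let U : (i : ι) → ℂ → Polynomial (MvPolynomial τ ℂ) := fun i z =>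
    unk (b' i) z (fun k => Sum.inl ⟨i, k⟩)
  let S : (i : ι) → ℂ → (τ → ℂ) → ℂ[X] := fun i z s => spec (b' i) z (fun k => Sum.inl ⟨i, k⟩) s
  let g' : (τ → ℂ) → ℂ[X] := fun s => spec (κ + 2) 1 Sum.inr s
  let Y : ι → Polynomial (MvPolynomial τ ℂ) := fun i =>
    if i = w then Polynomial.C (MvPolynomial.C (x w ^ (p + 1))) * (U w 1) ^ (p + 1) *
      unk (κ + 2) 1 Sum.inr else U i (x i)
  let y : (τ → ℂ) → ι → ℂ[X] := fun s i =>
    if i = w then C (x w ^ (p + 1)) * (S w 1 s) ^ (p + 1) * g' s else S i (x i) s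
  have hYy : ∀ s i, (Y i).map (MvPolynomial.eval s) = y s i := by
    intro s i
    simp only [Y, y]
    split_ifs with h
    · simp only [Polynomial.map_mul, Polynomial.map_pow, map_unk, U, S, g', Polynomial.map_C,
        MvPolynomial.eval_C]
    · exact map_unk _ _ _ _
  have hyw : ∀ s, y s w = C (x w ^ (p + 1)) * (S w 1 s) ^ (p + 1) * g' s := by
    intro s
    simp only [y, if_true]
  have hyi : ∀ s i, i ≠ w → y s i = S i (x i) s := by
    intro s i hi
    simp only [y, if_neg hi]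
  have hS0 : ∀ i z s, (S i z s).coeff 0 = z := fun i z s => coeff_spec_zero _ _ _ _
  have hg0 : ∀ s, (g' s).coeff 0 = 1 := fun s => coeff_spec_zero _ _ _ _
  have hy0 : ∀ s i, (y s i).coeff 0 = x i ^ ρ i := by
    intro s i
    by_cases h : i = w
    · subst h
      rw [hyw, hρw]
      have h1 := hS0 i 1 s
      have h2 := hg0 s
      rw [coeff_zero_eq_eval_zero] at h1 h2 ⊢
      simp [h1, h2]
    · rw [hyi s i h, hρi i h, hS0, pow_one]
  have hydeg : ∀ s i, (y s i).natDegree ≤ ρ i * b i := by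
    intro s i
    by_cases h : i = w
    · subst h
      rw [hyw, hρw]
      have h1 : (S i 1 s).natDegree ≤ b i - κ := by
        refine (natDegree_spec_le _ _ _ _).trans ?_
        simp [b']
      have h2 : ((S i 1 s) ^ (p + 1)).natDegree ≤ (p + 1) * (b i - κ) :=
        natDegree_pow_le.trans (Nat.mul_le_mul_left _ h1)
      have h3 : (C (x i ^ (p + 1)) * (S i 1 s) ^ (p + 1)).natDegree ≤ (p + 1) * (b i - κ) :=
        (natDegree_C_mul_le _ _).trans h2
      have h4 : (g' s).natDegree ≤ κ + 2 := natDegree_spec_le _ _ _ _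
      refine natDegree_mul_le.trans ?_
      have h5 : (p + 1) * (b i - κ) + (κ + 2) = (p + 1) * b i := by
        rw [← hrκ, ← mul_add, Nat.sub_add_cancel hbw]
      omega
    · rw [hyi s i h, hρi i h, one_mul]
      refine (natDegree_spec_le _ _ _ _).trans ?_
      simp [b', h]
  have hy00 : ∀ i, y 0 i = C (x i ^ ρ i) := by
    intro i
    by_cases h : i = w
    · subst h
      rw [hyw, hρw]
      simp [S, g', spec_zero]
    · rw [hyi 0 i h, hρi i h, pow_one]
      exact spec_zero _ _ _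
  have hsum : ∑ i, b i = ∑ i, b' i + κ := by
    have h1 : ∀ i, b i = b' i + (if i = w then κ else 0) := by
      intro i
      by_cases h : i = w
      · subst h
        simp only [b', if_true]
        omega
      · simp [b', h]
    rw [Finset.sum_congr rfl fun i _ => h1 i, Finset.sum_add_distrib]
    simp
  have hcard : ∑ j, e j + 1 < Nat.card τ := by
    have h1 : Nat.card τ = ∑ i, b' i + (κ + 2) := by
      simp [τ, Nat.card_eq_fintype_card]
    omega
  obtain ⟨s, hs0, hsG, hsw⟩ := exists_of_count (fun i => ρ i * b i) e Y (fun i => x i ^ ρ i)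
    (fun i => by rw [hYy, hy00]) (fun s i => by rw [hYy, hy0]) (fun s i => by rw [hYy]; exact hydeg s i)
    (fun j => contract ρ (G j)) (fun j => contract_weight_le ρ b (G j) (hdvd' j) (hG j))
    (fun j => by rw [eval_contract ρ (G j) (hdvd' j) x _ fun i => rfl]; exact hx j) w hcard
  simp only [hYy] at hsG hsw
  -- the curve is not trivial
  have hnontriv : ¬ ∃ γ : ℂ, ∀ i, y s i = C (x i ^ ρ i) * (1 - C γ * X) ^ (ρ i * b i) := by
    rintro ⟨γ, hγ⟩
    have hbw0 : b w ≠ 0 := by omega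
    have hγ0 : γ = 0 := by
      rw [hγ w] at hsw
      have h3 : ((C (x w ^ ρ w) * (1 - C γ * X) ^ (ρ w * b w) : ℂ[X])).coeff 1 =
          -(x w ^ ρ w * (ρ w * b w : ℕ) * γ) := by
        have h4 : ((C (x w ^ ρ w) * (1 - C γ * X) ^ (ρ w * b w) : ℂ[X])).coeff 1 =
            (derivative (C (x w ^ ρ w) * (1 - C γ * X) ^ (ρ w * b w) : ℂ[X])).eval 0 := by
          rw [← coeff_zero_eq_eval_zero, coeff_derivative]
          simp
        rw [h4]
        simp [derivative_pow]
        ring
      rw [h3, neg_eq_zero] at hsw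
      rcases mul_eq_zero.mp hsw with h5 | h5
      · rcases mul_eq_zero.mp h5 with h6 | h6
        · exact absurd h6 (pow_ne_zero _ hxw)
        · have h7 := Nat.cast_eq_zero.mp h6
          rcases Nat.mul_eq_zero.mp h7 with h8 | h8
          · have := hρ1 w
            omega
          · exact absurd h8 hbw0
      · exact h5
    subst hγ0
    apply hs0
    have hone : (S w 1 s) ^ (p + 1) * g' s = 1 := by
      have h1 := hγ w
      rw [hyw, hρw] at h1
      have h2 : (C (x w ^ (p + 1)) : ℂ[X]) ≠ 0 := by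
        rw [Ne, C_eq_zero]
        exact pow_ne_zero _ hxw
      apply mul_left_cancel₀ h2
      rw [mul_one, ← mul_assoc, h1]
      simp
    have hg1 : g' s = 1 := by
      refine eq_one_of_mul_eq_one (q := (S w 1 s) ^ (p + 1)) (hg0 s) ?_
      rw [mul_comm]
      exact hone
    have hS1 : S w 1 s = 1 := by
      refine eq_one_of_mul_eq_one (q := (S w 1 s) ^ p * g' s) (hS0 w 1 s) ?_
      rw [← mul_assoc, mul_comm (S w 1 s), ← pow_succ]
      exact hone
    have key : ∀ (i : ι) (z : ℂ), S i z s = C z → ∀ k : Fin (b' i), s (Sum.inl ⟨i, k⟩) = 0 := by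
      intro i z h k
      have h1 : spec (b' i) z (fun k => (Sum.inl ⟨i, k⟩ : τ)) s = C z := h
      exact eq_zero_of_spec_eq_C h1 k
    have key2 : ∀ k : Fin (κ + 2), s (Sum.inr k) = 0 := by
      intro k
      have h1 : spec (κ + 2) (1 : ℂ) (fun k => (Sum.inr k : τ)) s = C 1 := by
        rw [C_1]
        exact hg1
      exact eq_zero_of_spec_eq_C h1 k
    funext u
    rcases u with ⟨i, k⟩ | k
    · show s (Sum.inl ⟨i, k⟩) = 0
      by_cases h : i = w
      · have h2 : S i 1 s = C 1 := by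
          rw [h, hS1, C_1]
        exact key i 1 h2 k
      · have h1 := hγ i
        rw [hyi s i h, hρi i h, pow_one] at h1
        have h2 : S i (x i) s = C (x i) := by
          rw [h1]
          simp
        exact key i (x i) h2 k
    · exact key2 k
  have hfin : {t : ℂ | ∃ a ∈ T, ∀ i, (y s i).eval t = ((a i : ℂ) * x i) ^ ρ i}.Finite := by
    by_contra hinf
    exact hnontriv (trivial_of_infinite T ρ b hρ1 x hind (y s) (hydeg s) (hy0 s) hinf)
  -- the coordinates
  have hpow : ∀ t v : ℂ, v ^ (p + 1) = (g' s).eval t → ∀ i,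
      (y s i).eval t = (coords w (y s) (C (x w) * S w 1 s) t v i) ^ ρ i := by
    intro t v hv i
    by_cases h : i = w
    · subst h
      simp only [coords, if_true]
      rw [hyw, hρw]
      simp only [eval_mul, eval_C, eval_pow]
      rw [mul_pow, mul_pow, hv]
    · simp only [coords, if_neg h]
      rw [hρi i h, pow_one]
  refine ⟨y s, C (x w) * S w 1 s, g' s, ?_, ?_, hbw, natDegree_spec_le _ _ _ _, ?_, one_ne_zero,
    ?_, ?_, ?_⟩
  · intro i hi
    have := hydeg s i
    rwa [hρi i hi, one_mul] at this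
  · refine (natDegree_C_mul_le _ _).trans ((natDegree_spec_le _ _ _ _).trans ?_)
    simp [b']
  · funext i
    by_cases h : i = w
    · subst h
      simp only [coords, if_true, eval_mul, eval_C]
      rw [← coeff_zero_eq_eval_zero, hS0]
      ring
    · simp only [coords, if_neg h]
      rw [← coeff_zero_eq_eval_zero, hy0, hρi i h, pow_one]
  · rw [one_pow, ← coeff_zero_eq_eval_zero, hg0]
  · intro j t v hv
    rw [← eval_contract ρ (G j) (hdvd' j) _ (fun i => (y s i).eval t) (hpow t v hv),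
      ← eval_aeval, hsG j, eval_zero]
  · refine hfin.subset ?_
    rintro t ⟨v, hv, a, haT, ha⟩
    refine ⟨a, haT, fun i => ?_⟩
    rw [hpow t v hv i, ha i]

end Pool.Agent.H6.Toric
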