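import Mathlib

/-!
# Complete toric varieties in homogeneous coordinates: definitions

A simplicial toric variety is a quotient `{x ∈ ℂ^ι : supp x ∈ U} / T`, where `T` is a group of
diagonal matrices and `U` is the set of admissible supports (Cox's construction).
-/

set_option autoImplicit false

open Filter Topology

namespace Pool.Agent.H6.Toric

/-- Two points of `ℂ^ι` are equivalent if they differ by an element of the diagonal group `T`. -/
def orbitSetoid {ι : Type} (T : Subgroup (ι → ℂˣ)) : Setoid (ι → ℂ) where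
  r x y := ∃ g ∈ T, ∀ i, y i = (g i : ℂ) * x i
  iseqv := by
    refine ⟨fun x => ⟨1, T.one_mem, by simp⟩, ?_, ?_⟩
    · rintro x y ⟨g, hg, h⟩
      refine ⟨g⁻¹, T.inv_mem hg, fun i => ?_⟩
      rw [h i]
      simp
    · rintro x y z ⟨g, hg, h⟩ ⟨k, hk, h'⟩
      refine ⟨k * g, T.mul_mem hk hg, fun i => ?_⟩
      rw [h' i, h i]
      simp [mul_assoc]

/-- The set of `T`-orbits in `ℂ^ι`. -/
def Orbits {ι : Type} (T : Subgroup (ι → ℂˣ)) : Type := Quotient (orbitSetoid T)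

/-- The orbit of `x`, i.e. the point with homogeneous coordinates `x`. -/
def pt {ι : Type} (T : Subgroup (ι → ℂˣ)) (x : ι → ℂ) : Orbits T :=
  Quotient.mk (orbitSetoid T) x

/-- `Q` is `T`-homogeneous (semi-invariant): `Q (g x) = χ(g) Q (x)` with `χ(g) ≠ 0`. -/
def IsTHomogeneous {ι : Type} (T : Subgroup (ι → ℂˣ)) (Q : MvPolynomial ι ℂ) : Prop :=
  ∀ g ∈ T, ∃ χ : ℂ, χ ≠ 0 ∧ ∀ x : ι → ℂ,
    MvPolynomial.eval (fun i => (g i : ℂ) * x i) Q = χ * MvPolynomial.eval x Q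

/-- The support of a vector: the set of its nonzero coordinates. -/
def supp {ι : Type} (x : ι → ℂ) : Set ι := {i | x i ≠ 0}

/-- The toric variety `{x : supp x ∈ U} / T` is complete (valuative criterion): if `U` contains
`S` then it contains all larger sets, and every curve germ `x_i = z ^ (k i) · unit` (`i ∈ S`),
`x_i = 0` (`i ∉ S`), has, after a substitution `z = ζ ^ n` and multiplication by a one-parameter
subgroup `ζ ^ (- μ)` of `T`, a limit with support in `U`. -/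
def IsCompleteToric {ι : Type} (T : Subgroup (ι → ℂˣ)) (U : Set (Set ι)) : Prop :=
  (∀ S ∈ U, ∀ S' : Set ι, S ⊆ S' → S' ∈ U) ∧
  ∀ S ∈ U, ∀ k : ι → ℕ, ∃ (n : ℕ) (μ : ι → ℤ), 1 ≤ n ∧
    (∀ u : ℂˣ, (fun i => u ^ μ i) ∈ T) ∧ (∀ i ∈ S, μ i ≤ (n : ℤ) * k i) ∧
    {i | i ∈ S ∧ μ i = (n : ℤ) * k i} ∈ U

/-- The closed subvariety `X = {G_1 = … = G_c = 0}` of the toric variety `{supp x ∈ U} / T`. -/
def subvariety {ι : Type} (T : Subgroup (ι → ℂˣ)) (U : Set (Set ι)) {c : ℕ}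
    (G : Fin c → MvPolynomial ι ℂ) : Set (Orbits T) :=
  {P | ∃ x, P = pt T x ∧ supp x ∈ U ∧ ∀ j, MvPolynomial.eval x (G j) = 0}

/-- The polynomial `Q` vanishes at `P`. -/
def VanishesAt {ι : Type} {T : Subgroup (ι → ℂˣ)} (Q : MvPolynomial ι ℂ) (P : Orbits T) : Prop :=
  ∃ x, P = pt T x ∧ MvPolynomial.eval x Q = 0

/-- The Zariski closure in `X` of a subset `S` of `X`. -/
def zariskiClosureIn {ι : Type} {T : Subgroup (ι → ℂˣ)} (X S : Set (Orbits T)) :
    Set (Orbits T) :=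
  {P | P ∈ X ∧ ∀ Q : MvPolynomial ι ℂ, IsTHomogeneous T Q → (∀ s ∈ S, VanishesAt Q s) →
    VanishesAt Q P}

/-- `X` is irreducible: it is not the union of two proper Zariski closed subsets. -/
def IsIrreducibleSet {ι : Type} {T : Subgroup (ι → ℂˣ)} (X : Set (Orbits T)) : Prop :=
  ∀ S S' : Set (Orbits T), zariskiClosureIn X S = S → zariskiClosureIn X S' = S' →
    X = S ∪ S' → X = S ∨ X = S'

/-- The map `f` to the toric variety is holomorphic at `z`: near `z`, and after a substitution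
`z + ζ ^ n` (needed at orbifold points, where `f` may have no holomorphic lift), it is given by
holomorphic homogeneous coordinates with admissible support at `ζ = 0`. -/
def HolomorphicAt {ι : Type} [Fintype ι] {T : Subgroup (ι → ℂˣ)} (U : Set (Set ι))
    (f : ℂ → Orbits T) (z : ℂ) : Prop :=
  ∃ (n : ℕ) (ψ : ℂ → (ι → ℂ)), 1 ≤ n ∧ AnalyticAt ℂ ψ 0 ∧ supp (ψ 0) ∈ U ∧
    ∀ᶠ ζ in 𝓝 (0 : ℂ), f (z + ζ ^ n) = pt T (ψ ζ)

/-- `Sp_h(X)`: the Zariski closure in `X` of the union of the images of the non-constant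
holomorphic maps `ℂ → X`. -/
def SpH {ι : Type} [Fintype ι] {T : Subgroup (ι → ℂˣ)} (U : Set (Set ι)) (X : Set (Orbits T)) :
    Set (Orbits T) :=
  zariskiClosureIn X {P | ∃ f : ℂ → Orbits T, (∀ z, HolomorphicAt U f z) ∧ (∀ z, f z ∈ X) ∧
    (∃ z w, f z ≠ f w) ∧ ∃ z, f z = P}

/-- `Sp_p(X)`: the Zariski closure in `X` of the union of the images of the holomorphic maps
from the punctured unit disc to `X` which take two different values on two sequences that tend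
to `0`; such a map has no continuous extension to the disc, with values in any Hausdorff space
that contains `X`, so it has an essential singularity at `0`. -/
def SpP {ι : Type} [Fintype ι] {T : Subgroup (ι → ℂˣ)} (U : Set (Set ι)) (X : Set (Orbits T)) :
    Set (Orbits T) :=
  zariskiClosureIn X {P | ∃ f : ℂ → Orbits T,
    (∀ z, 0 < ‖z‖ → ‖z‖ < 1 → HolomorphicAt U f z ∧ f z ∈ X) ∧
    (∃ P₁ P₂ : Orbits T, P₁ ≠ P₂ ∧ (∃ᶠ z in 𝓝[≠] (0 : ℂ), f z = P₁) ∧
      ∃ᶠ z in 𝓝[≠] (0 : ℂ), f z = P₂) ∧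
    ∃ z, 0 < ‖z‖ ∧ ‖z‖ < 1 ∧ f z = P}

/-- The group `{(u ^ a i)}`, whose quotient is the weighted projective space `P(a)`. -/
def weightedGroup {ι : Type} (a : ι → ℕ) : Subgroup (ι → ℂˣ) where
  carrier := {g | ∃ u : ℂˣ, g = fun i => u ^ a i}
  mul_mem' := by
    rintro _ _ ⟨u, rfl⟩ ⟨v, rfl⟩
    exact ⟨u * v, by funext i; simp [mul_pow]⟩
  one_mem' := ⟨1, by funext i; simp⟩
  inv_mem' := by
    rintro _ ⟨u, rfl⟩
    exact ⟨u⁻¹, by funext i; simp⟩

/-! ### Basic lemmas -/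

lemma pt_eq_iff {ι : Type} {T : Subgroup (ι → ℂˣ)} {x y : ι → ℂ} :
    pt T x = pt T y ↔ ∃ g ∈ T, ∀ i, y i = (g i : ℂ) * x i :=
  Quotient.eq (r := orbitSetoid T)

lemma supp_eq_of_pt_eq {ι : Type} {T : Subgroup (ι → ℂˣ)} {x y : ι → ℂ}
    (h : pt T x = pt T y) : supp x = supp y := by
  obtain ⟨g, -, hg⟩ := pt_eq_iff.mp h
  ext i
  simp only [supp, Set.mem_ofPred_eq]
  rw [hg i]
  simp

lemma eval_eq_zero_of_pt_eq {ι : Type} {T : Subgroup (ι → ℂˣ)} {x y : ι → ℂ}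
    (h : pt T x = pt T y) {Q : MvPolynomial ι ℂ} (hQ : IsTHomogeneous T Q)
    (hx : MvPolynomial.eval x Q = 0) : MvPolynomial.eval y Q = 0 := by
  obtain ⟨g, hgT, hg⟩ := pt_eq_iff.mp h
  obtain ⟨χ, -, hχ⟩ := hQ g hgT
  have h1 : y = fun i => (g i : ℂ) * x i := funext hg
  rw [h1, hχ, hx, mul_zero]

lemma zariskiClosureIn_mono {ι : Type} {T : Subgroup (ι → ℂˣ)} {X S S' : Set (Orbits T)}
    (h : S ⊆ S') : zariskiClosureIn X S ⊆ zariskiClosureIn X S' :=
  fun _ hP => ⟨hP.1, fun Q hQ hT => hP.2 Q hQ fun s hs => hT s (h hs)⟩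

lemma zariskiClosureIn_idem {ι : Type} {T : Subgroup (ι → ℂˣ)} (X S : Set (Orbits T)) :
    zariskiClosureIn X (zariskiClosureIn X S) = zariskiClosureIn X S := by
  apply Set.Subset.antisymm
  · rintro P ⟨hP, h⟩
    exact ⟨hP, fun Q hQ hS => h Q hQ fun s hs => hs.2 Q hQ hS⟩
  · rintro P hP
    exact ⟨hP.1, fun Q _ hS => hS P hP⟩

end Pool.Agent.H6.Toric
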