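import Mathlib
import Pool.Agent.H6.Toric.Data

/-!
# Curves in the quotient by several reflections
-/

set_option autoImplicit false

open Polynomial

namespace Pool.Agent.H6.Toric

variable {ι : Type*} {K : Type*}

/-- A product of powers of polynomials with constant terms `1` is `1` only if they are `1`. -/
lemma eq_one_of_prod_eq_one [DecidableEq K] {s : Finset K} {F : K → ℂ[X]} {m : K → ℕ}
    (hF : ∀ k, (F k).coeff 0 = 1) (hm : ∀ k, 1 ≤ m k) (h : ∏ k ∈ s, F k ^ m k = 1) :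
    ∀ k ∈ s, F k = 1 := by
  intro k hk
  rw [← Finset.mul_prod_erase s _ hk] at h
  obtain ⟨l, hl⟩ := Nat.exists_eq_add_of_le (hm k)
  rw [hl, pow_add, pow_one, mul_assoc] at h
  exact eq_one_of_mul_eq_one (hF k) h

/-- A curve in the quotient by reflections: the coordinates `y i` with `R i` are products of
powers of normalised polynomials `F k`, of degree at most `n k`. -/
theorem exists_downstairs [Fintype ι] [DecidableEq ι] [Fintype K] {c : ℕ}
    (T : Subgroup (ι → ℂˣ)) (ρ b : ι → ℕ) (hρ : ∀ i, 1 ≤ ρ i) (R : ι → Prop) [DecidablePred R]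
    (o : K → ι) (n m : K → ℕ) (hm : ∀ k, 1 ≤ m k) (ho : ∀ k, R (o k))
    (hmn : ∀ i, R i → ∑ k with o k = i, m k * n k ≤ ρ i * b i) (hρR : ∀ i, ¬ R i → ρ i = 1)
    (e : Fin c → ℕ) (G : Fin c → MvPolynomial ι ℂ)
    (hdvd : ∀ j, ∀ u ∈ (G j).support, ∀ i, ρ i ∣ u i)
    (hG : ∀ j, MvPolynomial.IsWeightedHomogeneous b (G j) (e j))
    (hcount : ∑ j, e j + 1 < ∑ i, (if R i then 0 else b i) + ∑ k, n k)
    (x : ι → ℂ) (hxR : ∀ i, R i → x i ≠ 0) (hx : ∀ j, MvPolynomial.eval x (G j) = 0)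
    (ℓ : ι) (hbℓ : 1 ≤ b ℓ) (hxℓ : x ℓ ≠ 0) (hind : IndecomposableR T ρ b x) :
    ∃ (y : ι → ℂ[X]) (F : K → ℂ[X]), (∀ k, (F k).natDegree ≤ n k) ∧ (∀ k, (F k).coeff 0 = 1) ∧
      (∀ i, R i → y i = C (x i ^ ρ i) * ∏ k with o k = i, F k ^ m k) ∧
      (∀ i, ¬ R i → (y i).natDegree ≤ b i) ∧ (∀ i, (y i).coeff 0 = x i ^ ρ i) ∧
      (∀ j, MvPolynomial.aeval y (contract ρ (G j)) = 0) ∧
      {t : ℂ | ∃ a ∈ T, ∀ i, (y i).eval t = ((a i : ℂ) * x i) ^ ρ i}.Finite := by
  classical
  -- unknowns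
  let b' : ι → ℕ := fun i => if R i then 0 else b i
  let τ := (Σ i : ι, Fin (b' i)) ⊕ (Σ k : K, Fin (n k))
  let f : (τ → ℂ) → K → ℂ[X] := fun s k => spec (n k) 1 (fun l => (Sum.inr ⟨k, l⟩ : τ)) s
  let S : (i : ι) → ℂ → (τ → ℂ) → ℂ[X] := fun i z s =>
    spec (b' i) z (fun k => (Sum.inl ⟨i, k⟩ : τ)) s
  let Y : ι → Polynomial (MvPolynomial τ ℂ) := fun i =>
    if R i then Polynomial.C (MvPolynomial.C (x i ^ ρ i)) *
      ∏ k with o k = i, (unk (n k) 1 (fun l => (Sum.inr ⟨k, l⟩ : τ))) ^ m k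
    else unk (b' i) (x i) (fun k => (Sum.inl ⟨i, k⟩ : τ))
  let y : (τ → ℂ) → ι → ℂ[X] := fun s i =>
    if R i then C (x i ^ ρ i) * ∏ k with o k = i, (f s k) ^ m k else S i (x i) s
  have hYy : ∀ s i, (Y i).map (MvPolynomial.eval s) = y s i := by
    intro s i
    simp only [Y, y]
    split_ifs with h
    · simp only [Polynomial.map_mul, Polynomial.map_prod, Polynomial.map_pow, map_unk, f,
        Polynomial.map_C, MvPolynomial.eval_C]
    · exact map_unk _ _ _ _
  have hyR : ∀ s i, R i → y s i = C (x i ^ ρ i) * ∏ k with o k = i, (f s k) ^ m k := by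
    intro s i hi
    simp only [y, if_pos hi]
  have hyi : ∀ s i, ¬ R i → y s i = S i (x i) s := by
    intro s i hi
    simp only [y, if_neg hi]
  have hf0 : ∀ s k, (f s k).coeff 0 = 1 := fun s k => coeff_spec_zero _ _ _ _
  have hfd : ∀ s k, (f s k).natDegree ≤ n k := fun s k => natDegree_spec_le _ _ _ _
  have hy0 : ∀ s i, (y s i).coeff 0 = x i ^ ρ i := by
    intro s i
    by_cases h : R i
    · rw [hyR s i h, coeff_zero_eq_eval_zero, eval_mul, eval_C, eval_prod]
      have h1 : ∀ k, ((f s k) ^ m k).eval 0 = 1 := by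
        intro k
        rw [eval_pow, ← coeff_zero_eq_eval_zero, hf0, one_pow]
      rw [Finset.prod_congr rfl fun k _ => h1 k]
      simp
    · rw [hyi s i h, hρR i h, pow_one]
      exact coeff_spec_zero _ _ _ _
  have hydeg : ∀ s i, (y s i).natDegree ≤ ρ i * b i := by
    intro s i
    by_cases h : R i
    · rw [hyR s i h]
      refine (natDegree_C_mul_le _ _).trans ((natDegree_prod_le _ _).trans ?_)
      refine le_trans (Finset.sum_le_sum fun k _ => ?_) (hmn i h)
      exact natDegree_pow_le.trans (Nat.mul_le_mul_left _ (hfd s k))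
    · rw [hyi s i h, hρR i h, one_mul]
      refine (natDegree_spec_le _ _ _ _).trans ?_
      simp [b', h]
  have hy00 : ∀ i, y 0 i = C (x i ^ ρ i) := by
    intro i
    by_cases h : R i
    · rw [hyR 0 i h]
      have h1 : ∀ k, (f 0 k) ^ m k = 1 := by
        intro k
        simp only [f]
        rw [spec_zero, C_1, one_pow]
      rw [Finset.prod_congr rfl fun k _ => h1 k]
      simp
    · rw [hyi 0 i h, hρR i h, pow_one]
      exact spec_zero _ _ _
  have hcard : ∑ j, e j + 1 < Nat.card τ := by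
    have h1 : Nat.card τ = ∑ i, b' i + ∑ k, n k := by
      simp [τ, Nat.card_eq_fintype_card]
    rw [h1]
    exact hcount
  obtain ⟨s, hs0, hsG, hsw⟩ := exists_of_count (fun i => ρ i * b i) e Y (fun i => x i ^ ρ i)
    (fun i => by rw [hYy, hy00]) (fun s i => by rw [hYy, hy0]) (fun s i => by rw [hYy]; exact hydeg s i)
    (fun j => contract ρ (G j)) (fun j => contract_weight_le ρ b (G j) (hdvd j) (hG j))
    (fun j => by rw [eval_contract ρ (G j) (hdvd j) x _ fun i => rfl]; exact hx j) ℓ hcard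
  simp only [hYy] at hsG hsw
  -- the curve is not trivial
  have hnontriv : ¬ ∃ γ : ℂ, ∀ i, y s i = C (x i ^ ρ i) * (1 - C γ * X) ^ (ρ i * b i) := by
    rintro ⟨γ, hγ⟩
    have hγ0 : γ = 0 := by
      rw [hγ ℓ] at hsw
      have h3 : ((C (x ℓ ^ ρ ℓ) * (1 - C γ * X) ^ (ρ ℓ * b ℓ) : ℂ[X])).coeff 1 =
          -(x ℓ ^ ρ ℓ * (ρ ℓ * b ℓ : ℕ) * γ) := by
        have h4 : ((C (x ℓ ^ ρ ℓ) * (1 - C γ * X) ^ (ρ ℓ * b ℓ) : ℂ[X])).coeff 1 =
            (derivative (C (x ℓ ^ ρ ℓ) * (1 - C γ * X) ^ (ρ ℓ * b ℓ) : ℂ[X])).eval 0 := by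
          rw [← coeff_zero_eq_eval_zero, coeff_derivative]
          simp
        rw [h4]
        simp [derivative_pow]
        ring
      rw [h3, neg_eq_zero] at hsw
      rcases mul_eq_zero.mp hsw with h5 | h5
      · rcases mul_eq_zero.mp h5 with h6 | h6
        · exact absurd h6 (pow_ne_zero _ hxℓ)
        · have h7 := Nat.cast_eq_zero.mp h6
          rcases Nat.mul_eq_zero.mp h7 with h8 | h8
          · have := hρ ℓ
            omega
          · omega
      · exact h5
    subst hγ0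
    apply hs0
    have key : ∀ (i : ι) (z : ℂ), S i z s = C z → ∀ k : Fin (b' i), s (Sum.inl ⟨i, k⟩) = 0 := by
      intro i z h k
      have h1 : spec (b' i) z (fun k => (Sum.inl ⟨i, k⟩ : τ)) s = C z := h
      exact eq_zero_of_spec_eq_C h1 k
    have key2 : ∀ (k : K) (l : Fin (n k)), s (Sum.inr ⟨k, l⟩) = 0 := by
      intro k l
      have h1 := hγ (o k)
      rw [hyR s (o k) (ho k)] at h1
      have h2 : (C (x (o k) ^ ρ (o k)) : ℂ[X]) ≠ 0 := by
        rw [Ne, C_eq_zero]
        exact pow_ne_zero _ (hxR _ (ho k))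
      have h3 : ∏ k' with o k' = o k, (f s k') ^ m k' = 1 := by
        apply mul_left_cancel₀ h2
        rw [h1]
        simp
      have h4 := eq_one_of_prod_eq_one (hf0 s) hm h3 k (by simp)
      have h5 : spec (n k) (1 : ℂ) (fun l => (Sum.inr ⟨k, l⟩ : τ)) s = C 1 := by
        rw [C_1]
        exact h4
      exact eq_zero_of_spec_eq_C h5 l
    funext u
    rcases u with ⟨i, k⟩ | ⟨k, l⟩
    · show s (Sum.inl ⟨i, k⟩) = 0
      by_cases h : R i
      · have hk := k.2
        simp [b', h] at hk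
      · have h1 := hγ i
        rw [hyi s i h, hρR i h, pow_one] at h1
        have h2 : S i (x i) s = C (x i) := by
          rw [h1]
          simp
        exact key i (x i) h2 k
    · exact key2 k l
  refine ⟨y s, f s, hfd s, hf0 s, hyR s, ?_, hy0 s, hsG, ?_⟩
  · intro i hi
    have := hydeg s i
    rwa [hρR i hi, one_mul] at this
  · by_contra hinf
    exact hnontriv (trivial_of_infinite T ρ b hρ x hind (y s) (hydeg s) (hy0 s) hinf)

end Pool.Agent.H6.Toric
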