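import Mathlib
import Pool.Agent.H6.Toric.Defs

/-!
# Extension of holomorphic curves into complete toric varieties
-/

set_option autoImplicit false

open Filter Topology

namespace Pool.Agent.H6.Toric

variable {ι : Type} [Fintype ι]

lemma tendsto_pow_punctured {n : ℕ} (hn : 1 ≤ n) (z : ℂ) :
    Tendsto (fun ζ : ℂ => z + ζ ^ n) (𝓝[≠] 0) (𝓝[≠] z) := by
  rw [tendsto_nhdsWithin_iff]
  constructor
  · have h1 : Tendsto (fun ζ : ℂ => z + ζ ^ n) (𝓝 0) (𝓝 (z + 0 ^ n)) :=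
      Continuous.tendsto (by fun_prop) 0
    rw [zero_pow (by omega), add_zero] at h1
    exact h1.mono_left nhdsWithin_le_nhds
  · filter_upwards [self_mem_nhdsWithin] with ζ hζ
    rw [Set.mem_compl_iff, Set.mem_singleton_iff] at hζ ⊢
    intro h
    exact pow_ne_zero n hζ (by linear_combination h)

/-- A germ of an analytic curve with admissible generic support has, after a ramified
substitution and multiplication by a one-parameter subgroup, a limit with admissible support. -/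
lemma exists_limit {T : Subgroup (ι → ℂˣ)} {U : Set (Set ι)} (hU : IsCompleteToric T U)
    {φ : ℂ → (ι → ℂ)} {z : ℂ} (hφ : AnalyticAt ℂ φ z)
    (hsupp : ∀ᶠ y in 𝓝[≠] z, supp (φ y) ∈ U) :
    ∃ (n : ℕ) (ψ : ℂ → (ι → ℂ)), 1 ≤ n ∧ AnalyticAt ℂ ψ 0 ∧ supp (ψ 0) ∈ U ∧
      ∀ᶠ ζ in 𝓝[≠] (0 : ℂ), pt T (φ (z + ζ ^ n)) = pt T (ψ ζ) := by
  classical
  have hφi : ∀ i, AnalyticAt ℂ (fun y => φ y i) z := fun i => analyticAt_pi_iff.mp hφ i
  have hdich : ∀ i, (∀ᶠ y in 𝓝 z, φ y i = 0) ∨ ∃ (k : ℕ) (h : ℂ → ℂ), AnalyticAt ℂ h z ∧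
      h z ≠ 0 ∧ ∀ᶠ y in 𝓝 z, φ y i = (y - z) ^ k * h y := by
    intro i
    by_cases h0 : ∀ᶠ y in 𝓝 z, φ y i = 0
    · exact Or.inl h0
    · right
      obtain ⟨k, h, h1, h2, h3⟩ := (hφi i).exists_eventuallyEq_pow_smul_nonzero_iff.mpr h0
      exact ⟨k, h, h1, h2, by simpa [smul_eq_mul] using h3⟩
  -- the exponents
  set S : Set ι := {i | ¬ ∀ᶠ y in 𝓝 z, φ y i = 0} with hS
  have hkh : ∀ i, ∃ (k : ℕ) (h : ℂ → ℂ), i ∈ S → (AnalyticAt ℂ h z ∧
      h z ≠ 0 ∧ ∀ᶠ y in 𝓝 z, φ y i = (y - z) ^ k * h y) := by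
    intro i
    rcases hdich i with h | ⟨k, h, h1⟩
    · exact ⟨0, fun _ => 0, fun hi => absurd h hi⟩
    · exact ⟨k, h, fun _ => h1⟩
  choose k h hkh using hkh
  -- the generic support is `S`
  have hSU : S ∈ U := by
    have h1 : ∀ᶠ y in 𝓝[≠] z, supp (φ y) = S := by
      have h2 : ∀ i, ∀ᶠ y in 𝓝[≠] z, (φ y i ≠ 0 ↔ i ∈ S) := by
        intro i
        by_cases hi : i ∈ S
        · obtain ⟨h3, h4, h5⟩ := hkh i hi
          have h6 : ∀ᶠ y in 𝓝 z, h i y ≠ 0 := h3.continuousAt.eventually_ne h4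
          filter_upwards [h5.filter_mono nhdsWithin_le_nhds,
            h6.filter_mono nhdsWithin_le_nhds, self_mem_nhdsWithin] with y hy1 hy2 hy3
          refine ⟨fun _ => hi, fun _ => ?_⟩
          rw [hy1]
          exact mul_ne_zero (pow_ne_zero _ (sub_ne_zero.mpr hy3)) hy2
        · have h3 : ∀ᶠ y in 𝓝 z, φ y i = 0 := by
            by_contra hcon
            exact hi hcon
          filter_upwards [h3.filter_mono nhdsWithin_le_nhds] with y hy
          exact ⟨fun h => absurd hy h, fun h => absurd h hi⟩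
      filter_upwards [eventually_all.mpr h2] with y hy
      ext i
      exact hy i
    obtain ⟨y, hy1, hy2⟩ := (h1.and hsupp).exists
    rw [← hy1]
    exact hy2
  obtain ⟨n, μ, hn, hμT, hμ, hμU⟩ := hU.2 S hSU k
  -- the new germ
  set ψ : ℂ → (ι → ℂ) := fun ζ i =>
    if i ∈ S then ζ ^ ((n : ℤ) * k i - μ i).toNat * h i (z + ζ ^ n) else 0 with hψ
  have hz0 : z + (0 : ℂ) ^ n = z := by rw [zero_pow (by omega), add_zero]
  refine ⟨n, ψ, hn, ?_, ?_, ?_⟩
  · rw [analyticAt_pi_iff]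
    intro i
    by_cases hi : i ∈ S
    · simp only [hψ, if_pos hi]
      have h1 : AnalyticAt ℂ (fun ζ : ℂ => z + ζ ^ n) 0 := by fun_prop
      have h2 : AnalyticAt ℂ (h i) (z + (0 : ℂ) ^ n) := by
        rw [hz0]
        exact (hkh i hi).1
      have h3 : AnalyticAt ℂ (fun ζ : ℂ => h i (z + ζ ^ n)) 0 := AnalyticAt.fun_comp h2 h1
      exact AnalyticAt.mul (by fun_prop) h3
    · simp only [hψ, if_neg hi]
      exact analyticAt_const
  · have h1 : supp (ψ 0) = {i | i ∈ S ∧ μ i = (n : ℤ) * k i} := by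
      ext i
      simp only [supp, Set.mem_ofPred_eq, hψ]
      by_cases hi : i ∈ S
      · simp only [if_pos hi, hz0]
        have h2 := (hkh i hi).2.1
        have h3 := hμ i hi
        constructor
        · intro h4
          refine ⟨hi, ?_⟩
          by_contra h5
          apply h4
          rw [zero_pow (by omega), zero_mul]
        · rintro ⟨-, h5⟩
          rw [h5, sub_self, Int.toNat_zero, pow_zero, one_mul]
          exact h2
      · simp [hi]
    rw [h1]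
    exact hμU
  · have h1 : ∀ i, i ∈ S → ∀ᶠ ζ in 𝓝[≠] (0 : ℂ),
        φ (z + ζ ^ n) i = (ζ ^ n) ^ k i * h i (z + ζ ^ n) := by
      intro i hi
      have h2 := (tendsto_pow_punctured hn z).eventually
        ((hkh i hi).2.2.filter_mono nhdsWithin_le_nhds)
      filter_upwards [h2] with ζ hζ
      rw [hζ, add_sub_cancel_left]
    have h2 : ∀ i, i ∉ S → ∀ᶠ ζ in 𝓝[≠] (0 : ℂ), φ (z + ζ ^ n) i = 0 := by
      intro i hi
      have h3 : ∀ᶠ y in 𝓝 z, φ y i = 0 := by
        by_contra hcon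
        exact hi hcon
      exact (tendsto_pow_punctured hn z).eventually (h3.filter_mono nhdsWithin_le_nhds)
    have h3 : ∀ᶠ ζ in 𝓝[≠] (0 : ℂ), ∀ i, (i ∈ S →
        φ (z + ζ ^ n) i = (ζ ^ n) ^ k i * h i (z + ζ ^ n)) ∧ (i ∉ S → φ (z + ζ ^ n) i = 0) := by
      rw [eventually_all]
      intro i
      by_cases hi : i ∈ S
      · filter_upwards [h1 i hi] with ζ hζ
        exact ⟨fun _ => hζ, fun h => absurd hi h⟩
      · filter_upwards [h2 i hi] with ζ hζ
        exact ⟨fun h => absurd h hi, fun _ => hζ⟩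
    filter_upwards [h3, self_mem_nhdsWithin] with ζ hζ hζ0
    have hζ0' : ζ ≠ 0 := hζ0
    rw [pt_eq_iff]
    refine ⟨_, hμT (Units.mk0 ζ hζ0')⁻¹, fun i => ?_⟩
    by_cases hi : i ∈ S
    · simp only [hψ, if_pos hi]
      rw [(hζ i).1 hi]
      have h4 := hμ i hi
      have h5 : ((((Units.mk0 ζ hζ0')⁻¹ ^ μ i : ℂˣ)) : ℂ) = ζ ^ (-μ i) := by
        rw [inv_zpow', Units.val_zpow_eq_zpow_val, Units.val_mk0]
      rw [h5, ← mul_assoc]
      congr 1
      rw [← pow_mul, ← zpow_natCast, ← zpow_natCast, ← zpow_add₀ hζ0']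
      congr 1
      push_cast
      omega
    · simp only [hψ, if_neg hi]
      rw [(hζ i).2 hi, mul_zero]

/-- **Extension.**  If the orbits of `F y` have local analytic representatives near the points of
`D`, and near every point `z` of `D` the vectors `F y`, `y ≠ z`, have admissible support and
satisfy the equations, then there is a holomorphic curve in `X` that extends `y ↦ [F y]`. -/
theorem exists_extension {T : Subgroup (ι → ℂˣ)} {U : Set (Set ι)} (hU : IsCompleteToric T U)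
    {c : ℕ} {G : Fin c → MvPolynomial ι ℂ} (hG : ∀ j, IsTHomogeneous T (G j))
    (D : Set ℂ) (F : ℂ → (ι → ℂ))
    (hF : ∀ z ∈ D, ∃ φ : ℂ → (ι → ℂ), AnalyticAt ℂ φ z ∧ (∀ᶠ y in 𝓝 z, pt T (F y) = pt T (φ y)) ∧
      ∀ᶠ y in 𝓝[≠] z, supp (F y) ∈ U ∧ ∀ j, MvPolynomial.eval (F y) (G j) = 0) :
    ∃ f : ℂ → Orbits T, (∀ z ∈ D, HolomorphicAt U f z ∧ f z ∈ subvariety T U G) ∧
      ∀ z, supp (F z) ∈ U → f z = pt T (F z) := by
  classical
  -- local limits
  have hlim : ∀ z ∈ D, ∃ (n : ℕ) (ψ : ℂ → (ι → ℂ)), 1 ≤ n ∧ AnalyticAt ℂ ψ 0 ∧ supp (ψ 0) ∈ U ∧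
      (∀ᶠ ζ in 𝓝[≠] (0 : ℂ), pt T (F (z + ζ ^ n)) = pt T (ψ ζ)) ∧
      (supp (F z) ∈ U → pt T (F z) = pt T (ψ 0)) := by
    intro z hz
    obtain ⟨φ, h1, h2, h3⟩ := hF z hz
    by_cases hz2 : supp (F z) ∈ U
    · refine ⟨1, fun ζ => φ (z + ζ), le_rfl, ?_, ?_, ?_, ?_⟩
      · have h4 : AnalyticAt ℂ φ (z + 0) := by rw [add_zero]; exact h1
        exact AnalyticAt.fun_comp h4 (by fun_prop)
      · have h4 := supp_eq_of_pt_eq h2.self_of_nhds
        simp only [add_zero]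
        rw [← h4]
        exact hz2
      · have h4 := (tendsto_pow_punctured (le_refl 1) z).eventually
          (h2.filter_mono nhdsWithin_le_nhds)
        filter_upwards [h4] with ζ hζ
        rw [hζ, pow_one]
      · intro _
        simp only [add_zero]
        exact h2.self_of_nhds
    · have h4 : ∀ᶠ y in 𝓝[≠] z, supp (φ y) ∈ U := by
        filter_upwards [h2.filter_mono nhdsWithin_le_nhds, h3] with y hy1 hy2
        rw [← supp_eq_of_pt_eq hy1]
        exact hy2.1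
      obtain ⟨n, ψ, h5, h6, h7, h8⟩ := exists_limit hU h1 h4
      refine ⟨n, ψ, h5, h6, h7, ?_, fun h => absurd h hz2⟩
      have h9 := (tendsto_pow_punctured h5 z).eventually
        (h2.filter_mono nhdsWithin_le_nhds)
      filter_upwards [h8, h9] with ζ hζ1 hζ2
      rw [hζ2, hζ1]
  have hlim' : ∀ z, ∃ (n : ℕ) (ψ : ℂ → (ι → ℂ)), z ∈ D → (1 ≤ n ∧ AnalyticAt ℂ ψ 0 ∧
      supp (ψ 0) ∈ U ∧ (∀ᶠ ζ in 𝓝[≠] (0 : ℂ), pt T (F (z + ζ ^ n)) = pt T (ψ ζ)) ∧
      (supp (F z) ∈ U → pt T (F z) = pt T (ψ 0))) := by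
    intro z
    by_cases hz : z ∈ D
    · obtain ⟨n, ψ, h⟩ := hlim z hz
      exact ⟨n, ψ, fun _ => h⟩
    · exact ⟨0, fun _ => 0, fun h => absurd h hz⟩
  choose n ψ hψ using hlim'
  refine ⟨fun z => if supp (F z) ∈ U then pt T (F z) else pt T (ψ z 0), ?_, ?_⟩
  · intro z hz
    obtain ⟨h1, h2, h3, h4, h5⟩ := hψ z hz
    obtain ⟨φ, g1, g2, g3⟩ := hF z hz
    have hval : (if supp (F z) ∈ U then pt T (F z) else pt T (ψ z 0)) = pt T (ψ z 0) := by
      split_ifs with h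
      · exact h5 h
      · rfl
    constructor
    · refine ⟨n z, ψ z, h1, h2, h3, ?_⟩
      have h6 := (tendsto_pow_punctured h1 z).eventually g3
      have h7 : ∀ᶠ ζ in 𝓝[≠] (0 : ℂ), (if supp (F (z + ζ ^ n z)) ∈ U then pt T (F (z + ζ ^ n z))
          else pt T (ψ (z + ζ ^ n z) 0)) = pt T (ψ z ζ) := by
        filter_upwards [h4, h6] with ζ hζ1 hζ2
        rw [if_pos hζ2.1, hζ1]
      rw [eventually_nhdsWithin_iff] at h7
      filter_upwards [h7] with ζ hζ
      by_cases h0 : ζ = 0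
      · subst h0
        have h8 : z + (0 : ℂ) ^ n z = z := by rw [zero_pow (by omega), add_zero]
        rw [h8]
        exact hval
      · exact hζ h0
    · show (if supp (F z) ∈ U then pt T (F z) else pt T (ψ z 0)) ∈ subvariety T U G
      rw [hval]
      refine ⟨ψ z 0, rfl, h3, fun j => ?_⟩
      have h6 := (tendsto_pow_punctured h1 z).eventually g3
      have h7 : ∀ᶠ ζ in 𝓝[≠] (0 : ℂ), MvPolynomial.eval (ψ z ζ) (G j) = 0 := by
        filter_upwards [h4, h6] with ζ hζ1 hζ2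
        exact eval_eq_zero_of_pt_eq hζ1 (hG j) (hζ2.2 j)
      have h8 : ContinuousAt (fun ζ => MvPolynomial.eval (ψ z ζ) (G j)) 0 :=
        ((MvPolynomial.continuous_eval (G j)).continuousAt).comp h2.continuousAt
      have h9 : Tendsto (fun ζ => MvPolynomial.eval (ψ z ζ) (G j)) (𝓝[≠] 0)
          (𝓝 (MvPolynomial.eval (ψ z 0) (G j))) := h8.tendsto.mono_left nhdsWithin_le_nhds
      exact tendsto_nhds_unique h9 (tendsto_const_nhds.congr' (h7.mono fun ζ hζ => hζ.symm))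
  · intro z hz
    simp only [if_pos hz]

end Pool.Agent.H6.Toric
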