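import Mathlib
import Pool.Agent.H6.Toric.Extend
import Pool.Agent.H6.Toric.Data
import Pool.Agent.H84.CurveFlow

/-!
# Entire curves from curves of genus at most one
-/

set_option autoImplicit false

open Filter Topology Polynomial

namespace Pool.Agent.H6.Toric

open Pool.Agent.H84.Curve (Pt SolA SolB LocSol FA FB mkB mkB_injective exists_solA exists_solB
  eqOn_of_preconnected)

section Flow

variable {p κ : ℕ} {g : ℂ[X]}

/-- A solution that starts at a point with `v₀ ≠ 0` is nowhere locally constant. -/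
lemma not_locally_const (hκ : κ * p = 2) (hg : g.natDegree ≤ κ + 2) {f : ℂ → Pt}
    (hf : ∀ z, LocSol p κ g f z) {t₀ v₀ : ℂ} (h0 : f 0 = Sum.inl (t₀, v₀)) (hv : v₀ ≠ 0) (z : ℂ) :
    ¬ ∀ᶠ y in 𝓝 z, f y = f z := by
  intro hconst
  rcases hfz : f z with a | b
  · obtain ⟨u, hu⟩ := exists_solA hκ hg (hf z) hfz
    have hua : ∀ᶠ y in 𝓝 z, u y = a := by
      filter_upwards [hu, hconst] with y hy1 hy2
      exact Sum.inl_injective (hy1.2.2.symm.trans (hy2.trans hfz))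
    have h1 := hu.self_of_nhds
    have h2 : HasDerivAt u 0 z := by
      refine (hasDerivAt_const z a).congr_of_eventuallyEq ?_
      exact hua
    have h3 : FA p g a = 0 := by
      rw [← hua.self_of_nhds]
      exact h1.1.unique h2
    have hh : ∀ y, LocSol p κ g (fun _ => (Sum.inl a : Pt)) y := by
      intro y
      left
      refine ⟨fun _ => a, Eventually.of_forall fun y' => ⟨?_, ?_, rfl⟩⟩
      · rw [h3]
        exact hasDerivAt_const y' a
      · have h4 := h1.2.1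
        rw [hua.self_of_nhds] at h4
        exact h4
    have h5 := eqOn_of_preconnected hκ hg isPreconnected_univ (fun z _ => hf z)
      (fun z _ => hh z) (Set.mem_univ z) hfz 0 (Set.mem_univ 0)
    rw [h0] at h5
    have h6 : (t₀, v₀) = a := Sum.inl_injective h5
    rw [← h6] at h3
    have h7 := congrArg Prod.fst h3
    exact hv (pow_eq_zero_iff (by rintro rfl; simp at hκ) |>.mp h7)
  · obtain ⟨u, hu, huz⟩ := exists_solB (hf z) hfz
    have hmk : mkB κ (0, b) = Sum.inr b := by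
      unfold mkB
      rw [if_pos rfl]
    have hua : ∀ᶠ y in 𝓝 z, u y = (0, b) := by
      filter_upwards [hu, hconst] with y hy1 hy2
      apply mkB_injective (κ := κ)
      rw [← hy1.2.2, hy2, hfz, hmk]
    have h1 := hu.self_of_nhds
    have h2 : HasDerivAt u 0 z := by
      refine (hasDerivAt_const z ((0, b) : ℂ × ℂ)).congr_of_eventuallyEq ?_
      exact hua
    have h3 : FB p κ g (0, b) = 0 := by
      rw [← hua.self_of_nhds]
      exact h1.1.unique h2
    have hh : ∀ y, LocSol p κ g (fun _ => (Sum.inr b : Pt)) y := by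
      intro y
      right
      refine ⟨fun _ => (0, b), Eventually.of_forall fun y' => ⟨?_, ?_, hmk.symm⟩⟩
      · rw [h3]
        exact hasDerivAt_const y' _
      · have h4 := h1.2.1
        rw [hua.self_of_nhds] at h4
        exact h4
    have h5 := eqOn_of_preconnected hκ hg isPreconnected_univ (fun z _ => hf z)
      (fun z _ => hh z) (Set.mem_univ z) hfz 0 (Set.mem_univ 0)
    rw [h0] at h5
    exact Sum.inl_ne_inr h5

lemma analyticAt_of_hasDerivAt {u : ℂ → ℂ × ℂ} {F : ℂ × ℂ → ℂ × ℂ} {z : ℂ}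
    (hu : ∀ᶠ y in 𝓝 z, HasDerivAt u (F (u y)) y) : AnalyticAt ℂ u z := by
  rw [Complex.analyticAt_iff_eventually_differentiableAt]
  filter_upwards [hu] with y hy using hy.differentiableAt

/-- If the first coordinate of a solution is locally constant and its derivative is `± v ^ p`,
the solution is locally constant. -/
lemma coord_ne {u : ℂ → ℂ × ℂ} {F : ℂ × ℂ → ℂ × ℂ} {z : ℂ}
    (hu : ∀ᶠ y in 𝓝 z, HasDerivAt u (F (u y)) y) (hp : ∀ a, (F a).1 = 0 → a.2 = 0)
    (hnc : ¬ ∀ᶠ y in 𝓝 z, u y = u z) (s : ℂ) : ∀ᶠ y in 𝓝[≠] z, (u y).1 ≠ s := by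
  have hua := analyticAt_of_hasDerivAt hu
  have hu1 : AnalyticAt ℂ (fun y => (u y).1 - s) z :=
    (analyticAt_fst.comp hua).sub analyticAt_const
  rcases hu1.eventually_eq_zero_or_eventually_ne_zero with h | h
  · exfalso
    apply hnc
    have h1 : ∀ᶠ y in 𝓝 z, u y = (s, 0) := by
      filter_upwards [hu, h.eventually_nhds] with y hy1 hy2
      have h2 : HasDerivAt (fun y => (u y).1) (F (u y)).1 y := hy1.fst
      have h3 : HasDerivAt (fun y => (u y).1) 0 y := by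
        refine (hasDerivAt_const y s).congr_of_eventuallyEq ?_
        filter_upwards [hy2] with y' hy'
        exact sub_eq_zero.mp hy'
      have h4 := hp _ (h2.unique h3)
      exact Prod.ext (sub_eq_zero.mp hy2.self_of_nhds) h4
    filter_upwards [h1] with y hy
    rw [hy, h1.self_of_nhds]
  · filter_upwards [h] with y hy hs
    exact hy (sub_eq_zero.mpr hs)

/-- Near every point, the solution is in the finite chart and avoids a given finite set. -/
lemma avoid (hκ : κ * p = 2) (hg : g.natDegree ≤ κ + 2) {f : ℂ → Pt}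
    (hf : ∀ z, LocSol p κ g f z) {t₀ v₀ : ℂ} (h0 : f 0 = Sum.inl (t₀, v₀)) (hv : v₀ ≠ 0)
    {E : Set ℂ} (hE : E.Finite) (z : ℂ) :
    ∀ᶠ y in 𝓝[≠] z, ∃ t v, f y = Sum.inl (t, v) ∧ t ∉ E := by
  have hp : p ≠ 0 := by rintro rfl; simp at hκ
  have hnc := not_locally_const hκ hg hf h0 hv z
  rcases hf z with ⟨u, hu⟩ | ⟨u, hu⟩
  · have h1 : ∀ s : ℂ, ∀ᶠ y in 𝓝[≠] z, (u y).1 ≠ s := by
      refine coord_ne (F := FA p g) (hu.mono fun y hy => hy.1) ?_ ?_
      · intro a ha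
        exact pow_eq_zero_iff hp |>.mp ha
      · intro h
        apply hnc
        filter_upwards [h, hu] with y hy1 hy2
        rw [hy2.2.2, hu.self_of_nhds.2.2, hy1]
    have h2 : ∀ᶠ y in 𝓝[≠] z, ∀ s ∈ E, (u y).1 ≠ s := (hE.eventually_all).mpr fun s _ => h1 s
    filter_upwards [h2, hu.filter_mono nhdsWithin_le_nhds] with y hy1 hy2
    refine ⟨(u y).1, (u y).2, hy2.2.2, fun h => hy1 _ h rfl⟩
  · have h1 : ∀ s : ℂ, ∀ᶠ y in 𝓝[≠] z, (u y).1 ≠ s := by
      refine coord_ne (F := FB p κ g) (hu.mono fun y hy => hy.1) ?_ ?_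
      · intro a ha
        exact pow_eq_zero_iff hp |>.mp (neg_eq_zero.mp ha)
      · intro h
        apply hnc
        filter_upwards [h, hu] with y hy1 hy2
        rw [hy2.2.2, hu.self_of_nhds.2.2, hy1]
    have h2 : ∀ᶠ y in 𝓝[≠] z, ∀ s ∈ E, (u y).1 ≠ s⁻¹ := (hE.eventually_all).mpr fun s _ => h1 s⁻¹
    filter_upwards [h2, h1 0, hu.filter_mono nhdsWithin_le_nhds] with y hy1 hy2 hy3
    refine ⟨(u y).1⁻¹, (u y).2 * (u y).1⁻¹ ^ κ, ?_, fun h => hy1 _ h (by rw [inv_inv])⟩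
    rw [hy3.2.2]
    unfold mkB
    rw [if_neg hy2]

end Flow

section Lift

variable {ι : Type} [Fintype ι] [DecidableEq ι] {c : ℕ} {κ p : ℕ} {w : ι}
  {T : Subgroup (ι → ℂˣ)} {B : ι → ℕ} {G : Fin c → MvPolynomial ι ℂ} {x : ι → ℂ}
  {P : ι → ℂ[X]} {Q g : ℂ[X]} {t₀ v₀ : ℂ}

/-- The coordinates in the chart at infinity. -/
noncomputable def coordsB (κ : ℕ) (w : ι) (B : ι → ℕ) (P : ι → ℂ[X]) (Q : ℂ[X]) (s v : ℂ) :
    ι → ℂ :=
  fun i => if i = w then (Q.reflect (B w - κ)).eval s * v else ((P i).reflect (B i)).eval s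

/-- The lift of a point of the completed curve. -/
noncomputable def lift (κ : ℕ) (w : ι) (B : ι → ℕ) (P : ι → ℂ[X]) (Q : ℂ[X]) : Pt → (ι → ℂ)
  | Sum.inl a => coords w P Q a.1 a.2
  | Sum.inr b => coordsB κ w B P Q 0 b

lemma eval_reflect {N : ℕ} {q : ℂ[X]} (hq : q.natDegree ≤ N) {s : ℂ} (hs : s ≠ 0) :
    (q.reflect N).eval s = s ^ N * q.eval s⁻¹ := by
  have hinv : Invertible (s⁻¹) := invertibleOfNonzero (inv_ne_zero hs)
  have h := eval₂_reflect_mul_pow (RingHom.id ℂ) (s⁻¹) N q hq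
  have h1 : ⅟(s⁻¹) = s := by
    rw [invOf_eq_inv, inv_inv]
  rw [h1] at h
  rw [← Polynomial.eval₂_id, ← Polynomial.eval₂_id, ← h]
  rw [mul_comm, mul_assoc, ← mul_pow, inv_mul_cancel₀ hs, one_pow, mul_one]

lemma pt_lift_mkB (hD : CurveData κ p w T B G x P Q g t₀ v₀)
    (hB : ∀ u : ℂˣ, (fun i => u ^ B i) ∈ T) (a : ℂ × ℂ) :
    pt T (lift κ w B P Q (mkB κ a)) = pt T (coordsB κ w B P Q a.1 a.2) := by
  unfold mkB
  split_ifs with h
  · show pt T (coordsB κ w B P Q 0 a.2) = _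
    rw [h]
  · show pt T (coords w P Q a.1⁻¹ (a.2 * a.1⁻¹ ^ κ)) = _
    rw [pt_eq_iff]
    refine ⟨_, hB (Units.mk0 a.1 h), fun i => ?_⟩
    by_cases hi : i = w
    · subst hi
      simp only [coordsB, coords, if_true]
      rw [eval_reflect hD.degQ h, Units.val_pow_eq_pow_val, Units.val_mk0]
      obtain ⟨k, hk⟩ := Nat.exists_eq_add_of_le hD.leB
      rw [hk, Nat.add_sub_cancel_left, inv_pow, pow_add]
      field_simp
    · simp only [coordsB, coords, if_neg hi]
      rw [eval_reflect (hD.degP i hi) h, Units.val_pow_eq_pow_val, Units.val_mk0]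

lemma analyticAt_eval (q : ℂ[X]) {h : ℂ → ℂ} {z : ℂ} (hh : AnalyticAt ℂ h z) :
    AnalyticAt ℂ (fun y => q.eval (h y)) z := by
  have h1 : AnalyticAt ℂ (fun y : ℂ => q.eval y) (h z) :=
    (q.differentiable.differentiableOn (s := Set.univ)).analyticAt Filter.univ_mem
  exact h1.comp hh

lemma analyticAt_coords (w : ι) (P : ι → ℂ[X]) (Q : ℂ[X]) {u : ℂ → ℂ × ℂ} {z : ℂ}
    (hu : AnalyticAt ℂ u z) : AnalyticAt ℂ (fun y => coords w P Q (u y).1 (u y).2) z := by
  rw [analyticAt_pi_iff]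
  intro i
  have hu1 : AnalyticAt ℂ (fun y => (u y).1) z := analyticAt_fst.comp hu
  have hu2 : AnalyticAt ℂ (fun y => (u y).2) z := analyticAt_snd.comp hu
  by_cases hi : i = w
  · simp only [coords, if_pos hi]
    exact (analyticAt_eval Q hu1).mul hu2
  · simp only [coords, if_neg hi]
    exact analyticAt_eval (P i) hu1

lemma coordsB_eq_coords (κ : ℕ) (w : ι) (B : ι → ℕ) (P : ι → ℂ[X]) (Q : ℂ[X]) (s v : ℂ) :
    coordsB κ w B P Q s v = coords w (fun i => (P i).reflect (B i)) (Q.reflect (B w - κ)) s v := by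
  funext i
  simp only [coordsB, coords]

/-- The points of the curve outside finitely many values of `t` are good. -/
theorem exists_bad (hD : CurveData κ p w T B G x P Q g t₀ v₀)
    {U : Set (Set ι)} (hU : IsCompleteToric T U) (hx : supp x ∈ U) :
    ∃ E : Set ℂ, E.Finite ∧ ∀ t v, v ^ (p + 1) = g.eval t → t ∉ E →
      supp (coords w P Q t v) ∈ U ∧ (∀ j, MvPolynomial.eval (coords w P Q t v) (G j) = 0) ∧
        pt T (coords w P Q t v) ≠ pt T x := by
  classical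
  -- the bad values of `t`
  have hg0 : g ≠ 0 := by
    intro h
    have h1 := hD.onCurve
    rw [h, eval_zero] at h1
    exact hD.v0 (pow_eq_zero_iff (by omega) |>.mp h1)
  have hP0 : ∀ i, i ≠ w → x i ≠ 0 → P i ≠ 0 := by
    intro i hi hxi h
    apply hxi
    rw [← hD.start]
    simp only [coords, if_neg hi]
    rw [h, eval_zero]
  have hQ0 : x w ≠ 0 → Q ≠ 0 := by
    intro hxw h
    apply hxw
    rw [← hD.start]
    simp only [coords, if_true]
    rw [h, eval_zero, zero_mul]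
  set E : Set ℂ := {t : ℂ | ∃ v, v ^ (p + 1) = g.eval t ∧
    ∃ a ∈ T, ∀ i, coords w P Q t v i = (a i : ℂ) * x i} ∪
    ((⋃ i, {t : ℂ | i ≠ w ∧ x i ≠ 0 ∧ (P i).eval t = 0}) ∪
      ({t : ℂ | x w ≠ 0 ∧ Q.eval t = 0} ∪ {t : ℂ | g.eval t = 0})) with hE
  have hroots : ∀ q : ℂ[X], q ≠ 0 → {t : ℂ | q.eval t = 0}.Finite := by
    intro q hq
    refine (q.roots.toFinset.finite_toSet).subset ?_
    intro t ht
    rw [Finset.mem_coe, Multiset.mem_toFinset, mem_roots hq]
    exact ht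
  have hEfin : E.Finite := by
    refine hD.nonconst.union (Set.Finite.union ?_ (Set.Finite.union ?_ (hroots g hg0)))
    · refine Set.finite_iUnion fun i => ?_
      by_cases h : i ≠ w ∧ x i ≠ 0
      · exact (hroots (P i) (hP0 i h.1 h.2)).subset fun t ht => ht.2.2
      · refine Set.Finite.subset Set.finite_empty ?_
        rintro t ⟨h1, h2, -⟩
        exact h ⟨h1, h2⟩
    · by_cases h : x w ≠ 0
      · exact (hroots Q (hQ0 h)).subset fun t ht => ht.2
      · refine Set.Finite.subset Set.finite_empty ?_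
        rintro t ⟨h1, -⟩
        exact h h1
  refine ⟨E, hEfin, ?_⟩
  intro t v hv ht
  refine ⟨?_, fun j => hD.zero j t v hv, ?_⟩
  · refine hU.1 _ hx _ ?_
    intro i hi
    have hxi : x i ≠ 0 := hi
    show coords w P Q t v i ≠ 0
    by_cases h : i = w
    · subst h
      simp only [coords, if_true]
      refine mul_ne_zero ?_ ?_
      · intro h1
        exact ht (Or.inr (Or.inr (Or.inl ⟨hxi, h1⟩)))
      · rintro rfl
        rw [zero_pow (by omega)] at hv
        exact ht (Or.inr (Or.inr (Or.inr hv.symm)))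
    · simp only [coords, if_neg h]
      intro h1
      exact ht (Or.inr (Or.inl (Set.mem_iUnion.mpr ⟨i, h, hxi, h1⟩)))
  · intro h
    obtain ⟨a, ha, hax⟩ := pt_eq_iff.mp h.symm
    exact ht (Or.inl ⟨v, hv, a, ha, hax⟩)

/-- The entire curve, with local lifts. -/
theorem exists_lifted (hκ : κ * p = 2) (hD : CurveData κ p w T B G x P Q g t₀ v₀)
    {U : Set (Set ι)} (hU : IsCompleteToric T U)
    (hB : ∀ u : ℂˣ, (fun i => u ^ B i) ∈ T) (hx : supp x ∈ U) :
    ∃ F : ℂ → (ι → ℂ), F 0 = x ∧ ∀ z, ∃ φ : ℂ → (ι → ℂ), AnalyticAt ℂ φ z ∧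
      (∀ᶠ y in 𝓝 z, pt T (F y) = pt T (φ y)) ∧
      ∀ᶠ y in 𝓝[≠] z, supp (F y) ∈ U ∧ (∀ j, MvPolynomial.eval (F y) (G j) = 0) ∧
        pt T (F y) ≠ pt T x := by
  classical
  have hon : Pool.Agent.H84.Curve.OnCurve p κ g (Sum.inl (t₀, v₀)) := hD.onCurve
  obtain ⟨f, hf0, hf⟩ := Pool.Agent.H84.Curve.exists_entire hκ hD.degg hon
  obtain ⟨E, hEfin, hgood⟩ := exists_bad hD hU hx
  refine ⟨fun z => lift κ w B P Q (f z), ?_, fun z => ?_⟩
  · simp only [hf0]
    exact hD.start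
  · have hav := avoid hκ hD.degg hf hf0 hD.v0 hEfin z
    have hpunct : ∀ᶠ y in 𝓝[≠] z, supp (lift κ w B P Q (f y)) ∈ U ∧
        (∀ j, MvPolynomial.eval (lift κ w B P Q (f y)) (G j) = 0) ∧
        pt T (lift κ w B P Q (f y)) ≠ pt T x := by
      filter_upwards [hav] with y hy
      obtain ⟨t, v, h1, h2⟩ := hy
      have h3 := Pool.Agent.H84.Curve.onCurve_of_locSol hκ hD.degg (hf y)
      rw [h1] at h3 ⊢
      exact hgood t v h3 h2
    rcases hf z with ⟨u, hu⟩ | ⟨u, hu⟩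
    · have hua := analyticAt_of_hasDerivAt (hu.mono fun y hy => hy.1)
      refine ⟨fun y => coords w P Q (u y).1 (u y).2, analyticAt_coords w P Q hua, ?_, hpunct⟩
      filter_upwards [hu] with y hy
      rw [hy.2.2]
      rfl
    · have hua := analyticAt_of_hasDerivAt (hu.mono fun y hy => hy.1)
      refine ⟨fun y => coordsB κ w B P Q (u y).1 (u y).2, ?_, ?_, hpunct⟩
      · simp only [coordsB_eq_coords]
        exact analyticAt_coords w _ _ hua
      · filter_upwards [hu] with y hy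
        rw [hy.2.2]
        exact pt_lift_mkB hD hB (u y)

lemma tendsto_seq (ρ : ℂ) :
    Tendsto (fun k : ℕ => (ρ + (k : ℂ) * (2 * (Real.pi : ℂ) * Complex.I))⁻¹) atTop (𝓝 0) := by
  have hpi : (2 * (Real.pi : ℂ) * Complex.I) ≠ 0 := Complex.two_pi_I_ne_zero
  rw [tendsto_zero_iff_norm_tendsto_zero]
  simp only [norm_inv]
  apply Tendsto.inv_tendsto_atTop
  have h3 : Tendsto (fun k : ℕ => (k : ℝ) * ‖2 * (Real.pi : ℂ) * Complex.I‖ - ‖ρ‖) atTop
      atTop := by
    apply tendsto_atTop_add_const_right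
    exact Tendsto.atTop_mul_const (norm_pos_iff.mpr hpi) tendsto_natCast_atTop_atTop
  refine tendsto_atTop_mono (fun k => ?_) h3
  have h4 : ‖(k : ℂ) * (2 * (Real.pi : ℂ) * Complex.I)‖ =
      (k : ℝ) * ‖2 * (Real.pi : ℂ) * Complex.I‖ := by
    rw [norm_mul, Complex.norm_natCast]
  rw [← h4]
  have h5 := norm_sub_norm_le ((k : ℂ) * (2 * (Real.pi : ℂ) * Complex.I)) (-ρ)
  rw [norm_neg, sub_neg_eq_add] at h5
  rw [add_comm ρ]
  exact h5

/-- `exp (1 / z)` takes the value `exp ρ` arbitrarily close to `0`. -/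
lemma frequently_exp (ρ : ℂ) : ∃ᶠ z in 𝓝[≠] (0 : ℂ), Complex.exp z⁻¹ = Complex.exp ρ := by
  have h1 : Tendsto (fun k : ℕ => (ρ + (k : ℂ) * (2 * (Real.pi : ℂ) * Complex.I))⁻¹) atTop
      (𝓝[≠] 0) := by
    rw [tendsto_nhdsWithin_iff]
    refine ⟨tendsto_seq ρ, ?_⟩
    have h5 : Tendsto (fun k : ℕ => (k : ℝ) * ‖2 * (Real.pi : ℂ) * Complex.I‖)
        atTop atTop :=
      Tendsto.atTop_mul_const (norm_pos_iff.mpr Complex.two_pi_I_ne_zero)
        tendsto_natCast_atTop_atTop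
    filter_upwards [h5.eventually_gt_atTop ‖ρ‖] with k hk
    rw [Set.mem_compl_iff, Set.mem_singleton_iff, inv_eq_zero]
    intro h6
    have h7 : ρ = -((k : ℂ) * (2 * (Real.pi : ℂ) * Complex.I)) :=
      eq_neg_of_add_eq_zero_left h6
    rw [h7, norm_neg, norm_mul, Complex.norm_natCast] at hk
    exact lt_irrefl _ hk
  refine h1.frequently (Eventually.frequently (Eventually.of_forall fun k => ?_))
  rw [inv_inv]
  exact Complex.exp_periodic.nat_mul k ρ

/-- The entire curve and the map from the punctured disc. -/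
theorem exists_curves (hκ : κ * p = 2) (hD : CurveData κ p w T B G x P Q g t₀ v₀)
    {U : Set (Set ι)} (hU : IsCompleteToric T U) (hG : ∀ j, IsTHomogeneous T (G j))
    (hB : ∀ u : ℂˣ, (fun i => u ^ B i) ∈ T) (hx : supp x ∈ U) :
    (∃ f : ℂ → Orbits T, (∀ z, HolomorphicAt U f z) ∧ (∀ z, f z ∈ subvariety T U G) ∧
      f 0 = pt T x ∧ ∃ z, f z ≠ f 0) ∧
    ∃ f : ℂ → Orbits T,
      (∀ z, 0 < ‖z‖ → ‖z‖ < 1 → HolomorphicAt U f z ∧ f z ∈ subvariety T U G) ∧
      (∃ P₁ P₂ : Orbits T, P₁ ≠ P₂ ∧ (∃ᶠ z in 𝓝[≠] (0 : ℂ), f z = P₁) ∧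
        ∃ᶠ z in 𝓝[≠] (0 : ℂ), f z = P₂) ∧
      ∃ z, 0 < ‖z‖ ∧ ‖z‖ < 1 ∧ f z = pt T x := by
  obtain ⟨F, hF0, hF⟩ := exists_lifted hκ hD hU hB hx
  -- a point with a different image
  obtain ⟨ζ, hζ1, hζ2, hζ3⟩ : ∃ ζ : ℂ, ‖ζ‖ < 1 ∧ supp (F ζ) ∈ U ∧ pt T (F ζ) ≠ pt T x := by
    obtain ⟨φ, -, -, h3⟩ := hF 0
    have h4 : ∀ᶠ y in 𝓝[≠] (0 : ℂ), ‖y‖ < 1 := by
      have : ∀ᶠ y in 𝓝 (0 : ℂ), ‖y‖ < 1 :=
        (continuous_norm.tendsto (0 : ℂ)).eventually (gt_mem_nhds (by simp))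
      exact this.filter_mono nhdsWithin_le_nhds
    obtain ⟨ζ, h5, h6⟩ := (h3.and h4).exists
    exact ⟨ζ, h6, h5.1, h5.2.2⟩
  constructor
  · obtain ⟨f, hf1, hf2⟩ := exists_extension hU hG Set.univ F (fun z _ => by
      obtain ⟨φ, h1, h2, h3⟩ := hF z
      exact ⟨φ, h1, h2, h3.mono fun y hy => ⟨hy.1, hy.2.1⟩⟩)
    have h0 : f 0 = pt T x := by
      rw [hf2 0 (by rw [hF0]; exact hx), hF0]
    refine ⟨f, fun z => (hf1 z trivial).1, fun z => (hf1 z trivial).2, h0, ζ, ?_⟩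
    rw [hf2 ζ hζ2, h0]
    exact hζ3
  · -- composition with `exp (1 / z) - 1`
    set τ : ℂ → ℂ := fun z => Complex.exp z⁻¹ - 1 with hτ
    have hτa : ∀ z, z ≠ 0 → AnalyticAt ℂ τ z := fun z hz =>
      ((analyticAt_id.inv hz).cexp).sub analyticAt_const
    have hτne : ∀ z, z ≠ 0 → ∀ᶠ y in 𝓝[≠] z, τ y ≠ τ z := by
      intro z hz
      have h1 : HasDerivAt τ (Complex.exp z⁻¹ * (-(z ^ 2)⁻¹)) z :=
        ((hasDerivAt_inv hz).cexp).sub_const 1
      exact h1.eventually_ne (mul_ne_zero (Complex.exp_ne_zero _)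
        (neg_ne_zero.mpr (inv_ne_zero (pow_ne_zero 2 hz))))
    obtain ⟨f, hf1, hf2⟩ := exists_extension hU hG {z | z ≠ 0} (fun z => F (τ z)) (fun z hz => by
      obtain ⟨φ, h1, h2, h3⟩ := hF (τ z)
      have hz' : z ≠ 0 := hz
      refine ⟨fun y => φ (τ y), h1.comp (hτa z hz'),
        (hτa z hz').continuousAt.tendsto.eventually h2, ?_⟩
      have h4 : Tendsto τ (𝓝[≠] z) (𝓝[≠] (τ z)) := by
        rw [tendsto_nhdsWithin_iff]
        exact ⟨(hτa z hz').continuousAt.tendsto.mono_left nhdsWithin_le_nhds, hτne z hz'⟩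
      exact (h4.eventually h3).mono fun y hy => ⟨hy.1, hy.2.1⟩)
    have hζ' : 1 + ζ ≠ 0 := by
      intro h
      have h2 : ζ = -1 := by linear_combination h
      rw [h2, norm_neg, norm_one] at hζ1
      exact lt_irrefl _ hζ1
    refine ⟨f, fun z hz _ => hf1 z (norm_pos_iff.mp hz), ⟨pt T (F ζ), pt T x, hζ3, ?_, ?_⟩,
      (2 * (Real.pi : ℂ) * Complex.I)⁻¹, ?_, ?_, ?_⟩
    · refine (frequently_exp (Complex.log (1 + ζ))).mono fun z hz => ?_
      have h1 : τ z = ζ := by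
        simp only [hτ, hz, Complex.exp_log hζ']
        ring
      rw [hf2 z (by rw [h1]; exact hζ2), h1]
    · refine (frequently_exp 0).mono fun z hz => ?_
      have h1 : τ z = 0 := by
        simp only [hτ, hz, Complex.exp_zero]
        ring
      rw [hf2 z (by rw [h1, hF0]; exact hx), h1, hF0]
    · exact norm_pos_iff.mpr (inv_ne_zero Complex.two_pi_I_ne_zero)
    · rw [norm_inv]
      apply inv_lt_one_of_one_lt₀
      rw [norm_mul, norm_mul, Complex.norm_I, mul_one]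
      simp only [Complex.norm_ofNat, Complex.norm_real, Real.norm_eq_abs,
        abs_of_pos Real.pi_pos]
      linarith [Real.pi_gt_three]
    · have h1 : τ (2 * (Real.pi : ℂ) * Complex.I)⁻¹ = 0 := by
        simp only [hτ, inv_inv, Complex.exp_two_pi_mul_I]
        ring
      rw [hf2 _ (by rw [h1, hF0]; exact hx), h1, hF0]

end Lift

end Pool.Agent.H6.Toric
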