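import Mathlib
import Pool.Agent.H6.Toric.ParamB

/-!
# Curves `v ^ (p + 1) = g (t)` of genus at most one are images of `G_m` or of elliptic curves
-/

set_option autoImplicit false

open Polynomial

namespace Pool.Agent.H6.Toric

/-- The functions `S`, `R`, `V` on `pts` satisfy `t = R / S`, `v = V / S ^ κ`,
`v ^ (p + 1) = g (t)` outside a finite set, the point `(t₀, v₀)` is attained and `t` has finite
fibres. -/
def ParamOn {E : Type} (pts : Set E) (S R V : E → ℂ) (κ p : ℕ) (g : ℂ[X]) (t₀ v₀ : ℂ) : Prop :=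
  (∃ q ∈ pts, S q ≠ 0 ∧ R q = t₀ * S q ∧ V q = v₀ * S q ^ κ) ∧
  {q | q ∈ pts ∧ ¬ (S q ≠ 0 ∧ V q ^ (p + 1) = S q ^ (κ + 2) * g.eval (R q / S q))}.Finite ∧
  ∀ t, {q | q ∈ pts ∧ R q = t * S q}.Finite

/-- The affine part `{η² = ξ³ + a ξ + b}` of the Weierstrass curve with parameters `a`, `b`; it is
the elliptic curve minus its origin if `4 a³ + 27 b² ≠ 0`. -/
def affineE (a b : ℂ) : Set (ℂ × ℂ) := {p | p.2 ^ 2 = p.1 ^ 3 + a * p.1 + b}

/-- Either `G_m` or an elliptic curve parametrises the curve. -/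
def HasParam (κ p : ℕ) (g : ℂ[X]) (t₀ v₀ : ℂ) : Prop :=
  (∃ S R V : ℂ[X], ParamOn {z : ℂ | z ≠ 0} (fun z => S.eval z) (fun z => R.eval z)
    (fun z => V.eval z) κ p g t₀ v₀) ∨
  ∃ a b : ℂ, 4 * a ^ 3 + 27 * b ^ 2 ≠ 0 ∧ ∃ S R V : MvPolynomial (Fin 2) ℂ,
    ParamOn (affineE a b) (fun q => MvPolynomial.eval ![q.1, q.2] S)
      (fun q => MvPolynomial.eval ![q.1, q.2] R) (fun q => MvPolynomial.eval ![q.1, q.2] V)
      κ p g t₀ v₀

lemma finite_roots {q : ℂ[X]} (hq : q ≠ 0) : {t : ℂ | q.eval t = 0}.Finite := by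
  refine (q.roots.toFinset.finite_toSet).subset ?_
  intro t ht
  rw [Finset.mem_coe, Multiset.mem_toFinset, mem_roots hq]
  exact ht

lemma exists_root {r : ℕ} (hr : r ≠ 0) (ν : ℂ) : ∃ c : ℂ, c ^ r = ν :=
  IsAlgClosed.exists_pow_nat_eq ν (Nat.pos_of_ne_zero hr)

/-- Change of the parameter `t = t₁ + 1 / u`. -/
lemma ParamOn.moebius {E : Type} {pts : Set E} {S R V : E → ℂ} {κ p : ℕ} {g G : ℂ[X]}
    {t₀ v₀ t₁ : ℂ} (ht : t₀ ≠ t₁)
    (hG : ∀ u, u ≠ 0 → G.eval u = u ^ (κ + 2) * g.eval (t₁ + u⁻¹))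
    (h : ParamOn pts S R V κ p G (t₀ - t₁)⁻¹ (v₀ * (t₀ - t₁)⁻¹ ^ κ)) :
    ParamOn pts R (fun q => t₁ * R q + S q) V κ p g t₀ v₀ := by
  obtain ⟨⟨q, hq, h1, h2, h3⟩, h4, h5⟩ := h
  have ht' : t₀ - t₁ ≠ 0 := sub_ne_zero.mpr ht
  have hfin : {q | q ∈ pts ∧ S q = 0}.Finite := by
    refine h4.subset ?_
    rintro q ⟨hq, hS⟩
    exact ⟨hq, fun h => h.1 hS⟩
  refine ⟨⟨q, hq, ?_, ?_, ?_⟩, ?_, ?_⟩
  · rw [h2]
    exact mul_ne_zero (inv_ne_zero ht') h1
  · have h6 : (t₀ - t₁) * R q = S q := by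
      rw [h2, ← mul_assoc, mul_inv_cancel₀ ht', one_mul]
    linear_combination -h6
  · rw [h3, h2, mul_pow]
    ring
  · refine (h4.union (h5 0)).subset ?_
    rintro q ⟨hq, hne⟩
    by_cases hR : R q = 0
    · right
      exact ⟨hq, by rw [hR, zero_mul]⟩
    · left
      refine ⟨hq, fun ⟨hS, hV⟩ => hne ⟨hR, ?_⟩⟩
      rw [hV, hG _ (div_ne_zero hR hS)]
      have h6 : t₁ + (R q / S q)⁻¹ = (t₁ * R q + S q) / R q := by
        field_simp
      rw [h6, div_pow]
      field_simp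
  · intro t
    by_cases htt : t = t₁
    · refine hfin.subset ?_
      rintro q ⟨hq, h6⟩
      refine ⟨hq, ?_⟩
      rw [htt] at h6
      linear_combination h6
    · have htt' : t - t₁ ≠ 0 := sub_ne_zero.mpr htt
      refine (h5 (t - t₁)⁻¹).subset ?_
      rintro q ⟨hq, h6⟩
      refine ⟨hq, ?_⟩
      field_simp
      linear_combination -h6

lemma HasParam.moebius {κ p : ℕ} {g G : ℂ[X]} {t₀ v₀ t₁ : ℂ} (ht : t₀ ≠ t₁)
    (hG : ∀ u, u ≠ 0 → G.eval u = u ^ (κ + 2) * g.eval (t₁ + u⁻¹))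
    (h : HasParam κ p G (t₀ - t₁)⁻¹ (v₀ * (t₀ - t₁)⁻¹ ^ κ)) : HasParam κ p g t₀ v₀ := by
  rcases h with ⟨S, R, V, h⟩ | ⟨a, b, hab, S, R, V, h⟩
  · left
    refine ⟨R, C t₁ * R + S, V, ?_⟩
    have := ParamOn.moebius ht hG h
    simpa using this
  · right
    refine ⟨a, b, hab, R, MvPolynomial.C t₁ * R + S, V, ?_⟩
    have := ParamOn.moebius ht hG h
    simpa using this

/-- A polynomial parametrisation of the affine curve. -/
lemma hasParam_poly {κ p : ℕ} {g : ℂ[X]} {t₀ v₀ : ℂ} (R V : ℂ[X]) (z₀ : ℂ) (hz₀ : z₀ ≠ 0)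
    (h1 : R.eval z₀ = t₀) (h2 : V.eval z₀ = v₀)
    (h3 : ∀ z, V.eval z ^ (p + 1) = g.eval (R.eval z)) (h4 : ∀ t : ℂ, R ≠ C t) :
    HasParam κ p g t₀ v₀ := by
  left
  refine ⟨1, R, V, ⟨z₀, hz₀, by simp, by simp [h1], by simp [h2]⟩, ?_, ?_⟩
  · refine Set.finite_empty.subset ?_
    rintro z ⟨-, hz⟩
    exact hz ⟨by simp, by simp [h3]⟩
  · intro t
    refine (finite_roots (sub_ne_zero.mpr (h4 t))).subset ?_
    rintro z ⟨-, hz⟩
    simp only [eval_one, mul_one] at hz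
    simp [hz]

lemma ne_C_of_eval_ne {R : ℂ[X]} {a b : ℂ} (h : R.eval a ≠ R.eval b) (t : ℂ) : R ≠ C t := by
  rintro rfl
  simp at h

/-- `g` constant. -/
lemma hasParam_const {κ p : ℕ} {g : ℂ[X]} {t₀ v₀ : ℂ} (hv : v₀ ^ (p + 1) = g.eval t₀)
    (c₀ : ℂ) (hg : ∀ t, g.eval t = c₀) : HasParam κ p g t₀ v₀ := by
  refine hasParam_poly (X + C (t₀ - 1)) (C v₀) 1 one_ne_zero (by simp) (by simp) ?_ ?_
  · intro z
    rw [eval_C, hv, hg, hg]
  · exact ne_C_of_eval_ne (a := 0) (b := 1) (by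
      simp only [eval_add, eval_X, eval_C]
      intro h
      have : (0 : ℂ) = 1 := by linear_combination h
      exact zero_ne_one this)

/-- `g` linear. -/
lemma hasParam_linear {κ p : ℕ} {g : ℂ[X]} {t₀ v₀ : ℂ} (hv : v₀ ^ (p + 1) = g.eval t₀)
    (hv0 : v₀ ≠ 0) (c₀ c₁ : ℂ) (hc₁ : c₁ ≠ 0) (hg : ∀ t, g.eval t = c₁ * t + c₀) :
    HasParam κ p g t₀ v₀ := by
  refine hasParam_poly (C c₁⁻¹ * (X ^ (p + 1) - C c₀)) X v₀ hv0 ?_ (by simp) ?_ ?_
  · simp only [eval_mul, eval_C, eval_sub, eval_pow, eval_X]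
    rw [hv, hg]
    field_simp
    ring
  · intro z
    simp only [eval_mul, eval_C, eval_sub, eval_pow, eval_X]
    rw [hg]
    field_simp
    ring
  · exact ne_C_of_eval_ne (a := 0) (b := 1) (by
      simp only [eval_mul, eval_C, eval_sub, eval_pow, eval_X, one_pow]
      intro h
      have h1 := mul_left_cancel₀ (inv_ne_zero hc₁) h
      rw [zero_pow (by omega)] at h1
      have : (0 : ℂ) = 1 := by linear_combination h1
      exact zero_ne_one this)

/-- `v² = g(t)`, `g` quadratic. -/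
lemma hasParam_conic {g : ℂ[X]} {t₀ v₀ : ℂ} (hv : v₀ ^ 2 = g.eval t₀) (hv0 : v₀ ≠ 0)
    (c₀ c₁ c₂ : ℂ) (hc₂ : c₂ ≠ 0) (hg : ∀ t, g.eval t = c₂ * t ^ 2 + c₁ * t + c₀) :
    HasParam 2 1 g t₀ v₀ := by
  set h := c₁ / (2 * c₂) with hh
  set k := c₂ * h ^ 2 - c₀ with hk
  have hc₁ : c₁ = 2 * c₂ * h := by rw [hh]; field_simp
  obtain ⟨σ, hσ, hσw⟩ : ∃ σ : ℂ, σ ^ 2 = c₂ ∧ σ * (t₀ + h) + v₀ ≠ 0 := by
    obtain ⟨σ, hσ⟩ := exists_root two_ne_zero c₂
    by_cases h1 : σ * (t₀ + h) + v₀ = 0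
    · refine ⟨-σ, by rw [neg_sq, hσ], ?_⟩
      intro h2
      have h3 : 2 * v₀ = 0 := by linear_combination h1 + h2
      rcases mul_eq_zero.mp h3 with h4 | h4
      · exact two_ne_zero h4
      · exact hv0 h4
    · exact ⟨σ, hσ, h1⟩
  have hσ0 : σ ≠ 0 := by
    rintro rfl
    apply hc₂
    rw [← hσ]
    ring
  have h2σ : (2 * σ) ≠ 0 := mul_ne_zero two_ne_zero hσ0
  set z₀ := σ * (t₀ + h) + v₀ with hz₀
  have hz₀' : z₀ ^ 2 + k = 2 * σ * (t₀ + h) * z₀ := by
    rw [hg] at hv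
    rw [hk, hz₀, ← hσ]
    linear_combination hv - (t₀ ^ 2) * hσ + t₀ * hc₁ - 2 * t₀ * h * hσ
  left
  refine ⟨X, C (2 * σ)⁻¹ * (X ^ 2 + C k) - C h * X, C 2⁻¹ * (X ^ 3 - C k * X), ?_, ?_, ?_⟩
  · refine ⟨z₀, hσw, by simpa using hσw, ?_, ?_⟩
    · simp only [eval_sub, eval_mul, eval_C, eval_add, eval_pow, eval_X]
      rw [hz₀']
      field_simp
      ring
    · simp only [eval_sub, eval_mul, eval_C, eval_pow, eval_X]
      have h1 : v₀ = z₀ - σ * (t₀ + h) := by rw [hz₀]; ring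
      rw [h1]
      linear_combination (-z₀ / 2) * hz₀'
  · refine Set.finite_empty.subset ?_
    rintro z ⟨hz, hne⟩
    have hz0 : z ≠ 0 := hz
    apply hne
    refine ⟨by simpa using hz0, ?_⟩
    rw [hg, hc₁]
    simp only [eval_mul, eval_C, eval_sub, eval_pow, eval_X, eval_add]
    have hc₀ : c₀ = σ ^ 2 * h ^ 2 - k := by rw [hk, hσ]; ring
    rw [hc₀, ← hσ]
    field_simp
    ring
  · intro t
    have hne : (C (2 * σ)⁻¹ * (X ^ 2 + C k) - C h * X - C t * X : ℂ[X]) ≠ 0 := by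
      intro h0
      have h1 := congrArg (Polynomial.eval 0) h0
      have h2 := congrArg (Polynomial.eval 1) h0
      have h3 := congrArg (Polynomial.eval (-1)) h0
      simp only [eval_sub, eval_mul, eval_C, eval_pow, eval_X, eval_add, eval_zero] at h1 h2 h3
      have h4 : (2 * σ)⁻¹ = 0 := by linear_combination (h2 + h3 - 2 * h1) / 2
      exact inv_ne_zero h2σ h4
    refine (finite_roots hne).subset ?_
    rintro z ⟨-, hz⟩
    simp only at hz
    show (C (2 * σ)⁻¹ * (X ^ 2 + C k) - C h * X - C t * X : ℂ[X]).eval z = 0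
    rw [eval_sub, hz]
    simp

lemma finite_pow_eq {n : ℕ} (hn : n ≠ 0) (c : ℂ) : {z : ℂ | z ^ n = c}.Finite := by
  have hne : (X ^ n - C c : ℂ[X]) ≠ 0 := X_pow_sub_C_ne_zero (Nat.pos_of_ne_zero hn) c
  refine (finite_roots hne).subset ?_
  intro z hz
  have hz' : z ^ n = c := hz
  show (X ^ n - C c : ℂ[X]).eval z = 0
  simp [hz']

/-- `v² = g(t)`, `g` cubic. -/
lemma hasParam_cubic {g : ℂ[X]} {t₀ v₀ : ℂ} (hv : v₀ ^ 2 = g.eval t₀) (hv0 : v₀ ≠ 0)
    (c₀ c₁ c₂ c₃ : ℂ) (hc₃ : c₃ ≠ 0)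
    (hg : ∀ t, g.eval t = c₃ * t ^ 3 + c₂ * t ^ 2 + c₁ * t + c₀) :
    HasParam 2 1 g t₀ v₀ := by
  obtain ⟨γ, hγ⟩ := exists_root two_ne_zero c₃
  have hγ0 : γ ≠ 0 := by
    rintro rfl
    apply hc₃
    rw [← hγ]
    ring
  set β := -c₂ / (3 * c₃) with hβ
  have hc₂ : c₂ = -3 * c₃ * β := by rw [hβ]; field_simp
  obtain ⟨a, ha⟩ : ∃ a, c₁ = c₃ * (a + 3 * β ^ 2) :=
    ⟨c₁ / c₃ - 3 * β ^ 2, by field_simp; ring⟩
  obtain ⟨b, hb⟩ : ∃ b, c₀ = c₃ * (b - a * β - β ^ 3) :=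
    ⟨c₀ / c₃ + a * β + β ^ 3, by field_simp; ring⟩
  have hgξ : ∀ ξ, g.eval (ξ + β) = c₃ * (ξ ^ 3 + a * ξ + b) := by
    intro ξ
    rw [hg, hc₂, ha, hb]
    ring
  have hvξ : v₀ ^ 2 = c₃ * ((t₀ - β) ^ 3 + a * (t₀ - β) + b) := by
    rw [← hgξ, sub_add_cancel, hv]
  by_cases hΔ : 4 * a ^ 3 + 27 * b ^ 2 = 0
  · obtain ⟨e, he1, he2⟩ : ∃ e : ℂ, a = -3 * e ^ 2 ∧ b = 2 * e ^ 3 := by
      by_cases ha0 : a = 0
      · refine ⟨0, by rw [ha0]; ring, ?_⟩
        rw [ha0] at hΔ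
        have : b = 0 := by
          have h1 : b ^ 2 = 0 := by linear_combination hΔ / 27
          exact pow_eq_zero_iff two_ne_zero |>.mp h1
        rw [this]
        ring
      · refine ⟨-3 * b / (2 * a), ?_, ?_⟩
        · field_simp
          linear_combination hΔ
        · field_simp
          linear_combination b * hΔ
    have hξ0 : v₀ ^ 2 = c₃ * ((t₀ - β - e) ^ 2 * (t₀ - β + 2 * e)) := by
      rw [hvξ, he1, he2]
      ring
    have hne : t₀ - β - e ≠ 0 := by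
      intro h0
      rw [h0] at hξ0
      apply hv0
      have : v₀ ^ 2 = 0 := by rw [hξ0]; ring
      exact pow_eq_zero_iff two_ne_zero |>.mp this
    set u₀ := v₀ / (γ * (t₀ - β - e)) with hu₀
    have hu₀2 : u₀ ^ 2 = t₀ - β + 2 * e := by
      rw [hu₀, div_pow, hξ0, mul_pow, hγ]
      field_simp
    have hu₀0 : u₀ ≠ 0 := div_ne_zero hv0 (mul_ne_zero hγ0 hne)
    refine hasParam_poly (X ^ 2 + C (β - 2 * e)) (C γ * (X * (X ^ 2 - C (3 * e)))) u₀ hu₀0
      ?_ ?_ ?_ ?_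
    · simp only [eval_add, eval_pow, eval_X, eval_C]
      rw [hu₀2]
      ring
    · simp only [eval_mul, eval_C, eval_sub, eval_pow, eval_X]
      rw [hu₀2, hu₀]
      have h2 : t₀ - β + 2 * e - 3 * e = t₀ - β - e := by ring
      rw [h2]
      field_simp
    · intro z
      have h1 : (X ^ 2 + C (β - 2 * e) : ℂ[X]).eval z = (z ^ 2 - 2 * e) + β := by
        simp only [eval_add, eval_pow, eval_X, eval_C]
        ring
      rw [h1, hgξ, he1, he2, ← hγ]
      simp only [eval_mul, eval_C, eval_sub, eval_pow, eval_X]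
      ring
    · exact ne_C_of_eval_ne (a := 0) (b := 1) (by
        simp only [eval_add, eval_pow, eval_X, eval_C]
        intro h
        have : (0 : ℂ) = 1 := by linear_combination h
        exact zero_ne_one this)
  · right
    refine ⟨a, b, hΔ, 1, MvPolynomial.X 0 + MvPolynomial.C β, MvPolynomial.C γ * MvPolynomial.X 1,
      ⟨(t₀ - β, v₀ / γ), ?_, ?_, ?_, ?_⟩, ?_, ?_⟩
    · show (v₀ / γ) ^ 2 = (t₀ - β) ^ 3 + a * (t₀ - β) + b
      rw [div_pow, hγ, hvξ]
      field_simp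
    · simp
    · simp
    · simp only [map_mul, map_one, MvPolynomial.eval_C, MvPolynomial.eval_X, Matrix.cons_val_one,
        Matrix.cons_val_fin_one]
      field_simp
    · refine Set.finite_empty.subset ?_
      rintro q ⟨hq, hne⟩
      apply hne
      have hq' : q.2 ^ 2 = q.1 ^ 3 + a * q.1 + b := hq
      refine ⟨by simp, ?_⟩
      simp only [map_mul, map_add, map_one, MvPolynomial.eval_C, MvPolynomial.eval_X,
        Matrix.cons_val_zero, Matrix.cons_val_one, div_one, one_pow, one_mul]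
      rw [hgξ, mul_pow, hγ, hq']
    · intro t
      refine (((Set.finite_singleton (t - β)).prod
        (finite_pow_eq two_ne_zero ((t - β) ^ 3 + a * (t - β) + b)))).subset ?_
      rintro q ⟨hq, h1⟩
      have hq' : q.2 ^ 2 = q.1 ^ 3 + a * q.1 + b := hq
      simp only [map_add, map_one, MvPolynomial.eval_C, MvPolynomial.eval_X,
        Matrix.cons_val_zero, mul_one] at h1
      have h2 : q.1 = t - β := by linear_combination h1
      refine ⟨h2, ?_⟩
      show q.2 ^ 2 = (t - β) ^ 3 + a * (t - β) + b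
      rw [hq', h2]

/-- `v³ = g(t)`, `g` quadratic. -/
lemma hasParam_cyclic {g : ℂ[X]} {t₀ v₀ : ℂ} (hv : v₀ ^ 3 = g.eval t₀) (hv0 : v₀ ≠ 0)
    (c₀ c₁ c₂ : ℂ) (hc₂ : c₂ ≠ 0) (hg : ∀ t, g.eval t = c₂ * t ^ 2 + c₁ * t + c₀) :
    HasParam 1 2 g t₀ v₀ := by
  set h := c₁ / (2 * c₂) with hh
  set k := c₂ * h ^ 2 - c₀ with hk
  have hc₁ : c₁ = 2 * c₂ * h := by rw [hh]; field_simp
  obtain ⟨σ, hσ⟩ := exists_root two_ne_zero c₂
  have hσ0 : σ ≠ 0 := by
    rintro rfl
    apply hc₂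
    rw [← hσ]
    ring
  have hgτ : ∀ τ, g.eval (σ⁻¹ * τ - h) = τ ^ 2 - k := by
    intro τ
    rw [hg, hc₁, hk, ← hσ]
    field_simp
    ring
  set τ₀ := σ * (t₀ + h) with hτ₀
  have ht₀ : t₀ = σ⁻¹ * τ₀ - h := by
    rw [hτ₀]
    field_simp
    ring
  have hvτ : v₀ ^ 3 = τ₀ ^ 2 - k := by
    rw [hv, ht₀, hgτ]
  by_cases hk0 : k = 0
  · rw [hk0, sub_zero] at hvτ
    have hτ0 : τ₀ ≠ 0 := by
      intro h0
      rw [h0] at hvτ
      apply hv0
      have : v₀ ^ 3 = 0 := by rw [hvτ]; ring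
      exact pow_eq_zero_iff three_ne_zero |>.mp this
    refine hasParam_poly (C σ⁻¹ * X ^ 3 - C h) (X ^ 2) (τ₀ / v₀) (div_ne_zero hτ0 hv0) ?_ ?_ ?_ ?_
    · simp only [eval_sub, eval_mul, eval_C, eval_pow, eval_X]
      rw [div_pow, hvτ]
      have h1 : τ₀ ^ 3 / τ₀ ^ 2 = τ₀ := by field_simp
      rw [h1, ← ht₀]
    · simp only [eval_pow, eval_X]
      rw [div_pow, ← hvτ]
      field_simp
    · intro z
      have h1 : (C σ⁻¹ * X ^ 3 - C h : ℂ[X]).eval z = σ⁻¹ * z ^ 3 - h := by simp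
      rw [h1, hgτ, hk0]
      simp only [eval_pow, eval_X]
      ring
    · exact ne_C_of_eval_ne (a := 0) (b := 1) (by
        simp only [eval_sub, eval_mul, eval_C, eval_pow, eval_X]
        intro h
        have : σ⁻¹ = 0 := by linear_combination -h
        exact inv_ne_zero hσ0 this)
  · right
    refine ⟨0, k, ?_, 1, MvPolynomial.C σ⁻¹ * MvPolynomial.X 1 - MvPolynomial.C h,
      MvPolynomial.X 0, ⟨(v₀, τ₀), ?_, ?_, ?_, ?_⟩, ?_, ?_⟩
    · have : (4 : ℂ) * 0 ^ 3 + 27 * k ^ 2 = 27 * k ^ 2 := by ring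
      rw [this]
      exact mul_ne_zero (by norm_num) (pow_ne_zero _ hk0)
    · show τ₀ ^ 2 = v₀ ^ 3 + 0 * v₀ + k
      rw [hvτ]
      ring
    · simp
    · simp only [map_sub, map_mul, map_one, MvPolynomial.eval_C, MvPolynomial.eval_X,
        Matrix.cons_val_one, Matrix.cons_val_fin_one, mul_one]
      exact ht₀.symm
    · simp
    · refine Set.finite_empty.subset ?_
      rintro q ⟨hq, hne⟩
      apply hne
      have hq' : q.2 ^ 2 = q.1 ^ 3 + 0 * q.1 + k := hq
      refine ⟨by simp, ?_⟩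
      simp only [map_mul, map_sub, map_one, MvPolynomial.eval_C, MvPolynomial.eval_X,
        Matrix.cons_val_zero, Matrix.cons_val_one, div_one, one_pow, one_mul]
      rw [hgτ, hq']
      ring
    · intro t
      refine (((finite_pow_eq three_ne_zero ((σ * (t + h)) ^ 2 - k)).prod
        (Set.finite_singleton (σ * (t + h))))).subset ?_
      rintro q ⟨hq, h1⟩
      have hq' : q.2 ^ 2 = q.1 ^ 3 + 0 * q.1 + k := hq
      simp only [map_sub, map_mul, map_one, MvPolynomial.eval_C, MvPolynomial.eval_X,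
        Matrix.cons_val_one, Matrix.cons_val_fin_one, mul_one] at h1
      have h2 : q.2 = σ * (t + h) := by
        rw [← h1]
        field_simp
        ring
      refine ⟨?_, h2⟩
      show q.1 ^ 3 = (σ * (t + h)) ^ 2 - k
      rw [← h2, hq']
      ring

/-- **Parametrisation.**  A point with `v₀ ≠ 0` of a curve `v ^ (p + 1) = g (t)`, `κ p = 2`,
`deg g ≤ κ + 2`, is on the image of `G_m` or of an elliptic curve. -/
theorem hasParam {κ p : ℕ} (hκ : κ * p = 2) {g : ℂ[X]} (hg : g.natDegree ≤ κ + 2) {t₀ v₀ : ℂ}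
    (hv : v₀ ^ (p + 1) = g.eval t₀) (hv0 : v₀ ≠ 0) : HasParam κ p g t₀ v₀ := by
  -- the case of a root at infinity
  have key : ∀ (g : ℂ[X]) (t₀ v₀ : ℂ), g.natDegree ≤ κ + 1 → v₀ ^ (p + 1) = g.eval t₀ →
      v₀ ≠ 0 → HasParam κ p g t₀ v₀ := by
    intro g t₀ v₀ hg hv hv0
    have hcases : (κ = 2 ∧ p = 1) ∨ (κ = 1 ∧ p = 2) := by
      have h1 : κ ≤ 2 := by
        rcases Nat.eq_zero_or_pos p with rfl | hp
        · simp at hκ
        · nlinarith
      interval_cases κ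
      · simp at hκ
      · right; exact ⟨rfl, by omega⟩
      · left; exact ⟨rfl, by omega⟩
    rcases hcases with ⟨rfl, rfl⟩ | ⟨rfl, rfl⟩
    · have hge : ∀ t, g.eval t = g.coeff 3 * t ^ 3 + g.coeff 2 * t ^ 2 + g.coeff 1 * t +
          g.coeff 0 := by
        intro t
        rw [eval_eq_sum_range' (n := 4) (by omega)]
        simp [Finset.sum_range_succ]
        ring
      by_cases h3 : g.coeff 3 = 0
      · by_cases h2 : g.coeff 2 = 0
        · by_cases h1 : g.coeff 1 = 0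
          · exact hasParam_const hv (g.coeff 0) (fun t => by rw [hge, h3, h2, h1]; ring)
          · exact hasParam_linear hv hv0 (g.coeff 0) (g.coeff 1) h1
              (fun t => by rw [hge, h3, h2]; ring)
        · exact hasParam_conic hv hv0 (g.coeff 0) (g.coeff 1) (g.coeff 2) h2
            (fun t => by rw [hge, h3]; ring)
      · exact hasParam_cubic hv hv0 (g.coeff 0) (g.coeff 1) (g.coeff 2) (g.coeff 3) h3 hge
    · have hge : ∀ t, g.eval t = g.coeff 2 * t ^ 2 + g.coeff 1 * t + g.coeff 0 := by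
        intro t
        rw [eval_eq_sum_range' (n := 3) (by omega)]
        simp [Finset.sum_range_succ]
        ring
      by_cases h2 : g.coeff 2 = 0
      · by_cases h1 : g.coeff 1 = 0
        · exact hasParam_const hv (g.coeff 0) (fun t => by rw [hge, h2, h1]; ring)
        · exact hasParam_linear hv hv0 (g.coeff 0) (g.coeff 1) h1
            (fun t => by rw [hge, h2]; ring)
      · exact hasParam_cyclic hv hv0 (g.coeff 0) (g.coeff 1) (g.coeff 2) h2 hge
  by_cases hdeg : g.natDegree ≤ κ + 1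
  · exact key g t₀ v₀ hdeg hv hv0
  · -- move a root to infinity
    obtain ⟨t₁, ht₁⟩ : ∃ t₁ : ℂ, g.eval t₁ = 0 := by
      have h1 : g.degree ≠ 0 := by
        intro h
        have h3 : g.natDegree = 0 := natDegree_eq_of_degree_eq_some h
        omega
      obtain ⟨t₁, h2⟩ := IsAlgClosed.exists_root g h1
      exact ⟨t₁, h2⟩
    have hne : t₀ ≠ t₁ := by
      rintro rfl
      rw [ht₁] at hv
      exact hv0 (pow_eq_zero_iff (by omega) |>.mp hv)
    -- the transformed polynomial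
    set G : ℂ[X] := ∑ k ∈ Finset.range (κ + 3), C (g.coeff k) * X ^ (κ + 2 - k) *
      (C t₁ * X + 1) ^ k with hG
    have hGe : ∀ u, u ≠ 0 → G.eval u = u ^ (κ + 2) * g.eval (t₁ + u⁻¹) := by
      intro u hu
      rw [hG, eval_finsetSum, eval_eq_sum_range' (n := κ + 3) (by omega), Finset.mul_sum]
      apply Finset.sum_congr rfl
      intro k hk
      rw [Finset.mem_range] at hk
      simp only [eval_mul, eval_C, eval_pow, eval_X, eval_add, eval_one]
      have h1 : t₁ + u⁻¹ = (t₁ * u + 1) / u := by field_simp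
      rw [h1, div_pow]
      have h2 : u ^ (κ + 2) = u ^ (κ + 2 - k) * u ^ k := by
        rw [← pow_add]
        congr 1
        omega
      rw [h2]
      field_simp
    have hGd : G.natDegree ≤ κ + 1 := by
      rw [natDegree_le_iff_coeff_eq_zero]
      intro N hN
      rcases Nat.lt_or_ge (κ + 2) N with h | h
      · apply coeff_eq_zero_of_natDegree_lt
        refine lt_of_le_of_lt ?_ h
        rw [hG]
        apply natDegree_sum_le_of_forall_le
        intro k hk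
        rw [Finset.mem_range] at hk
        refine natDegree_mul_le.trans ?_
        have h1 : (C (g.coeff k) * X ^ (κ + 2 - k) : ℂ[X]).natDegree ≤ κ + 2 - k :=
          (natDegree_C_mul_le _ _).trans (natDegree_X_pow_le _)
        have h2 : ((C t₁ * X + 1 : ℂ[X]) ^ k).natDegree ≤ k := by
          refine natDegree_pow_le.trans ?_
          have h3 : (C t₁ * X + 1 : ℂ[X]).natDegree ≤ 1 := by
            refine (natDegree_add_le _ _).trans ?_
            simp only [natDegree_one, zero_le, sup_of_le_left]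
            exact (natDegree_C_mul_le _ _).trans natDegree_X_le
          calc k * (C t₁ * X + 1 : ℂ[X]).natDegree ≤ k * 1 := Nat.mul_le_mul_left _ h3
            _ = k := by ring
        omega
      · have hN' : N = κ + 2 := by omega
        subst hN'
        rw [hG, finsetSum_coeff]
        have h1 : ∀ k ∈ Finset.range (κ + 3), (C (g.coeff k) * X ^ (κ + 2 - k) *
            (C t₁ * X + 1) ^ k : ℂ[X]).coeff (κ + 2) = g.coeff k * t₁ ^ k := by
          intro k hk
          rw [Finset.mem_range] at hk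
          have h2 : κ + 2 = k + (κ + 2 - k) := by omega
          rw [mul_assoc, coeff_C_mul, mul_comm (X ^ _)]
          conv_lhs =>
            rw [h2]
          rw [show κ + 2 - k = κ + 2 - k from rfl]
          have h4 : ((C t₁ * X + 1 : ℂ[X]) ^ k * X ^ (k + (κ + 2 - k) - k)).coeff
              (k + (κ + 2 - k)) = ((C t₁ * X + 1 : ℂ[X]) ^ k).coeff k := by
            rw [Nat.add_sub_cancel_left, coeff_mul_X_pow]
          rw [h4]
          congr 1
          have h5 : ((C t₁ * X + 1 : ℂ[X]) ^ k).coeff k = t₁ ^ k := by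
            have h6 : (C t₁ * X + 1 : ℂ[X]).natDegree ≤ 1 := by
              refine (natDegree_add_le _ _).trans ?_
              simp only [natDegree_one, zero_le, sup_of_le_left]
              exact (natDegree_C_mul_le _ _).trans natDegree_X_le
            have h7 := coeff_pow_of_natDegree_le (m := k) h6
            rw [mul_one] at h7
            rw [h7]
            simp [coeff_one]
          exact h5
        rw [Finset.sum_congr rfl h1, ← eval_eq_sum_range' (n := κ + 3) (by omega), ht₁]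
    have ht' : t₀ - t₁ ≠ 0 := sub_ne_zero.mpr hne
    refine HasParam.moebius hne hGe (key G _ _ hGd ?_ ?_)
    · rw [hGe _ (inv_ne_zero ht'), inv_inv, add_sub_cancel, ← hv, mul_pow, ← pow_mul]
      have h1 : κ * (p + 1) = κ + 2 := by
        have : κ * (p + 1) = κ * p + κ := by ring
        omega
      rw [h1]
      ring
    · exact mul_ne_zero hv0 (pow_ne_zero _ (inv_ne_zero ht'))

end Pool.Agent.H6.Toric
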