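import Mathlib
import Pool.Agent.H6.Toric.Entire
import Pool.Agent.H6.Toric.Param1

/-!
# Images of `G_m` and of elliptic curves
-/

set_option autoImplicit false

open Filter Topology Polynomial

namespace Pool.Agent.H6.Toric

/-- The points of `X` on the image of a non-constant rational map `G_m ⇢ X`, given by homogeneous
coordinates that are polynomials in `z`.  (As `G_m` is a smooth curve and the toric variety is
complete, the rational map is a morphism.) -/
def gmPoints {ι : Type} {T : Subgroup (ι → ℂˣ)} (X : Set (Orbits T)) : Set (Orbits T) :=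
  {P | P ∈ X ∧ ∃ A : ι → ℂ[X],
    {z : ℂ | z ≠ 0 ∧ pt T (fun i => (A i).eval z) ∉ X}.Finite ∧
    (∃ z : ℂ, z ≠ 0 ∧ pt T (fun i => (A i).eval z) = P) ∧
    ∃ z : ℂ, z ≠ 0 ∧ pt T (fun i => (A i).eval z) ∈ X ∧ pt T (fun i => (A i).eval z) ≠ P}

/-- The points of `X` on the image of a non-constant rational map from an elliptic curve to `X`,
given on the affine Weierstrass curve by homogeneous coordinates that are polynomials in `ξ`,
`η`.  (As an elliptic curve is a smooth curve and the toric variety is complete, the rational map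
is a morphism.) -/
def ellipticPoints {ι : Type} {T : Subgroup (ι → ℂˣ)} (X : Set (Orbits T)) : Set (Orbits T) :=
  {P | P ∈ X ∧ ∃ a b : ℂ, 4 * a ^ 3 + 27 * b ^ 2 ≠ 0 ∧ ∃ A : ι → MvPolynomial (Fin 2) ℂ,
    {q : ℂ × ℂ | q ∈ affineE a b ∧
      pt T (fun i => MvPolynomial.eval ![q.1, q.2] (A i)) ∉ X}.Finite ∧
    (∃ q ∈ affineE a b, pt T (fun i => MvPolynomial.eval ![q.1, q.2] (A i)) = P) ∧
    ∃ q ∈ affineE a b, pt T (fun i => MvPolynomial.eval ![q.1, q.2] (A i)) ∈ X ∧
      pt T (fun i => MvPolynomial.eval ![q.1, q.2] (A i)) ≠ P}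

/-- The Zariski closure in `X` of the union of the images of the non-constant morphisms to `X`
from one-dimensional semi-abelian varieties (`G_m` and elliptic curves).  It is contained in
`Sp_sab(X)`. -/
def SpSabOne {ι : Type} {T : Subgroup (ι → ℂˣ)} (X : Set (Orbits T)) : Set (Orbits T) :=
  zariskiClosureIn X (gmPoints X ∪ ellipticPoints X)

/-- The value `∑ y_k s^(b-k) r^k`. -/
noncomputable def homF (b : ℕ) (y : ℂ[X]) (s r : ℂ) : ℂ :=
  ∑ k ∈ Finset.range (b + 1), y.coeff k * s ^ (b - k) * r ^ k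

lemma homF_eq {b : ℕ} {y : ℂ[X]} (hy : y.natDegree ≤ b) {s r : ℂ} (hs : s ≠ 0) :
    homF b y s r = s ^ b * y.eval (r / s) := by
  unfold homF
  rw [eval_eq_sum_range' (Nat.lt_succ_of_le hy), Finset.mul_sum]
  apply Finset.sum_congr rfl
  intro k hk
  rw [Finset.mem_range] at hk
  obtain ⟨l, rfl⟩ := Nat.exists_eq_add_of_le (Nat.lt_succ_iff.mp hk)
  rw [Nat.add_sub_cancel_left, div_pow, pow_add]
  field_simp

section

variable {ι : Type} [Fintype ι] [DecidableEq ι] {c : ℕ} {κ p : ℕ} {w : ι}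
  {T : Subgroup (ι → ℂˣ)} {B : ι → ℕ} {G : Fin c → MvPolynomial ι ℂ} {x : ι → ℂ}
  {P : ι → ℂ[X]} {Q g : ℂ[X]} {t₀ v₀ : ℂ}

/-- The composed homogeneous coordinates. -/
noncomputable def comp {E : Type} (κ : ℕ) (w : ι) (B : ι → ℕ) (P : ι → ℂ[X]) (Q : ℂ[X])
    (S R V : E → ℂ) (q : E) : ι → ℂ :=
  fun i => if i = w then homF (B w - κ) Q (S q) (R q) * V q else homF (B i) (P i) (S q) (R q)

lemma pt_comp (hD : CurveData κ p w T B G x P Q g t₀ v₀)
    (hB : ∀ u : ℂˣ, (fun i => u ^ B i) ∈ T) {E : Type} {S R V : E → ℂ} {q : E} (hS : S q ≠ 0) :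
    pt T (comp κ w B P Q S R V q) = pt T (coords w P Q (R q / S q) (V q / S q ^ κ)) := by
  symm
  rw [pt_eq_iff]
  refine ⟨_, hB (Units.mk0 (S q) hS), fun i => ?_⟩
  by_cases hi : i = w
  · subst hi
    simp only [comp, coords, if_true]
    rw [homF_eq hD.degQ hS, Units.val_pow_eq_pow_val, Units.val_mk0]
    obtain ⟨k, hk⟩ := Nat.exists_eq_add_of_le hD.leB
    rw [hk, Nat.add_sub_cancel_left, pow_add]
    field_simp
  · simp only [comp, coords, if_neg hi]
    rw [homF_eq (hD.degP i hi) hS, Units.val_pow_eq_pow_val, Units.val_mk0]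

lemma comp_good (hκ : κ * p = 2) (hD : CurveData κ p w T B G x P Q g t₀ v₀)
    {U : Set (Set ι)} (hU : IsCompleteToric T U)
    (hB : ∀ u : ℂˣ, (fun i => u ^ B i) ∈ T) (hx : supp x ∈ U) {E : Type} {pts : Set E}
    {S R V : E → ℂ} (hinf : pts.Infinite) (h : ParamOn pts S R V κ p g t₀ v₀) :
    {q | q ∈ pts ∧ pt T (comp κ w B P Q S R V q) ∉ subvariety T U G}.Finite ∧
    (∃ q ∈ pts, pt T (comp κ w B P Q S R V q) = pt T x) ∧
    ∃ q ∈ pts, pt T (comp κ w B P Q S R V q) ∈ subvariety T U G ∧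
      pt T (comp κ w B P Q S R V q) ≠ pt T x := by
  obtain ⟨Bad, hBfin, hgood⟩ := exists_bad hD hU hx
  obtain ⟨⟨q₀, hq₀, h1, h2, h3⟩, h4, h5⟩ := h
  have hκp : κ * (p + 1) = κ + 2 := by
    have : κ * (p + 1) = κ * p + κ := by ring
    omega
  have hgq : ∀ q ∈ pts, S q ≠ 0 → V q ^ (p + 1) = S q ^ (κ + 2) * g.eval (R q / S q) →
      R q / S q ∉ Bad → pt T (comp κ w B P Q S R V q) ∈ subvariety T U G ∧
        pt T (comp κ w B P Q S R V q) ≠ pt T x := by
    intro q _ hS hV hbad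
    have hv : (V q / S q ^ κ) ^ (p + 1) = g.eval (R q / S q) := by
      rw [div_pow, hV, ← pow_mul, hκp]
      field_simp
    obtain ⟨g1, g2, g3⟩ := hgood _ _ hv hbad
    rw [pt_comp hD hB hS]
    exact ⟨⟨_, rfl, g1, g2⟩, g3⟩
  have hfin : {q | q ∈ pts ∧ ¬ (pt T (comp κ w B P Q S R V q) ∈ subvariety T U G ∧
        pt T (comp κ w B P Q S R V q) ≠ pt T x)}.Finite := by
    refine (h4.union (hBfin.biUnion fun t _ => h5 t)).subset ?_
    rintro q ⟨hq, hne⟩
    by_cases hc : S q ≠ 0 ∧ V q ^ (p + 1) = S q ^ (κ + 2) * g.eval (R q / S q)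
    · right
      rw [Set.mem_iUnion₂]
      have hb : R q / S q ∈ Bad := by
        by_contra hb
        exact hne (hgq q hq hc.1 hc.2 hb)
      refine ⟨R q / S q, hb, hq, ?_⟩
      have := hc.1
      field_simp
    · left
      exact ⟨hq, hc⟩
  refine ⟨?_, ⟨q₀, hq₀, ?_⟩, ?_⟩
  · refine hfin.subset ?_
    rintro q ⟨hq, hne⟩
    exact ⟨hq, fun h => hne h.1⟩
  · rw [pt_comp hD hB h1, h2, h3]
    congr 1
    rw [mul_div_assoc, div_self h1, mul_one, mul_div_assoc, div_self (pow_ne_zero _ h1), mul_one]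
    exact hD.start
  · obtain ⟨q, hq, hq2⟩ := (hinf.diff hfin).nonempty
    have hq3 : pt T (comp κ w B P Q S R V q) ∈ subvariety T U G ∧
        pt T (comp κ w B P Q S R V q) ≠ pt T x := by
      by_contra hne
      exact hq2 ⟨hq, hne⟩
    exact ⟨q, hq, hq3⟩

lemma affineE_infinite (a b : ℂ) : (affineE a b).Infinite := by
  have h : ∀ ξ : ℂ, ∃ η : ℂ, (ξ, η) ∈ affineE a b := by
    intro ξ
    obtain ⟨η, hη⟩ := exists_root two_ne_zero (ξ ^ 3 + a * ξ + b)
    exact ⟨η, hη⟩
  choose η hη using h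
  have : Set.Infinite (Set.range fun ξ => (ξ, η ξ)) := by
    apply Set.infinite_range_of_injective
    intro ξ ξ' h
    exact congrArg Prod.fst h
  refine this.mono ?_
  rintro _ ⟨ξ, rfl⟩
  exact hη ξ

/-- Points on curves of genus at most one are on images of `G_m` or of elliptic curves. -/
theorem mem_sab (hκ : κ * p = 2) (hD : CurveData κ p w T B G x P Q g t₀ v₀)
    {U : Set (Set ι)} (hU : IsCompleteToric T U)
    (hB : ∀ u : ℂˣ, (fun i => u ^ B i) ∈ T) (hx : supp x ∈ U)
    (hxG : ∀ j, MvPolynomial.eval x (G j) = 0) :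
    pt T x ∈ gmPoints (subvariety T U G) ∪ ellipticPoints (subvariety T U G) := by
  have hX : pt T x ∈ subvariety T U G := ⟨x, rfl, hx, hxG⟩
  rcases hasParam hκ hD.degg hD.onCurve hD.v0 with ⟨S, R, V, h⟩ | ⟨a, b, hab, S, R, V, h⟩
  · left
    have hinf : {z : ℂ | z ≠ 0}.Infinite := by
      have : {z : ℂ | z ≠ 0} = ({0} : Set ℂ)ᶜ := by
        ext z
        simp
      rw [this]
      exact (Set.finite_singleton 0).infinite_compl
    obtain ⟨h1, h2, h3⟩ := comp_good hκ hD hU hB hx hinf h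
    set A : ι → ℂ[X] := fun i => if i = w then
      (∑ k ∈ Finset.range (B w - κ + 1), C (Q.coeff k) * S ^ (B w - κ - k) * R ^ k) * V
      else ∑ k ∈ Finset.range (B i + 1), C ((P i).coeff k) * S ^ (B i - k) * R ^ k with hA
    have hAe : ∀ z : ℂ, comp κ w B P Q (fun z => S.eval z) (fun z => R.eval z)
        (fun z => V.eval z) z = fun i => (A i).eval z := by
      intro z
      funext i
      by_cases hi : i = w
      · simp only [comp, hA, if_pos hi, homF, eval_mul, eval_finsetSum, eval_C, eval_pow]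
      · simp only [comp, hA, if_neg hi, homF, eval_mul, eval_finsetSum, eval_C, eval_pow]
    simp only [hAe] at h1 h2 h3
    exact ⟨hX, A, h1, h2, h3⟩
  · right
    obtain ⟨h1, h2, h3⟩ := comp_good hκ hD hU hB hx (affineE_infinite a b) h
    set A : ι → MvPolynomial (Fin 2) ℂ := fun i => if i = w then
      (∑ k ∈ Finset.range (B w - κ + 1), MvPolynomial.C (Q.coeff k) * S ^ (B w - κ - k) * R ^ k) * V
      else ∑ k ∈ Finset.range (B i + 1), MvPolynomial.C ((P i).coeff k) * S ^ (B i - k) * R ^ k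
      with hA
    have hAe : ∀ q : ℂ × ℂ, comp κ w B P Q (fun q : ℂ × ℂ => MvPolynomial.eval ![q.1, q.2] S)
        (fun q => MvPolynomial.eval ![q.1, q.2] R)
        (fun q => MvPolynomial.eval ![q.1, q.2] V) q =
        fun i => MvPolynomial.eval ![q.1, q.2] (A i) := by
      intro q
      funext i
      by_cases hi : i = w
      · simp only [comp, hA, if_pos hi, homF, map_mul, map_sum, MvPolynomial.eval_C, map_pow]
      · simp only [comp, hA, if_neg hi, homF, map_mul, map_sum, MvPolynomial.eval_C, map_pow]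
    simp only [hAe] at h1 h2 h3
    exact ⟨hX, a, b, hab, A, h1, h2, h3⟩

end

end Pool.Agent.H6.Toric
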