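import Mathlib
import Pool.Agent.H6.Toric.Down

/-!
# Curve data from two reflections of order two, or one of order four
-/

set_option autoImplicit false

open Polynomial

namespace Pool.Agent.H6.Toric

variable {ι : Type*}

lemma exists_conic' (α β : ℂ) :
    ∃ (σ τ ρ : ℂ[X]), σ.natDegree ≤ 2 ∧ τ.natDegree ≤ 2 ∧ ρ.natDegree ≤ 2 ∧
      (∀ z, ρ.eval z ^ 2 = (σ.eval z - α * τ.eval z) * (σ.eval z - β * τ.eval z)) ∧
      σ.eval 1 = 1 ∧ τ.eval 1 = 0 ∧ ρ.eval 1 = 1 ∧ τ ≠ 0 := by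
  by_cases h : α = β
  · subst h
    refine ⟨1, X - 1, 1 - C α * (X - 1), ?_, ?_, ?_, ?_, ?_, ?_, ?_, ?_⟩
    · simp
    · refine (natDegree_sub_le _ _).trans ?_
      simp
    · have h1 : (X - 1 : ℂ[X]).natDegree ≤ 1 := by
        refine (natDegree_sub_le _ _).trans ?_
        simp
      refine (natDegree_sub_le _ _).trans ?_
      have h2 := (natDegree_C_mul_le α (X - 1 : ℂ[X])).trans h1
      simp only [natDegree_one]
      omega
    · intro z
      simp only [eval_sub, eval_mul, eval_C, eval_X, eval_one]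
      ring
    · simp
    · simp
    · simp
    · intro h0
      have := congrArg (Polynomial.eval 0) h0
      simp at this
  · have hba : β - α ≠ 0 := sub_ne_zero.mpr (Ne.symm h)
    have hν : (2 * X - 1 : ℂ[X]).natDegree ≤ 1 := by
      refine (natDegree_sub_le _ _).trans ?_
      have : (2 * X : ℂ[X]).natDegree ≤ 1 := by
        refine natDegree_mul_le.trans ?_
        simp
      simp only [natDegree_one]
      omega
    have hν2 : (1 - (2 * X - 1) ^ 2 : ℂ[X]).natDegree ≤ 2 := by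
      refine (natDegree_sub_le _ _).trans ?_
      have : ((2 * X - 1 : ℂ[X]) ^ 2).natDegree ≤ 2 := by
        refine natDegree_pow_le.trans ?_
        omega
      simp only [natDegree_one]
      omega
    refine ⟨1 + C (α * (β - α)⁻¹) * (1 - (2 * X - 1) ^ 2), C (β - α)⁻¹ * (1 - (2 * X - 1) ^ 2),
      2 * X - 1, ?_, ?_, ?_, ?_, ?_, ?_, ?_, ?_⟩
    · refine (natDegree_add_le _ _).trans ?_
      have := (natDegree_C_mul_le (α * (β - α)⁻¹) (1 - (2 * X - 1) ^ 2 : ℂ[X])).trans hν2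
      simp only [natDegree_one]
      omega
    · exact (natDegree_C_mul_le _ _).trans hν2
    · omega
    · intro z
      simp only [eval_sub, eval_mul, eval_ofNat, eval_X, eval_one, eval_add, eval_C, eval_pow]
      field_simp
      ring
    · simp; norm_num
    · simp; norm_num
    · simp; norm_num
    · intro h0
      have h1 := congrArg (Polynomial.eval (1 / 2)) h0
      simp only [eval_sub, eval_mul, eval_ofNat, eval_X, eval_one, eval_C, eval_pow,
        eval_zero] at h1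
      have h2 : (β - α)⁻¹ = 0 := by linear_combination h1
      exact inv_ne_zero hba h2

lemma natDegree_hom_le' {b : ℕ} (y : ℂ[X]) {σ τ : ℂ[X]} (hσ : σ.natDegree ≤ 2)
    (hτ : τ.natDegree ≤ 2) : (hom b y σ τ).natDegree ≤ 2 * b := by
  unfold hom
  apply natDegree_sum_le_of_forall_le
  intro k hk
  rw [Finset.mem_range] at hk
  refine natDegree_mul_le.trans ?_
  have h1 : (C (y.coeff k) * σ ^ (b - k)).natDegree ≤ 2 * (b - k) := by
    refine (natDegree_C_mul_le _ _).trans (natDegree_pow_le.trans ?_)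
    calc (b - k) * σ.natDegree ≤ (b - k) * 2 := Nat.mul_le_mul_left _ hσ
      _ = 2 * (b - k) := by ring
  have h2 : (τ ^ k).natDegree ≤ 2 * k := by
    refine natDegree_pow_le.trans ?_
    calc k * τ.natDegree ≤ k * 2 := Nat.mul_le_mul_left _ hτ
      _ = 2 * k := by ring
  omega

/-- Pull back a curve in the quotient. -/
lemma up [Fintype ι] [DecidableEq ι] {c : ℕ} {T : Subgroup (ι → ℂˣ)} {ρ b : ι → ℕ}
    (hbT : ∀ u : ℂˣ, (fun i => u ^ b i) ∈ T)
    {e : Fin c → ℕ} {G : Fin c → MvPolynomial ι ℂ} (hdvd : ∀ j, ∀ u ∈ (G j).support, ∀ i, ρ i ∣ u i)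
    (hG : ∀ j, MvPolynomial.IsWeightedHomogeneous b (G j) (e j)) {x : ι → ℂ} {y : ι → ℂ[X]}
    (hyG : ∀ j, MvPolynomial.aeval y (contract ρ (G j)) = 0)
    (hfin : {t : ℂ | ∃ a ∈ T, ∀ i, (y i).eval t = ((a i : ℂ) * x i) ^ ρ i}.Finite)
    {σ τ : ℂ[X]} (hσ1 : σ.eval 1 = 1) (hτ1 : τ.eval 1 = 0) (hτ0 : τ ≠ 0)
    {w : ι} {P : ι → ℂ[X]} {Q g : ℂ[X]} (Z : ι → ℂ[X])
    (hZ : ∀ z v : ℂ, v ^ 2 = g.eval z → ∀ i, (Z i).eval z = coords w P Q z v i ^ ρ i)
    (hZy : ∀ z, σ.eval z ≠ 0 → ∀ i,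
      (Z i).eval z = σ.eval z ^ (ρ i * b i) * (y i).eval (τ.eval z / σ.eval z)) :
    (∀ j z v, v ^ 2 = g.eval z → MvPolynomial.eval (coords w P Q z v) (G j) = 0) ∧
    {z : ℂ | ∃ v, v ^ 2 = g.eval z ∧ ∃ a ∈ T, ∀ i, coords w P Q z v i = (a i : ℂ) * x i}.Finite := by
  classical
  have hσ0 : σ ≠ 0 := by
    intro h
    rw [h] at hσ1
    simp at hσ1
  have hroots : ∀ q : ℂ[X], q ≠ 0 → {t : ℂ | q.eval t = 0}.Finite := by
    intro q hq
    refine (q.roots.toFinset.finite_toSet).subset ?_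
    intro t ht
    rw [Finset.mem_coe, Multiset.mem_toFinset, mem_roots hq]
    exact ht
  have hpoly : ∀ j, MvPolynomial.aeval Z (contract ρ (G j)) = 0 := by
    intro j
    apply eq_of_eval_eq σ.roots.toFinset
    intro z hz
    have hσz : σ.eval z ≠ 0 := by
      intro h
      apply hz
      rw [Multiset.mem_toFinset, mem_roots hσ0]
      exact h
    have h1 : (fun i => (Z i).eval z) =
        fun i => σ.eval z ^ (ρ i * b i) * (y i).eval (τ.eval z / σ.eval z) :=
      funext fun i => hZy z hσz i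
    rw [eval_aeval, h1, eval_weighted (contract_isWeightedHomogeneous ρ b (G j) (hdvd j) (hG j)),
      ← eval_aeval, hyG]
    simp
  refine ⟨?_, ?_⟩
  · intro j z v hv
    rw [← eval_contract ρ (G j) (hdvd j) _ (fun i => (Z i).eval z) (hZ z v hv), ← eval_aeval,
      hpoly, eval_zero]
  · have hne : ∀ t : ℂ, τ - C t * σ ≠ 0 := by
      intro t h
      by_cases ht : t = 0
      · subst ht
        apply hτ0
        simpa using h
      · have h1 := congrArg (Polynomial.eval 1) h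
        simp only [eval_sub, eval_mul, eval_C, hτ1, hσ1, eval_zero] at h1
        apply ht
        linear_combination -h1
    refine Set.Finite.subset ((hroots σ hσ0).union
      (hfin.biUnion fun t _ => hroots (τ - C t * σ) (hne t))) ?_
    rintro z ⟨v, hv, a, haT, ha⟩
    by_cases hσz : σ.eval z = 0
    · exact Or.inl hσz
    · right
      rw [Set.mem_iUnion₂]
      refine ⟨τ.eval z / σ.eval z, ⟨(fun i => (Units.mk0 _ hσz)⁻¹ ^ b i) * a,
        T.mul_mem (hbT _) haT, fun i => ?_⟩, ?_⟩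
      · have h1 := hZy z hσz i
        rw [hZ z v hv i, ha i] at h1
        have h2 : σ.eval z ^ (ρ i * b i) ≠ 0 := pow_ne_zero _ hσz
        apply mul_left_cancel₀ h2
        rw [← h1]
        simp only [Pi.mul_apply, Units.val_mul, Units.val_pow_eq_pow_val, Units.val_inv_eq_inv_val,
          Units.val_mk0]
        rw [mul_assoc ((eval z σ)⁻¹ ^ b i), mul_pow ((eval z σ)⁻¹ ^ b i), ← pow_mul,
          mul_comm (b i) (ρ i), inv_pow, ← mul_assoc (eval z σ ^ (ρ i * b i)),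
          mul_inv_cancel₀ h2, one_mul]
      · show (τ - C (τ.eval z / σ.eval z) * σ).eval z = 0
        simp only [eval_sub, eval_mul, eval_C]
        field_simp
        ring

/-- The exponents for two reflections of order two. -/
def twoRefl [DecidableEq ι] (w₁ w₂ : ι) : ι → ℕ := fun i => if i = w₁ ∨ i = w₂ then 2 else 1

lemma linear_factor {F : ℂ[X]} (hd : F.natDegree ≤ 1) (h0 : F.coeff 0 = 1) (t : ℂ) :
    F.eval t = 1 - (-F.coeff 1) * t := by
  conv_lhs => rw [Polynomial.eq_X_add_C_of_natDegree_le_one hd]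
  simp [h0]
  ring

lemma quadratic_hom {F σ τ : ℂ[X]} (hσ : σ.natDegree ≤ 2) (hτ : τ.natDegree ≤ 2) :
    (hom 2 F σ τ).natDegree ≤ 4 := natDegree_hom_le' (b := 2) F hσ hτ

/-- The data for two reflections of order two. -/
theorem exists_data_two [Fintype ι] [DecidableEq ι] {c : ℕ} (T : Subgroup (ι → ℂˣ)) (w₁ w₂ : ι)
    (hw : w₁ ≠ w₂) (b : ι → ℕ) (hb₁ : 1 ≤ b w₁) (hb₂ : 1 ≤ b w₂)
    (hbT : ∀ u : ℂˣ, (fun i => u ^ b i) ∈ T) (e : Fin c → ℕ)
    (G : Fin c → MvPolynomial ι ℂ)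
    (hdvd : ∀ j, ∀ u ∈ (G j).support, 2 ∣ u w₁ ∧ 2 ∣ u w₂)
    (hG : ∀ j, MvPolynomial.IsWeightedHomogeneous b (G j) (e j))
    (hdeg : ∑ j, e j ≤ ∑ i, b i) (x : ι → ℂ) (hxw₁ : x w₁ ≠ 0) (hxw₂ : x w₂ ≠ 0)
    (hx : ∀ j, MvPolynomial.eval x (G j) = 0)
    (hind : IndecomposableR T (twoRefl w₁ w₂) b x) :
    ∃ (P : ι → ℂ[X]) (Q g : ℂ[X]), CurveData 2 1 w₂ T (fun i => 2 * b i) G x P Q g 1 1 := by
  classical
  set ρ := twoRefl w₁ w₂ with hρ
  have hρ₁ : ρ w₁ = 2 := by simp [hρ, twoRefl]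
  have hρ₂ : ρ w₂ = 2 := by simp [hρ, twoRefl]
  have hρi : ∀ i, i ≠ w₁ → i ≠ w₂ → ρ i = 1 := by
    intro i h1 h2
    simp [hρ, twoRefl, h1, h2]
  have hρ1 : ∀ i, 1 ≤ ρ i := by
    intro i
    simp only [hρ, twoRefl]
    split_ifs <;> omega
  have hdvd' : ∀ j, ∀ m ∈ (G j).support, ∀ i, ρ i ∣ m i := by
    intro j m hm i
    by_cases h : i = w₁
    · subst h
      rw [hρ₁]
      exact (hdvd j m hm).1
    · by_cases h' : i = w₂
      · subst h'
        rw [hρ₂]
        exact (hdvd j m hm).2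
      · rw [hρi i h h']
        exact one_dvd _
  -- the factors
  let o : Fin 5 → ι := ![w₁, w₁, w₁, w₂, w₂]
  let n : Fin 5 → ℕ := ![b w₁ - 1, 1, 1, b w₂ - 1, 2]
  let m : Fin 5 → ℕ := ![2, 1, 1, 2, 1]
  have hw' : w₂ ≠ w₁ := hw.symm
  have hprod₁ : ∀ {M : Type} [CommMonoid M] (f : Fin 5 → M),
      ∏ k with o k = w₁, f k = f 0 * f 1 * f 2 := by
    intro M _ f
    rw [Finset.prod_filter, Fin.prod_univ_five]
    simp [o, hw']
  have hprod₂ : ∀ {M : Type} [CommMonoid M] (f : Fin 5 → M),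
      ∏ k with o k = w₂, f k = f 3 * f 4 := by
    intro M _ f
    rw [Finset.prod_filter, Fin.prod_univ_five]
    simp [o, hw]
  have hsum₁ : ∀ (f : Fin 5 → ℕ), ∑ k with o k = w₁, f k = f 0 + f 1 + f 2 := by
    intro f
    rw [Finset.sum_filter, Fin.sum_univ_five]
    simp [o, hw']
  have hsum₂ : ∀ (f : Fin 5 → ℕ), ∑ k with o k = w₂, f k = f 3 + f 4 := by
    intro f
    rw [Finset.sum_filter, Fin.sum_univ_five]
    simp [o, hw]
  have hsum : ∑ i, b i + 2 = ∑ i, (if i = w₁ ∨ i = w₂ then 0 else b i) + ∑ k, n k := by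
    have h1 : ∀ i, b i = (if i = w₁ ∨ i = w₂ then 0 else b i) + (if i = w₁ then b w₁ else 0) +
        (if i = w₂ then b w₂ else 0) := by
      intro i
      by_cases h : i = w₁
      · subst h
        simp [hw]
      · by_cases h' : i = w₂
        · subst h'
          simp [h]
        · simp [h, h']
    have h2 : ∑ i, b i = ∑ i, (if i = w₁ ∨ i = w₂ then 0 else b i) + b w₁ + b w₂ := by
      rw [Finset.sum_congr rfl fun i _ => h1 i, Finset.sum_add_distrib, Finset.sum_add_distrib]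
      simp
    rw [h2, Fin.sum_univ_five]
    simp only [n, Matrix.cons_val_zero, Matrix.cons_val_one, Matrix.cons_val]
    omega
  obtain ⟨y, F, hFd, hF0, hyR, hyd, hy0, hyG, hfin⟩ := exists_downstairs T ρ b hρ1
    (fun i => i = w₁ ∨ i = w₂) o n m (by decide) (by
      intro k
      fin_cases k <;> simp [o]) (by
      rintro i (rfl | rfl)
      · rw [hsum₁, hρ₁]
        simp only [n, m, Matrix.cons_val_zero, Matrix.cons_val_one, Matrix.cons_val]
        omega
      · rw [hsum₂, hρ₂]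
        simp only [n, m, Matrix.cons_val]
        omega) (by
      intro i hi
      push Not at hi
      exact hρi i hi.1 hi.2) e G hdvd' hG (by omega) x (by
      rintro i (rfl | rfl)
      · exact hxw₁
      · exact hxw₂) hx w₁ hb₁ hxw₁ hind
  have hy₁ : y w₁ = C (x w₁ ^ 2) * (F 0 ^ 2 * F 1 * F 2) := by
    have h1 := hyR w₁ (Or.inl rfl)
    rw [hprod₁, hρ₁] at h1
    simpa [m] using h1
  have hy₂ : y w₂ = C (x w₂ ^ 2) * (F 3 ^ 2 * F 4) := by
    have h1 := hyR w₂ (Or.inr rfl)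
    rw [hprod₂, hρ₂] at h1
    simpa [m] using h1
  have hd0 : (F 0).natDegree ≤ b w₁ - 1 := hFd 0
  have hd1 : (F 1).natDegree ≤ 1 := hFd 1
  have hd2 : (F 2).natDegree ≤ 1 := hFd 2
  have hd3 : (F 3).natDegree ≤ b w₂ - 1 := hFd 3
  have hd4 : (F 4).natDegree ≤ 2 := hFd 4
  obtain ⟨σ, τ, κ, hσd, hτd, hκd, hκ, hσ1, hτ1, hκ1, hτ0⟩ :=
    exists_conic' (-(F 1).coeff 1) (-(F 2).coeff 1)
  let P : ι → ℂ[X] := fun i => if i = w₁ then C (x w₁) * hom (b w₁ - 1) (F 0) σ τ * κ
    else hom (b i) (y i) σ τ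
  let Q : ℂ[X] := C (x w₂) * hom (b w₂ - 1) (F 3) σ τ
  let g : ℂ[X] := hom 2 (F 4) σ τ
  let Z : ι → ℂ[X] := fun i => if i = w₂ then Q ^ 2 * g else (P i) ^ ρ i
  have hP₁ : P w₁ = C (x w₁) * hom (b w₁ - 1) (F 0) σ τ * κ := by simp only [P, if_true]
  have hPi : ∀ i, i ≠ w₁ → P i = hom (b i) (y i) σ τ := by
    intro i hi
    simp only [P, if_neg hi]
  have hZ : ∀ z v : ℂ, v ^ 2 = g.eval z → ∀ i, (Z i).eval z = coords w₂ P Q z v i ^ ρ i := by
    intro z v hv i
    by_cases h : i = w₂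
    · subst h
      simp only [Z, coords, if_true]
      rw [hρ₂, eval_mul, eval_pow, mul_pow, hv]
    · simp only [Z, coords, if_neg h]
      rw [eval_pow]
  have hZy : ∀ z, σ.eval z ≠ 0 → ∀ i,
      (Z i).eval z = σ.eval z ^ (ρ i * b i) * (y i).eval (τ.eval z / σ.eval z) := by
    intro z hz i
    by_cases h : i = w₂
    · subst h
      simp only [Z, if_true]
      rw [hρ₂, hy₂]
      simp only [Q, g, eval_mul, eval_pow, eval_C]
      rw [eval_hom hd3 hz, eval_hom hd4 hz]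
      obtain ⟨k, hk⟩ := Nat.exists_eq_add_of_le hb₂
      rw [hk, Nat.add_sub_cancel_left]
      ring
    · simp only [Z, if_neg h]
      by_cases h' : i = w₁
      · subst h'
        rw [hρ₁, hy₁, hP₁]
        simp only [eval_mul, eval_pow, eval_C]
        rw [eval_hom hd0 hz, mul_pow, hκ z, linear_factor hd1 (hF0 1), linear_factor hd2 (hF0 2)]
        have h3 : ∀ α : ℂ, eval z σ - α * eval z τ = eval z σ * (1 - α * (eval z τ / eval z σ)) := by
          intro α
          field_simp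
        rw [h3, h3]
        obtain ⟨k, hk⟩ := Nat.exists_eq_add_of_le hb₁
        rw [hk, Nat.add_sub_cancel_left]
        ring
      · rw [hρi i h' h, pow_one, one_mul, hPi i h', eval_hom (hyd i (by
          push Not
          exact ⟨h', h⟩)) hz]
  obtain ⟨hzero, hnonconst⟩ := up hbT hdvd' hG hyG hfin hσ1 hτ1 hτ0 Z hZ hZy
  have hσ1' : σ.eval 1 ≠ 0 := by rw [hσ1]; exact one_ne_zero
  refine ⟨P, Q, g, ?_, ?_, ?_, quadratic_hom hσd hτd, ?_, one_ne_zero, ?_, hzero, hnonconst⟩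
  · intro i hi
    by_cases h' : i = w₁
    · subst h'
      rw [hP₁]
      have h1 : (C (x i) * hom (b i - 1) (F 0) σ τ).natDegree ≤ 2 * (b i - 1) :=
        (natDegree_C_mul_le _ _).trans (natDegree_hom_le' _ hσd hτd)
      refine natDegree_mul_le.trans ?_
      omega
    · rw [hPi i h']
      exact natDegree_hom_le' _ hσd hτd
  · have h1 : (C (x w₂) * hom (b w₂ - 1) (F 3) σ τ).natDegree ≤ 2 * (b w₂ - 1) :=
      (natDegree_C_mul_le _ _).trans (natDegree_hom_le' _ hσd hτd)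
    show (C (x w₂) * hom (b w₂ - 1) (F 3) σ τ).natDegree ≤ 2 * b w₂ - 2
    omega
  · show 2 ≤ 2 * b w₂
    omega
  · funext i
    by_cases h : i = w₂
    · subst h
      simp only [coords, if_true, Q, eval_mul, eval_C]
      rw [eval_hom hd3 hσ1', hσ1, hτ1, zero_div, ← coeff_zero_eq_eval_zero, hF0]
      simp
    · simp only [coords, if_neg h]
      by_cases h' : i = w₁
      · subst h'
        rw [hP₁]
        simp only [eval_mul, eval_C]
        rw [eval_hom hd0 hσ1', hσ1, hτ1, hκ1, zero_div, ← coeff_zero_eq_eval_zero, hF0]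
        simp
      · rw [hPi i h', eval_hom (hyd i (by
          push Not
          exact ⟨h', h⟩)) hσ1', hσ1, hτ1, zero_div, ← coeff_zero_eq_eval_zero, hy0,
          hρi i h' h]
        simp
  · show (1 : ℂ) ^ (1 + 1) = (hom 2 (F 4) σ τ).eval 1
    rw [eval_hom hd4 hσ1', hσ1, hτ1, zero_div, ← coeff_zero_eq_eval_zero, hF0]
    simp

/-- The data for one reflection of order four. -/
theorem exists_data_four [Fintype ι] [DecidableEq ι] {c : ℕ} (T : Subgroup (ι → ℂˣ)) (w : ι)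
    (b : ι → ℕ) (hb : 1 ≤ b w)
    (hbT : ∀ u : ℂˣ, (fun i => u ^ b i) ∈ T) (e : Fin c → ℕ)
    (G : Fin c → MvPolynomial ι ℂ)
    (hdvd : ∀ j, ∀ u ∈ (G j).support, 4 ∣ u w)
    (hG : ∀ j, MvPolynomial.IsWeightedHomogeneous b (G j) (e j))
    (hdeg : ∑ j, e j ≤ ∑ i, b i) (x : ι → ℂ) (hxw : x w ≠ 0)
    (hx : ∀ j, MvPolynomial.eval x (G j) = 0)
    (hind : IndecomposableR T (oneRefl w 4) b x) :
    ∃ (P : ι → ℂ[X]) (Q g : ℂ[X]), CurveData 2 1 w T (fun i => 2 * b i) G x P Q g 1 1 := by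
  classical
  set ρ := oneRefl w 4 with hρ
  have hρw : ρ w = 4 := by simp [hρ, oneRefl]
  have hρi : ∀ i, i ≠ w → ρ i = 1 := by
    intro i h1
    simp [hρ, oneRefl, h1]
  have hρ1 : ∀ i, 1 ≤ ρ i := by
    intro i
    simp only [hρ, oneRefl]
    split_ifs <;> omega
  have hdvd' : ∀ j, ∀ m ∈ (G j).support, ∀ i, ρ i ∣ m i := by
    intro j m hm i
    by_cases h : i = w
    · subst h
      rw [hρw]
      exact hdvd j m hm
    · rw [hρi i h]
      exact one_dvd _
  -- the factors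
  let o : Fin 4 → ι := fun _ => w
  let n : Fin 4 → ℕ := ![b w - 1, 1, 1, 1]
  let m : Fin 4 → ℕ := ![4, 1, 1, 2]
  have hprod : ∀ {M : Type} [CommMonoid M] (f : Fin 4 → M),
      ∏ k with o k = w, f k = f 0 * f 1 * f 2 * f 3 := by
    intro M _ f
    rw [Finset.prod_filter, Fin.prod_univ_four]
    simp [o]
  have hsum₁ : ∀ (f : Fin 4 → ℕ), ∑ k with o k = w, f k = f 0 + f 1 + f 2 + f 3 := by
    intro f
    rw [Finset.sum_filter, Fin.sum_univ_four]
    simp [o]
  have hsum : ∑ i, b i + 2 = ∑ i, (if i = w then 0 else b i) + ∑ k, n k := by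
    have h1 : ∀ i, b i = (if i = w then 0 else b i) + (if i = w then b w else 0) := by
      intro i
      by_cases h : i = w
      · subst h
        simp
      · simp [h]
    have h2 : ∑ i, b i = ∑ i, (if i = w then 0 else b i) + b w := by
      rw [Finset.sum_congr rfl fun i _ => h1 i, Finset.sum_add_distrib]
      simp
    rw [h2, Fin.sum_univ_four]
    simp only [n, Matrix.cons_val_zero, Matrix.cons_val_one, Matrix.cons_val]
    omega
  obtain ⟨y, F, hFd, hF0, hyR, hyd, hy0, hyG, hfin⟩ := exists_downstairs T ρ b hρ1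
    (fun i => i = w) o n m (by decide) (fun k => rfl) (by
      rintro i rfl
      rw [hsum₁, hρw]
      simp only [n, m, Matrix.cons_val_zero, Matrix.cons_val_one, Matrix.cons_val]
      omega) hρi e G hdvd' hG (by omega) x (by
      rintro i rfl
      exact hxw) hx w hb hxw hind
  have hyw : y w = C (x w ^ 4) * (F 0 ^ 4 * F 1 * F 2 * F 3 ^ 2) := by
    have h1 := hyR w rfl
    rw [hprod, hρw] at h1
    simpa [m] using h1
  have hd0 : (F 0).natDegree ≤ b w - 1 := hFd 0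
  have hd1 : (F 1).natDegree ≤ 1 := hFd 1
  have hd2 : (F 2).natDegree ≤ 1 := hFd 2
  have hd3 : (F 3).natDegree ≤ 1 := hFd 3
  obtain ⟨σ, τ, κ, hσd, hτd, hκd, hκ, hσ1, hτ1, hκ1, hτ0⟩ :=
    exists_conic' (-(F 1).coeff 1) (-(F 2).coeff 1)
  let P : ι → ℂ[X] := fun i => hom (b i) (y i) σ τ
  let Q : ℂ[X] := C (x w) * hom (b w - 1) (F 0) σ τ
  let g : ℂ[X] := κ * hom 1 (F 3) σ τ
  let Z : ι → ℂ[X] := fun i => if i = w then Q ^ 4 * g ^ 2 else P i
  have hZ : ∀ z v : ℂ, v ^ 2 = g.eval z → ∀ i, (Z i).eval z = coords w P Q z v i ^ ρ i := by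
    intro z v hv i
    by_cases h : i = w
    · subst h
      simp only [Z, coords, if_true]
      rw [hρw, eval_mul, eval_pow, eval_pow, mul_pow, ← hv]
      ring
    · simp only [Z, coords, if_neg h]
      rw [hρi i h, pow_one]
  have hZy : ∀ z, σ.eval z ≠ 0 → ∀ i,
      (Z i).eval z = σ.eval z ^ (ρ i * b i) * (y i).eval (τ.eval z / σ.eval z) := by
    intro z hz i
    by_cases h : i = w
    · subst h
      simp only [Z, if_true]
      rw [hρw, hyw]
      simp only [Q, g, eval_mul, eval_pow, eval_C]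
      rw [eval_hom hd0 hz, eval_hom hd3 hz, mul_pow (eval z κ), hκ z,
        linear_factor hd1 (hF0 1), linear_factor hd2 (hF0 2)]
      have h3 : ∀ α : ℂ, eval z σ - α * eval z τ = eval z σ * (1 - α * (eval z τ / eval z σ)) := by
        intro α
        field_simp
      rw [h3, h3]
      obtain ⟨k, hk⟩ := Nat.exists_eq_add_of_le hb
      rw [hk, Nat.add_sub_cancel_left]
      ring
    · simp only [Z, if_neg h, P]
      rw [hρi i h, one_mul, eval_hom (hyd i h) hz]
  obtain ⟨hzero, hnonconst⟩ := up hbT hdvd' hG hyG hfin hσ1 hτ1 hτ0 Z hZ hZy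
  have hσ1' : σ.eval 1 ≠ 0 := by rw [hσ1]; exact one_ne_zero
  refine ⟨P, Q, g, ?_, ?_, ?_, ?_, ?_, one_ne_zero, ?_, hzero, hnonconst⟩
  · intro i hi
    exact natDegree_hom_le' _ hσd hτd
  · have h1 : (C (x w) * hom (b w - 1) (F 0) σ τ).natDegree ≤ 2 * (b w - 1) :=
      (natDegree_C_mul_le _ _).trans (natDegree_hom_le' _ hσd hτd)
    show (C (x w) * hom (b w - 1) (F 0) σ τ).natDegree ≤ 2 * b w - 2
    omega
  · show 2 ≤ 2 * b w
    omega
  · have h1 : (hom 1 (F 3) σ τ).natDegree ≤ 2 := natDegree_hom_le' (b := 1) _ hσd hτd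
    refine natDegree_mul_le.trans ?_
    omega
  · funext i
    by_cases h : i = w
    · subst h
      simp only [coords, if_true, Q, eval_mul, eval_C]
      rw [eval_hom hd0 hσ1', hσ1, hτ1, zero_div, ← coeff_zero_eq_eval_zero, hF0]
      simp
    · simp only [coords, if_neg h, P]
      rw [eval_hom (hyd i h) hσ1', hσ1, hτ1, zero_div, ← coeff_zero_eq_eval_zero, hy0,
        hρi i h]
      simp
  · show (1 : ℂ) ^ (1 + 1) = (κ * hom 1 (F 3) σ τ).eval 1
    rw [eval_mul, eval_hom hd3 hσ1', hσ1, hτ1, hκ1, zero_div, ← coeff_zero_eq_eval_zero, hF0]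
    simp

end Pool.Agent.H6.Toric
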