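import Mathlib
import Pool.Agent.H6.Toric.Sab
import Pool.Agent.H6.Toric.Up

/-!
# Calabi-Yau and Fano complete intersections with reflections in complete toric varieties
-/

set_option autoImplicit false

open Filter Topology Polynomial

namespace Pool.Agent.H6.Toric

/-- The reflection condition at the point with homogeneous coordinates `x`: there is a curve class
`b` (a one-parameter subgroup of `T`, `b i` being the intersection number with `{x_i = 0}`) with
`K_X · b = ∑ e_j - ∑ b_i ≤ 0`, where `e_j = {G_j = 0} · b`, and one of the following holds, the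
class `b` being indecomposable at `x` in the quotient by the reflections, whose mirrors do not
contain `x`:

* the `G j` depend on some `x_w` only through `x_w ^ 2`, and `b w ≥ 2`;
* the `G j` depend on some `x_w` only through `x_w ^ 3`, and `b w ≥ 1`;
* the `G j` depend on some `x_w` only through `x_w ^ 4`, and `b w ≥ 1`;
* the `G j` depend on `x_v`, `x_w`, `v ≠ w`, only through `x_v ^ 2`, `x_w ^ 2`, and
  `b v, b w ≥ 1`. -/
def ReflectionCondition {ι : Type} [Fintype ι] [DecidableEq ι] (T : Subgroup (ι → ℂˣ)) {c : ℕ}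
    (G : Fin c → MvPolynomial ι ℂ) (x : ι → ℂ) : Prop :=
  ∃ (b : ι → ℕ) (e : Fin c → ℕ), (∀ u : ℂˣ, (fun i => u ^ b i) ∈ T) ∧
    (∀ j, MvPolynomial.IsWeightedHomogeneous b (G j) (e j)) ∧ ∑ j, e j ≤ ∑ i, b i ∧
    ((∃ w, x w ≠ 0 ∧ 2 ≤ b w ∧ (∀ j, ∀ m ∈ (G j).support, 2 ∣ m w) ∧
        IndecomposableR T (oneRefl w 2) b x) ∨
      (∃ w, x w ≠ 0 ∧ 1 ≤ b w ∧ (∀ j, ∀ m ∈ (G j).support, 3 ∣ m w) ∧
        IndecomposableR T (oneRefl w 3) b x) ∨
      (∃ w, x w ≠ 0 ∧ 1 ≤ b w ∧ (∀ j, ∀ m ∈ (G j).support, 4 ∣ m w) ∧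
        IndecomposableR T (oneRefl w 4) b x) ∨
      (∃ v w, v ≠ w ∧ x v ≠ 0 ∧ x w ≠ 0 ∧ 1 ≤ b v ∧ 1 ≤ b w ∧
        (∀ j, ∀ m ∈ (G j).support, 2 ∣ m v ∧ 2 ∣ m w) ∧
        IndecomposableR T (twoRefl v w) b x))

/-- The points of `X` with the reflection condition. -/
def goodPart {ι : Type} [Fintype ι] [DecidableEq ι] (T : Subgroup (ι → ℂˣ)) (U : Set (Set ι))
    {c : ℕ} (G : Fin c → MvPolynomial ι ℂ) : Set (Orbits T) :=
  {P | ∃ x, P = pt T x ∧ supp x ∈ U ∧ (∀ j, MvPolynomial.eval x (G j) = 0) ∧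
    ReflectionCondition T G x}

/-- There is a curve of geometric genus at most one. -/
theorem exists_curveData {ι : Type} [Fintype ι] [DecidableEq ι] {T : Subgroup (ι → ℂˣ)}
    {c : ℕ} {G : Fin c → MvPolynomial ι ℂ} {x : ι → ℂ} (hx : ∀ j, MvPolynomial.eval x (G j) = 0)
    (h : ReflectionCondition T G x) :
    ∃ (κ p : ℕ) (w : ι) (B : ι → ℕ) (P : ι → ℂ[X]) (Q g : ℂ[X]) (t₀ v₀ : ℂ), κ * p = 2 ∧
      (∀ u : ℂˣ, (fun i => u ^ B i) ∈ T) ∧ CurveData κ p w T B G x P Q g t₀ v₀ := by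
  obtain ⟨b, e, hbT, hG, hdeg, h⟩ := h
  have hbT2 : ∀ u : ℂˣ, (fun i => u ^ (2 * b i)) ∈ T := by
    intro u
    have := hbT (u ^ 2)
    simpa only [← pow_mul] using this
  rcases h with ⟨w, hxw, hbw, hdvd, hind⟩ | ⟨w, hxw, hbw, hdvd, hind⟩ | ⟨w, hxw, hbw, hdvd, hind⟩ |
    ⟨v, w, hvw, hxv, hxw, hbv, hbw, hdvd, hind⟩
  · obtain ⟨P, Q, g, hD⟩ := exists_data_cyclic T w 2 1 rfl b hbw e G hdvd hG hdeg x hxw hx hind
    exact ⟨2, 1, w, b, P, Q, g, 0, 1, rfl, hbT, hD⟩
  · obtain ⟨P, Q, g, hD⟩ := exists_data_cyclic T w 1 2 rfl b hbw e G hdvd hG hdeg x hxw hx hind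
    exact ⟨1, 2, w, b, P, Q, g, 0, 1, rfl, hbT, hD⟩
  · obtain ⟨P, Q, g, hD⟩ := exists_data_four T w b hbw hbT e G hdvd hG hdeg x hxw hx hind
    exact ⟨2, 1, w, _, P, Q, g, 1, 1, rfl, hbT2, hD⟩
  · obtain ⟨P, Q, g, hD⟩ := exists_data_two T v w hvw b hbv hbw hbT e G hdvd hG hdeg x hxv hxw hx
      hind
    exact ⟨2, 1, w, _, P, Q, g, 1, 1, rfl, hbT2, hD⟩

/-! ### Weighted projective spaces -/

/-- Arithmetic of proportional vectors. -/
lemma proportional {ι : Type} [Fintype ι] (W c : ι → ℕ) (x : ι → ℂ)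
    (hgcd : ∀ k : ℕ, (∀ i, x i ≠ 0 → k ∣ W i) → k = 1) (hc : ∀ i, x i ≠ 0 → c i ≤ W i)
    (hprop : ∀ i j, x i ≠ 0 → x j ≠ 0 → c i * W j = c j * W i) :
    (∀ i, x i ≠ 0 → c i = 0) ∨ (∀ i, x i ≠ 0 → c i = W i) := by
  classical
  have hdvd : ∀ i, x i ≠ 0 → W i ∣ c i := by
    intro i hi
    set g := (Finset.univ.filter fun j => x j ≠ 0).gcd W with hg
    have hg1 : g = 1 := hgcd g fun j hj => Finset.gcd_dvd (by simpa using hj)
    have h1 : W i ∣ (Finset.univ.filter fun j => x j ≠ 0).gcd fun j => c i * W j := by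
      apply Finset.dvd_gcd
      intro j hj
      rw [hprop i j hi (by simpa using hj)]
      exact Dvd.intro_left _ rfl
    rw [Finset.gcd_mul_left, ← hg, hg1] at h1
    simpa using h1
  by_cases hall : ∀ i, x i ≠ 0 → c i = 0
  · exact Or.inl hall
  · right
    push Not at hall
    obtain ⟨i, hi, hci⟩ := hall
    have hai : 0 < W i := by
      rcases Nat.eq_zero_or_pos (W i) with h | h
      · have := hc i hi
        omega
      · exact h
    have hci' : c i = W i := by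
      have h1 := Nat.le_of_dvd (Nat.pos_of_ne_zero hci) (hdvd i hi)
      exact le_antisymm (hc i hi) h1
    intro j hj
    have h1 := hprop i j hi hj
    rw [hci', mul_comm (c j)] at h1
    exact (Nat.eq_of_mul_eq_mul_left hai h1).symm

lemma prod_zpow_sum {ι : Type} (u : ℂˣ) (s : Finset ι) (n : ι → ℤ) :
    ∏ l ∈ s, u ^ n l = u ^ (∑ l ∈ s, n l) := by
  classical
  induction s using Finset.induction_on with
  | empty => simp
  | insert i s hi ih => rw [Finset.prod_insert hi, Finset.sum_insert hi, zpow_add, ih]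

/-- In a weighted projective space the class of degree one is indecomposable at the points whose
nonzero coordinates (in the quotient by the reflections) have coprime weights. -/
lemma indecomposableR_weighted {ι : Type} [Fintype ι] (ρ a : ι → ℕ) (x : ι → ℂ)
    (hgcd : ∀ k : ℕ, (∀ i, x i ≠ 0 → k ∣ ρ i * a i) → k = 1) :
    IndecomposableR (weightedGroup a) ρ a x := by
  classical
  intro c hc hrel
  refine proportional (fun i => ρ i * a i) c x hgcd hc ?_
  intro i j hi hj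
  by_cases hij : i = j
  · subst hij
    rfl
  set m : ι → ℤ := fun l => if l = i then ((ρ j * a j : ℕ) : ℤ)
    else if l = j then -((ρ i * a i : ℕ) : ℤ) else 0 with hm
  have hmi : m i = ((ρ j * a j : ℕ) : ℤ) := by simp [hm]
  have hmj : m j = -((ρ i * a i : ℕ) : ℤ) := by simp [hm, Ne.symm hij]
  have hml : ∀ l, l ≠ i → l ≠ j → m l = 0 := by
    intro l h1 h2
    simp [hm, h1, h2]
  have hsum : ∀ f : ι → ℤ, ∑ l, m l * f l = m i * f i + m j * f j := by
    intro f
    rw [Finset.sum_eq_add i j hij]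
    · intro l _ h
      rw [hml l h.1 h.2, zero_mul]
    · intro h
      exact absurd (Finset.mem_univ i) h
    · intro h
      exact absurd (Finset.mem_univ j) h
  have h1 := hrel m ?_ ?_
  · rw [hsum, hmi, hmj] at h1
    have h2 : (c i : ℤ) * ((ρ j * a j : ℕ) : ℤ) = (c j : ℤ) * ((ρ i * a i : ℕ) : ℤ) := by
      linear_combination h1
    exact_mod_cast h2
  · intro l hl
    apply hml l
    · rintro rfl
      exact hi hl
    · rintro rfl
      exact hj hl
  · rintro _ ⟨u, rfl⟩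
    have h3 : ∀ l, ((fun i => u ^ a i) l : ℂˣ) ^ ((ρ l : ℤ) * m l) =
        u ^ (m l * ((ρ l : ℤ) * a l)) := by
      intro l
      show (u ^ a l) ^ ((ρ l : ℤ) * m l) = _
      rw [← zpow_natCast u (a l), ← zpow_mul]
      congr 1
      ring
    rw [Finset.prod_congr rfl fun l _ => h3 l, prod_zpow_sum u]
    rw [hsum, hmi, hmj]
    push_cast
    have h4 : (ρ j : ℤ) * a j * ((ρ i : ℤ) * a i) + -((ρ i : ℤ) * a i) * ((ρ j : ℤ) * a j) = 0 := by
      ring
    rw [h4, zpow_zero]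

/-- Weighted projective spaces are complete. -/
lemma isCompleteToric_weighted {ι : Type} [Fintype ι] (a : ι → ℕ) (ha : ∀ i, 1 ≤ a i) :
    IsCompleteToric (weightedGroup a) {S | S.Nonempty} := by
  classical
  refine ⟨fun S hS S' hSS' => Set.Nonempty.mono hSS' hS, fun S hS k => ?_⟩
  obtain ⟨i₀, hi₀, hmin⟩ := Finset.exists_min_image (Finset.univ.filter fun i => i ∈ S)
    (fun i => (k i : ℚ) / a i) (by
      obtain ⟨i, hi⟩ := hS
      exact ⟨i, by simpa using hi⟩)
  have hi₀S : i₀ ∈ S := by simpa using hi₀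
  refine ⟨a i₀, fun i => (k i₀ : ℤ) * a i, ha i₀, ?_, ?_, ?_⟩
  · intro u
    refine ⟨u ^ (k i₀), ?_⟩
    funext i
    show u ^ ((k i₀ : ℤ) * a i) = (u ^ k i₀) ^ a i
    rw [zpow_mul, zpow_natCast, zpow_natCast]
  · intro i hi
    have h1 := hmin i (by simpa using hi)
    have h2 : (0 : ℚ) < a i := by exact_mod_cast ha i
    have h3 : (0 : ℚ) < a i₀ := by exact_mod_cast ha i₀
    rw [div_le_div_iff₀ h3 h2] at h1
    have h4 : (k i₀ : ℤ) * a i ≤ k i * a i₀ := by exact_mod_cast h1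
    show (k i₀ : ℤ) * a i ≤ (a i₀ : ℤ) * k i
    linarith
  · refine ⟨i₀, hi₀S, ?_⟩
    show (k i₀ : ℤ) * a i₀ = (a i₀ : ℤ) * k i₀
    ring

/-- Zariski density of the good part. -/
lemma dense_of_irreducible {ι : Type} [Fintype ι] {T : Subgroup (ι → ℂˣ)} {U : Set (Set ι)}
    {c : ℕ} {G : Fin c → MvPolynomial ι ℂ} {S : Set (Orbits T)}
    (hirr : IsIrreducibleSet (subvariety T U G))
    (hne : ∃ x : ι → ℂ, (∀ i, x i ≠ 0) ∧ pt T x ∈ subvariety T U G)
    (hgood : ∀ x : ι → ℂ, (∀ i, x i ≠ 0) → pt T x ∈ subvariety T U G → pt T x ∈ S) :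
    subvariety T U G ⊆ zariskiClosureIn (subvariety T U G) S := by
  classical
  obtain ⟨x₀, hx₀, hx₀X⟩ := hne
  set X := subvariety T U G with hX
  set M : MvPolynomial ι ℂ := ∏ i, MvPolynomial.X i with hM
  have hMT : IsTHomogeneous T M := by
    intro g _
    refine ⟨∏ i, (g i : ℂ), Finset.prod_ne_zero_iff.mpr fun i _ => (g i).ne_zero, fun x => ?_⟩
    simp [hM, map_prod, Finset.prod_mul_distrib]
  have hT : zariskiClosureIn X {P | P ∈ X ∧ VanishesAt M P} = {P | P ∈ X ∧ VanishesAt M P} := by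
    apply Set.Subset.antisymm
    · rintro P ⟨hP, h⟩
      exact ⟨hP, h M hMT fun s hs => hs.2⟩
    · rintro P hP
      exact ⟨hP.1, fun Q _ hS => hS P hP⟩
  have hU : X = zariskiClosureIn X S ∪ {P | P ∈ X ∧ VanishesAt M P} := by
    apply Set.Subset.antisymm
    · intro P hP
      obtain ⟨x, rfl, hx, hGx⟩ := id hP
      by_cases h0 : ∀ i, x i ≠ 0
      · left
        exact ⟨hP, fun Q _ hS => hS _ (hgood x h0 hP)⟩
      · right
        push Not at h0
        obtain ⟨i, hi⟩ := h0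
        refine ⟨hP, x, rfl, ?_⟩
        rw [hM, map_prod]
        apply Finset.prod_eq_zero (Finset.mem_univ i)
        rw [MvPolynomial.eval_X, hi]
    · rintro P (hP | hP)
      · exact hP.1
      · exact hP.1
  rcases hirr _ _ (zariskiClosureIn_idem _ _) hT hU with h | h
  · exact h.le
  · exfalso
    rw [h] at hx₀X
    obtain ⟨-, y, hy, hMy⟩ := hx₀X
    obtain ⟨g, -, hg⟩ := pt_eq_iff.mp hy
    rw [hM, map_prod] at hMy
    obtain ⟨i, -, hi⟩ := Finset.prod_eq_zero_iff.mp hMy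
    rw [MvPolynomial.eval_X, hg i] at hi
    exact mul_ne_zero (g i).ne_zero (hx₀ i) hi

end Pool.Agent.H6.Toric
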